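import Pool.Agent.Work.MP_e350e5_lc.B_TWO

/-! # Block AFF (second copy, helper30) -/

set_option autoImplicit false

namespace Pool.DTree

namespace Affx

theorem conv {n : ℕ} (x : Fin n × Fin 3 → ℝ) (S : Finset (Fin n))
    (h : AffineIndependent ℝ (fun i : S => pt x i)) (w : Fin n → ℝ) (hw : ∑ i ∈ S, w i = 0)
    (hv : ∀ l, ∑ i ∈ S, w i * x (i, l) = 0) : ∀ i ∈ S, w i = 0 := by
  classical
  rw [affineIndependent_iff_of_fintype] at h
  intro i hi
  have hw' : ∑ i : S, w i = 0 := by
    rw [Finset.sum_coe_sort S w, hw]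
  refine h (fun i : S => w i) hw' ?_ ⟨i, hi⟩
  rw [Finset.weightedVSub_eq_linear_combination _ hw']
  ext l
  have h4 : (∑ i : S, w i • pt x i) l = ∑ i : S, (w i • pt x i) l := by
    simp
  rw [h4]
  show _ = (0 : ℝ)
  rw [← hv l, ← Finset.sum_coe_sort S (fun i => w i * x (i, l))]
  apply Finset.sum_congr rfl
  intro j _
  rfl

theorem det_eq (u v w : Fin 3 → ℝ) : Matrix.det (Matrix.of ![u, v, w]) = D3 u v w := by
  rw [Matrix.det_fin_three]
  unfold D3
  simp
  ring

theorem sum4 {n : ℕ} (a b c d : Fin n) (hab : a ≠ b) (hac : a ≠ c) (had : a ≠ d) (hbc : b ≠ c)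
    (hbd : b ≠ d) (hcd : c ≠ d) (f : Fin n → ℝ) :
    ∑ i ∈ ({a, b, c, d} : Finset (Fin n)), f i = f a + f b + f c + f d := by
  rw [Finset.sum_insert (by simp [hab, hac, had]), Finset.sum_insert (by simp [hbc, hbd]),
    Finset.sum_insert (by simp [hcd]), Finset.sum_singleton]
  ring

end Affx

theorem p_AFF : S_AFF := by
  classical
  intro n x a b c d hab hac had hbc hbd hcd
  constructor
  · intro h h0
    unfold ori at h0
    rw [← Affx.det_eq] at h0
    obtain ⟨v, hv, hv0⟩ := Matrix.exists_vecMul_eq_zero_iff.mpr h0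
    apply hv
    have e : ∀ l, v 0 * (x (b, l) - x (a, l)) + v 1 * (x (c, l) - x (a, l)) +
        v 2 * (x (d, l) - x (a, l)) = 0 := by
      intro l
      have h1 := congrFun hv0 l
      simp only [Matrix.vecMul, dotProduct, Fin.sum_univ_three, Matrix.of_apply,
        Matrix.cons_val_zero, Matrix.cons_val_one, Matrix.cons_val_two, Pi.sub_apply,
        Pi.zero_apply] at h1
      simpa using h1
    let w : Fin n → ℝ := fun i => if i = a then -(v 0 + v 1 + v 2) else if i = b then v 0 else
      if i = c then v 1 else if i = d then v 2 else 0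
    have wa : w a = -(v 0 + v 1 + v 2) := by simp [w]
    have wb : w b = v 0 := by simp [w, hab.symm]
    have wc : w c = v 1 := by simp [w, hac.symm, hbc.symm]
    have wd : w d = v 2 := by simp [w, had.symm, hbd.symm, hcd.symm]
    have h2 := Affx.conv x _ h w (by
      rw [Affx.sum4 a b c d hab hac had hbc hbd hcd, wa, wb, wc, wd]
      ring) (by
      intro l
      rw [Affx.sum4 a b c d hab hac had hbc hbd hcd (fun i => w i * x (i, l)), wa, wb, wc, wd]
      linear_combination e l)
    funext l
    have hb := h2 b (by simp)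
    have hc := h2 c (by simp)
    have hd := h2 d (by simp)
    rw [wb] at hb
    rw [wc] at hc
    rw [wd] at hd
    fin_cases l
    · exact hb
    · exact hc
    · exact hd
  · intro h0
    apply Two.aff
    intro w hw hv
    rw [Affx.sum4 a b c d hab hac had hbc hbd hcd] at hw
    have e : ∀ l, w a * x (a, l) + w b * x (b, l) + w c * x (c, l) + w d * x (d, l) = 0 := by
      intro l
      have := hv l
      rwa [Affx.sum4 a b c d hab hac had hbc hbd hcd (fun i => w i * x (i, l))] at this
    have e0 := e 0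
    have e1 := e 1
    have e2 := e 2
    unfold ori D3 at h0
    simp only [Pi.sub_apply] at h0
    set xa0 := x (a, 0) with hxa0
    set xa1 := x (a, 1)
    set xa2 := x (a, 2)
    set xb0 := x (b, 0)
    set xb1 := x (b, 1)
    set xb2 := x (b, 2)
    set xc0 := x (c, 0)
    set xc1 := x (c, 1)
    set xc2 := x (c, 2)
    set xd0 := x (d, 0)
    set xd1 := x (d, 1)
    set xd2 := x (d, 2)
    have hwa : w a = -(w b + w c + w d) := by linarith
    have f0 : w b * (xb0 - xa0) + w c * (xc0 - xa0) + w d * (xd0 - xa0) = 0 := by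
      rw [hwa] at e0; linear_combination e0
    have f1 : w b * (xb1 - xa1) + w c * (xc1 - xa1) + w d * (xd1 - xa1) = 0 := by
      rw [hwa] at e1; linear_combination e1
    have f2 : w b * (xb2 - xa2) + w c * (xc2 - xa2) + w d * (xd2 - xa2) = 0 := by
      rw [hwa] at e2; linear_combination e2
    have gb : w b = 0 := by
      apply (mul_eq_zero.mp (?_ : w b * _ = 0)).resolve_right h0
      linear_combination ((xc1 - xa1) * (xd2 - xa2) - (xc2 - xa2) * (xd1 - xa1)) * f0 -
        ((xc0 - xa0) * (xd2 - xa2) - (xc2 - xa2) * (xd0 - xa0)) * f1 +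
        ((xc0 - xa0) * (xd1 - xa1) - (xc1 - xa1) * (xd0 - xa0)) * f2
    have gc : w c = 0 := by
      apply (mul_eq_zero.mp (?_ : w c * _ = 0)).resolve_right h0
      linear_combination -((xb1 - xa1) * (xd2 - xa2) - (xb2 - xa2) * (xd1 - xa1)) * f0 +
        ((xb0 - xa0) * (xd2 - xa2) - (xb2 - xa2) * (xd0 - xa0)) * f1 -
        ((xb0 - xa0) * (xd1 - xa1) - (xb1 - xa1) * (xd0 - xa0)) * f2
    have gd : w d = 0 := by
      apply (mul_eq_zero.mp (?_ : w d * _ = 0)).resolve_right h0
      linear_combination ((xb1 - xa1) * (xc2 - xa2) - (xb2 - xa2) * (xc1 - xa1)) * f0 -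
        ((xb0 - xa0) * (xc2 - xa2) - (xb2 - xa2) * (xc0 - xa0)) * f1 +
        ((xb0 - xa0) * (xc1 - xa1) - (xb1 - xa1) * (xc0 - xa0)) * f2
    have ga : w a = 0 := by rw [hwa, gb, gc, gd]; ring
    intro i hi
    simp only [Finset.mem_insert, Finset.mem_singleton] at hi
    rcases hi with rfl | rfl | rfl | rfl
    · exact ga
    · exact gb
    · exact gc
    · exact gd

end Pool.DTree
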