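import Pool.Agent.Work.MP_e350e5_lc.Interface

set_option autoImplicit false

open Finset MvPolynomial

namespace Pool.DTree

theorem CH_sum (ι : Type) [Fintype ι] [DecidableEq ι] (R : Finset ι) (B : Finset (ι → ℤ))
    (h : ∀ s ∈ B, ∀ i, (i ∈ R → s i = 1 ∨ s i = -1) ∧ (i ∉ R → s i = 0)) :
    ∑ S ∈ R.powerset, (∑ s ∈ B, ∏ i ∈ S, s i) ^ 2 = ∑ S ∈ R.powerset, (B.card : ℤ) := by
  have h1 : ∀ S ∈ R.powerset, (∑ s ∈ B, ∏ i ∈ S, s i) ^ 2
      = ∑ s ∈ B, ∑ t ∈ B, ∏ i ∈ S, (s i * t i) := by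
    intro S _
    rw [pow_two, Finset.sum_mul_sum]
    refine Finset.sum_congr rfl fun s _ => Finset.sum_congr rfl fun t _ => ?_
    rw [Finset.prod_mul_distrib]
  rw [Finset.sum_congr rfl h1, Finset.sum_comm]
  have h2 : ∀ s ∈ B, ∑ S ∈ R.powerset, ∑ t ∈ B, ∏ i ∈ S, (s i * t i) = 2 ^ R.card := by
    intro s hs
    rw [Finset.sum_comm]
    have h3 : ∀ t ∈ B, ∑ S ∈ R.powerset, ∏ i ∈ S, (s i * t i) = ∏ i ∈ R, (1 + s i * t i) := by
      intro t _
      rw [Finset.prod_one_add]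
    rw [Finset.sum_congr rfl h3, Finset.sum_eq_single_of_mem s hs]
    · have h4 : ∀ i ∈ R, (1 + s i * s i) = 2 := by
        intro i hi
        rcases (h s hs i).1 hi with h5 | h5 <;> rw [h5] <;> norm_num
      rw [Finset.prod_congr rfl h4, Finset.prod_const]
    · intro t ht hts
      obtain ⟨i, hi⟩ := Function.ne_iff.1 hts
      by_cases hiR : i ∈ R
      · refine Finset.prod_eq_zero hiR ?_
        rcases (h s hs i).1 hiR with h5 | h5 <;> rcases (h t ht i).1 hiR with h6 | h6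
        · exact absurd (h6.trans h5.symm) hi
        · rw [h5, h6]; norm_num
        · rw [h5, h6]; norm_num
        · exact absurd (h6.trans h5.symm) hi
      · exact absurd (((h t ht i).2 hiR).trans ((h s hs i).2 hiR).symm) hi
  rw [Finset.sum_congr rfl h2, Finset.sum_const, Finset.sum_const, Finset.card_powerset,
    nsmul_eq_mul, nsmul_eq_mul]
  push_cast
  ring

theorem p_CH : S_CH := by
  intro ι _ _ R B h
  have h1 := CH_sum ι R B h
  obtain ⟨S, hS, hle⟩ := Finset.exists_le_of_sum_le ⟨∅, Finset.empty_mem_powerset R⟩ h1.le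
  exact ⟨S, Finset.mem_powerset.1 hS, hle⟩

end Pool.DTree
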