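import Pool.Agent.Work.MP_e350e5_lc.Interface

/-!
# MP_e350e5_lc, block CIR: the circumcentre
-/

set_option autoImplicit false

namespace Pool.DTree

namespace Cir

theorem step (a b T : Fin 3 → ℝ) (D : ℝ) (hD : D ≠ 0)
    (h : (b 0 - a 0) * T 0 + (b 1 - a 1) * T 1 + (b 2 - a 2) * T 2 =
      ((b 0 - a 0) ^ 2 + (b 1 - a 1) ^ 2 + (b 2 - a 2) ^ 2) * D) :
    nq (b - fun j => a j + T j / (2 * D)) = nq (a - fun j => a j + T j / (2 * D)) := by
  simp only [nq, Pi.sub_apply]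
  have e : ∀ j, T j / (2 * D) = (T j / D) / 2 := fun j => by
    rw [div_div, mul_comm]
  rw [e, e, e]
  have h2 : (b 0 - a 0) * (T 0 / D) + (b 1 - a 1) * (T 1 / D) + (b 2 - a 2) * (T 2 / D) =
      (b 0 - a 0) ^ 2 + (b 1 - a 1) ^ 2 + (b 2 - a 2) ^ 2 := by
    have h3 : (b 0 - a 0) * (T 0 / D) + (b 1 - a 1) * (T 1 / D) + (b 2 - a 2) * (T 2 / D) =
        ((b 0 - a 0) * T 0 + (b 1 - a 1) * T 1 + (b 2 - a 2) * T 2) / D := by ring
    rw [h3, h, mul_div_assoc, div_self hD, mul_one]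
  linear_combination -h2

end Cir

theorem p_CIR : S_CIR := by
  intro a b c d hD
  let T : Fin 3 → ℝ := ![
    nq (b - a) * ((c - a) 1 * (d - a) 2 - (c - a) 2 * (d - a) 1)
      + nq (c - a) * ((d - a) 1 * (b - a) 2 - (d - a) 2 * (b - a) 1)
      + nq (d - a) * ((b - a) 1 * (c - a) 2 - (b - a) 2 * (c - a) 1),
    nq (b - a) * ((c - a) 2 * (d - a) 0 - (c - a) 0 * (d - a) 2)
      + nq (c - a) * ((d - a) 2 * (b - a) 0 - (d - a) 0 * (b - a) 2)
      + nq (d - a) * ((b - a) 2 * (c - a) 0 - (b - a) 0 * (c - a) 2),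
    nq (b - a) * ((c - a) 0 * (d - a) 1 - (c - a) 1 * (d - a) 0)
      + nq (c - a) * ((d - a) 0 * (b - a) 1 - (d - a) 1 * (b - a) 0)
      + nq (d - a) * ((b - a) 0 * (c - a) 1 - (b - a) 1 * (c - a) 0)]
  refine ⟨fun j => a j + T j / (2 * ori a b c d), Cir.step a b T _ hD ?_, Cir.step a c T _ hD ?_,
    Cir.step a d T _ hD ?_⟩
  all_goals
    simp only [T, nq, ori, D3, Pi.sub_apply, Matrix.cons_val_zero, Matrix.cons_val_one,
      Matrix.cons_val]
    ring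

end Pool.DTree
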