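import Pool.Agent.Work.MP_e350e5_lc.Interface

set_option autoImplicit false

open Finset MvPolynomial

namespace Pool.DTree

namespace Deg

variable {σ : Type}

theorem tadd {f g : MvPolynomial σ ℝ} {n : ℕ} (hf : f.totalDegree ≤ n) (hg : g.totalDegree ≤ n) :
    (f + g).totalDegree ≤ n := (totalDegree_add f g).trans (max_le hf hg)

theorem tsub {f g : MvPolynomial σ ℝ} {n : ℕ} (hf : f.totalDegree ≤ n) (hg : g.totalDegree ≤ n) :
    (f - g).totalDegree ≤ n := (totalDegree_sub f g).trans (max_le hf hg)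

theorem tmul {f g : MvPolynomial σ ℝ} (m n : ℕ) (hf : f.totalDegree ≤ m)
    (hg : g.totalDegree ≤ n) : (f * g).totalDegree ≤ m + n :=
  (totalDegree_mul f g).trans (add_le_add hf hg)

theorem tD3 {u v w : Fin 3 → MvPolynomial σ ℝ} (hu : ∀ j, (u j).totalDegree ≤ 1)
    (hv : ∀ j, (v j).totalDegree ≤ 1) (hw : ∀ j, (w j).totalDegree ≤ 1) :
    (D3 u v w).totalDegree ≤ 3 := by
  unfold D3
  exact tadd (tsub (tmul 1 2 (hu 0) (tsub (tmul 1 1 (hv 1) (hw 2)) (tmul 1 1 (hv 2) (hw 1))))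
    (tmul 1 2 (hu 1) (tsub (tmul 1 1 (hv 0) (hw 2)) (tmul 1 1 (hv 2) (hw 0)))))
    (tmul 1 2 (hu 2) (tsub (tmul 1 1 (hv 0) (hw 1)) (tmul 1 1 (hv 1) (hw 0))))

theorem tnq {u : Fin 3 → MvPolynomial σ ℝ} (hu : ∀ j, (u j).totalDegree ≤ 1) :
    (nq u).totalDegree ≤ 2 := by
  unfold nq
  rw [sq, sq, sq]
  exact tadd (tadd (tmul 1 1 (hu 0) (hu 0)) (tmul 1 1 (hu 1) (hu 1))) (tmul 1 1 (hu 2) (hu 2))

theorem txp {n : ℕ} (a b : Fin n) (j : Fin 3) : ((xp a - xp b) j).totalDegree ≤ 1 := by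
  change (X (a, j) - X (b, j) : MvPolynomial (Fin n × Fin 3) ℝ).totalDegree ≤ 1
  exact tsub (totalDegree_X _).le (totalDegree_X _).le

end Deg

open Deg in
theorem p_DEG : S_DEG := by
  intro n i
  rcases i with ⟨a, b, c, d⟩ | ⟨a, b, c, d, e⟩
  · change (ori (xp a) (xp b) (xp c) (xp d)).totalDegree ≤ 5
    unfold ori
    exact (tD3 (txp b a) (txp c a) (txp d a)).trans (by norm_num)
  · change (isp (xp a) (xp b) (xp c) (xp d) (xp e)).totalDegree ≤ 5
    unfold isp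
    exact tsub (tadd (tsub
      (tmul 2 3 (tnq (txp e a)) (tD3 (txp b a) (txp c a) (txp d a)))
      (tmul 2 3 (tnq (txp d a)) (tD3 (txp b a) (txp c a) (txp e a))))
      (tmul 2 3 (tnq (txp c a)) (tD3 (txp b a) (txp d a) (txp e a))))
      (tmul 2 3 (tnq (txp b a)) (tD3 (txp c a) (txp d a) (txp e a)))

end Pool.DTree
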