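import Pool.Agent.Work.MP_e350e5_lc.Interface

set_option autoImplicit false

namespace Pool.DTree

namespace HalfAux

theorem cinj : ∀ a b : SignType, (SignType.castHom a : ℤ) = SignType.castHom b → a = b := by
  decide

theorem cval (a : SignType) (h : a ≠ 0) :
    ((SignType.castHom a : ℤ) = 1 ∧ a = 1) ∨ ((SignType.castHom a : ℤ) = -1 ∧ a = -1) := by
  revert h
  revert a
  decide

theorem arith (p q m : ℤ) (h2 : 2 ≤ m) (hm : p + q = m) (h : (p - q) ^ 2 ≤ m) :
    4 * p ≤ 3 * m ∧ 4 * q ≤ 3 * m := by
  have h1 : 2 * (p - q) ≤ m := by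
    by_cases hc : p - q ≤ 1
    · linarith
    · push Not at hc
      nlinarith
  have h3 : 2 * (q - p) ≤ m := by
    by_cases hc : q - p ≤ 1
    · linarith
    · push Not at hc
      nlinarith
  constructor <;> linarith

end HalfAux

theorem p_HALF (h : S_CH) : S_HALF := by
  classical
  intro ι _ _ R B hB hR
  set f : (ι → SignType) → (ι → ℤ) := fun s i => SignType.castHom (s i) with hf
  have hfinj : Function.Injective f := by
    intro s t hst
    funext i
    exact HalfAux.cinj _ _ (congrFun hst i)
  obtain ⟨S, hS, hle⟩ := h ι R (B.image f) (by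
    intro t ht i
    obtain ⟨s, hs, rfl⟩ := Finset.mem_image.1 ht
    refine ⟨fun hi => ?_, fun hi => ?_⟩
    · rcases HalfAux.cval (s i) ((hR s hs i).1 hi) with h1 | h1
      · exact Or.inl h1.1
      · exact Or.inr h1.1
    · have h0 : s i = 0 := by
        by_contra hne
        exact hi ((hR s hs i).2 hne)
      change (SignType.castHom (s i) : ℤ) = 0
      rw [h0, map_zero])
  refine ⟨S, hS, ?_⟩
  rw [Finset.card_image_of_injective _ hfinj, Finset.sum_image (fun a _ b _ hab => hfinj hab)] at hle
  have hprod : ∀ s : ι → SignType, ∏ i ∈ S, f s i = SignType.castHom (∏ i ∈ S, s i) := by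
    intro s
    rw [map_prod]
  have hne : ∀ s ∈ B, ∏ i ∈ S, s i ≠ 0 := by
    intro s hs
    rw [Finset.prod_ne_zero_iff]
    intro i hi
    exact (hR s hs i).1 (hS hi)
  set P := B.filter (fun s => ∏ i ∈ S, s i = 1) with hP
  set N := B.filter (fun s => ∏ i ∈ S, s i = -1) with hN
  have hdis : Disjoint P N := by
    rw [Finset.disjoint_left]
    intro s h1 h2
    have a1 := (Finset.mem_filter.1 h1).2
    have a2 := (Finset.mem_filter.1 h2).2
    rw [a1] at a2
    exact absurd a2 (by decide)
  have hun : B = P ∪ N := by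
    ext s
    rw [Finset.mem_union, Finset.mem_filter, Finset.mem_filter]
    constructor
    · intro hs
      rcases HalfAux.cval _ (hne s hs) with h1 | h1
      · exact Or.inl ⟨hs, h1.2⟩
      · exact Or.inr ⟨hs, h1.2⟩
    · rintro (h1 | h1)
      · exact h1.1
      · exact h1.1
  have hcard : (P.card : ℤ) + N.card = B.card := by
    conv_rhs => rw [hun]
    rw [Finset.card_union_of_disjoint hdis]
    push_cast
    rfl
  have hsum : ∑ s ∈ B, ∏ i ∈ S, f s i = (P.card : ℤ) - N.card := by
    conv_lhs => rw [hun]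
    rw [Finset.sum_union hdis]
    have e1 : ∑ s ∈ P, ∏ i ∈ S, f s i = (P.card : ℤ) := by
      have : ∀ s ∈ P, ∏ i ∈ S, f s i = 1 := by
        intro s hs
        rw [hprod, (Finset.mem_filter.1 hs).2, map_one]
      rw [Finset.sum_congr rfl this]
      simp
    have e2 : ∑ s ∈ N, ∏ i ∈ S, f s i = -(N.card : ℤ) := by
      have : ∀ s ∈ N, ∏ i ∈ S, f s i = -1 := by
        intro s hs
        rw [hprod, (Finset.mem_filter.1 hs).2]
        decide
      rw [Finset.sum_congr rfl this]
      simp
    rw [e1, e2]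
    ring
  rw [hsum] at hle
  obtain ⟨r1, r2⟩ := HalfAux.arith P.card N.card B.card (by exact_mod_cast hB) hcard hle
  constructor
  · exact_mod_cast r1
  · exact_mod_cast r2

end Pool.DTree
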