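import Pool.Agent.Work.MP_e350e5_lc.Interface

/-!
# Block LV: a tree of depth `d` has at most `3 ^ d` outputs
-/

set_option autoImplicit false

open Finset MvPolynomial

namespace Pool.DTree

theorem p_LV : S_LV := by
  classical
  intro σ O T
  induction T with
  | leaf o' =>
    intro B hB
    have h : B ⊆ {o'} := by
      intro o ho
      obtain ⟨x, hx⟩ := hB o ho
      rw [mem_singleton]
      exact hx.symm
    exact (card_le_card h).trans (by simp [Tree.depth])
  | node p a b c iha ihb ihc =>
    intro B hB
    have h : B ⊆ (B.filter (fun o => ∃ x, a.run x = o) ∪ B.filter (fun o => ∃ x, b.run x = o)) ∪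
        B.filter (fun o => ∃ x, c.run x = o) := by
      intro o ho
      obtain ⟨x, hx⟩ := hB o ho
      rw [Tree.run] at hx
      rw [mem_union, mem_union, mem_filter, mem_filter, mem_filter]
      split_ifs at hx with h1 h2
      · exact Or.inl (Or.inl ⟨ho, x, hx⟩)
      · exact Or.inl (Or.inr ⟨ho, x, hx⟩)
      · exact Or.inr ⟨ho, x, hx⟩
    have ha := iha (B.filter (fun o => ∃ x, a.run x = o)) (fun o ho => (mem_filter.1 ho).2)
    have hb := ihb (B.filter (fun o => ∃ x, b.run x = o)) (fun o ho => (mem_filter.1 ho).2)
    have hc := ihc (B.filter (fun o => ∃ x, c.run x = o)) (fun o ho => (mem_filter.1 ho).2)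
    have h0 : B.card ≤ 3 ^ a.depth + 3 ^ b.depth + 3 ^ c.depth :=
      (card_le_card h).trans ((card_union_le _ _).trans
        (add_le_add ((card_union_le _ _).trans (add_le_add ha hb)) hc))
    have h1 : 3 ^ a.depth ≤ 3 ^ max a.depth (max b.depth c.depth) :=
      Nat.pow_le_pow_right (by norm_num) (le_max_left _ _)
    have h2 : 3 ^ b.depth ≤ 3 ^ max a.depth (max b.depth c.depth) :=
      Nat.pow_le_pow_right (by norm_num) ((le_max_left _ _).trans (le_max_right _ _))
    have h3 : 3 ^ c.depth ≤ 3 ^ max a.depth (max b.depth c.depth) :=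
      Nat.pow_le_pow_right (by norm_num) ((le_max_right _ _).trans (le_max_right _ _))
    rw [Tree.depth, pow_succ]
    omega

end Pool.DTree
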