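import Pool.Agent.Work.MP_e350e5_lc.Interface

/-!
MP_e350e5_lc, block NUM (helper9): the numbers.
-/

namespace Pool.DTree

theorem NUM_base (n : ℕ) : 1 + (2 * 5 * (n ^ 4 + n ^ 5) + 1) * (3 * n) ≤ (n + 2) ^ 12 := by
  rcases Nat.eq_zero_or_pos n with rfl | hn
  · norm_num
  · have h1 : n ^ 4 + n ^ 5 ≤ 2 * (n + 2) ^ 5 := by
      have a : n ^ 4 ≤ (n + 2) ^ 5 := by
        calc n ^ 4 ≤ (n + 2) ^ 4 := Nat.pow_le_pow_left (by omega) 4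
          _ ≤ (n + 2) ^ 5 := Nat.pow_le_pow_right (by omega) (by omega)
      have b : n ^ 5 ≤ (n + 2) ^ 5 := Nat.pow_le_pow_left (by omega) 5
      omega
    have h2 : 3 * n ≤ 3 * (n + 2) := by omega
    have h3 : 1 ≤ (n + 2) ^ 5 := Nat.one_le_pow _ _ (by omega)
    have h4 : 1 + (2 * 5 * (n ^ 4 + n ^ 5) + 1) * (3 * n) ≤ 64 * (n + 2) ^ 6 := by
      have h5 : 2 * 5 * (n ^ 4 + n ^ 5) + 1 ≤ 21 * (n + 2) ^ 5 := by omega
      have h6 : (2 * 5 * (n ^ 4 + n ^ 5) + 1) * (3 * n) ≤ 21 * (n + 2) ^ 5 * (3 * (n + 2)) :=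
        Nat.mul_le_mul h5 h2
      have h7 : 21 * (n + 2) ^ 5 * (3 * (n + 2)) = 63 * (n + 2) ^ 6 := by ring
      have h8 : 1 ≤ (n + 2) ^ 6 := Nat.one_le_pow _ _ (by omega)
      omega
    have h9 : 64 ≤ (n + 2) ^ 6 := by
      calc 64 ≤ 3 ^ 6 := by norm_num
        _ ≤ (n + 2) ^ 6 := Nat.pow_le_pow_left (by omega) 6
    calc 1 + (2 * 5 * (n ^ 4 + n ^ 5) + 1) * (3 * n) ≤ 64 * (n + 2) ^ 6 := h4
      _ ≤ (n + 2) ^ 6 * (n + 2) ^ 6 := Nat.mul_le_mul_right _ h9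
      _ = (n + 2) ^ 12 := by ring

theorem p_NUM : S_NUM := by
  intro n
  have hc : Fintype.card (Ix n) = n ^ 4 + n ^ 5 := by
    simp [Ix, Fintype.card_sum, Fintype.card_prod]
    ring
  have hc2 : Fintype.card (Fin n × Fin 3) = 3 * n := by
    simp [Fintype.card_prod]
    ring
  rw [hc, hc2]
  have hb := NUM_base n
  have h0 : 0 < 1 + (2 * 5 * (n ^ 4 + n ^ 5) + 1) * (3 * n) := by omega
  have hlog : Real.log (((1 + (2 * 5 * (n ^ 4 + n ^ 5) + 1) * (3 * n)) ^ (3 * n) : ℕ) : ℝ) ≤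
      36 * n * Real.log (n + 2) := by
    rw [Nat.cast_pow, Real.log_pow]
    have h1 : Real.log ((1 + (2 * 5 * (n ^ 4 + n ^ 5) + 1) * (3 * n) : ℕ) : ℝ) ≤
        Real.log (((n + 2) ^ 12 : ℕ) : ℝ) :=
      Real.log_le_log (by exact_mod_cast h0) (by exact_mod_cast hb)
    rw [Nat.cast_pow, Real.log_pow] at h1
    have h2 : (0 : ℝ) ≤ ((3 * n : ℕ) : ℝ) := Nat.cast_nonneg _
    calc ((3 * n : ℕ) : ℝ) * Real.log ((1 + (2 * 5 * (n ^ 4 + n ^ 5) + 1) * (3 * n) : ℕ) : ℝ)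
        ≤ ((3 * n : ℕ) : ℝ) * ((12 : ℕ) * Real.log ((n + 2 : ℕ) : ℝ)) :=
          mul_le_mul_of_nonneg_left h1 h2
      _ = 36 * n * Real.log (n + 2) := by push_cast; ring
  linarith

end Pool.DTree
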