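import Pool.Agent.Work.MP_e350e5_lc.Interface

/-!
Block SG: sign search with products.
-/

set_option autoImplicit false

open Finset MvPolynomial

namespace Pool.DTree

namespace SG

theorem log_step {a m : ℕ} (hm : 2 ≤ m) (h : 4 * a ≤ 3 * m) :
    4 * Real.log a + 1 ≤ 4 * Real.log m := by
  have hmR : (2 : ℝ) ≤ m := by exact_mod_cast hm
  rcases Nat.eq_zero_or_pos a with ha | ha
  · subst ha
    have h2 : Real.log 2 ≤ Real.log m := Real.log_le_log (by norm_num) hmR
    have h3 := Real.log_two_gt_d9
    simp only [Nat.cast_zero, Real.log_zero]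
    linarith
  · have haR : (0 : ℝ) < a := by exact_mod_cast ha
    have hR : (4 : ℝ) * a ≤ 3 * m := by exact_mod_cast h
    have h1 : (a : ℝ) ≤ 3 / 4 * m := by linarith
    have h2 : Real.log a ≤ Real.log (3 / 4 * m) := Real.log_le_log haR h1
    rw [Real.log_mul (by norm_num) (by positivity)] at h2
    have h3 : Real.log (3 / 4) ≤ 3 / 4 - 1 := Real.log_le_sub_one_of_pos (by norm_num)
    linarith

theorem sign_prod {σ ι : Type} (f : ι → MvPolynomial σ ℝ) (S : Finset ι) (x : σ → ℝ) :
    SignType.sign (eval x (∏ i ∈ S, f i)) = ∏ i ∈ S, sv f x i := by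
  rw [map_prod]
  exact map_prod (signHom : ℝ →*₀ SignType) _ _

theorem main (h : S_HALF) (σ ι O : Type) [Fintype ι] [DecidableEq ι] (f : ι → MvPolynomial σ ℝ)
    (G : (ι → SignType) → O) (R : Finset ι) :
    ∀ (m : ℕ) (B : Finset (ι → SignType)), B.card = m →
    (∀ s ∈ B, ∀ i, i ∈ R ↔ s i ≠ 0) → ∃ T : Tree σ O, (T.depth : ℝ) ≤ 4 * Real.log B.card ∧
      ∀ x, sv f x ∈ B → T.run x = G (sv f x) := by
  classical
  intro m
  induction m using Nat.strong_induction_on with
  | _ m ih =>
    intro B hB hR
    rcases Nat.lt_or_ge B.card 2 with hlt | hge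
    · rcases Nat.eq_zero_or_pos B.card with h0 | h0
      · rw [card_eq_zero] at h0
        subst h0
        exact ⟨.leaf (G 0), by simp [Tree.depth], fun x hx => absurd hx (notMem_empty _)⟩
      · have h1 : B.card = 1 := by omega
        obtain ⟨s, rfl⟩ := card_eq_one.1 h1
        refine ⟨.leaf (G s), by simp [Tree.depth], fun x hx => ?_⟩
        rw [mem_singleton] at hx
        rw [hx]
        rfl
    · obtain ⟨S, hSR, hp, hn⟩ := h ι R B hge hR
      obtain ⟨Tp, hTp, hTp2⟩ := ih _ (by omega) (B.filter (fun s => ∏ i ∈ S, s i = 1)) rfl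
        (fun s hs => hR s (mem_of_mem_filter s hs))
      obtain ⟨Tn, hTn, hTn2⟩ := ih _ (by omega) (B.filter (fun s => ∏ i ∈ S, s i = -1)) rfl
        (fun s hs => hR s (mem_of_mem_filter s hs))
      refine ⟨.node (∏ i ∈ S, f i) Tn (.leaf (G 0)) Tp, ?_, ?_⟩
      · have e1 := log_step hge hp
        have e2 := log_step hge hn
        have e3 : (1 : ℝ) ≤ 4 * Real.log B.card := by
          have := log_step (a := 0) hge (by omega)
          simpa using this
        have hd : (Tree.node (∏ i ∈ S, f i) Tn (.leaf (G 0)) Tp).depth =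
            max Tn.depth (max 0 Tp.depth) + 1 := rfl
        rw [hd]
        push_cast
        have : max (Tn.depth : ℝ) (max 0 (Tp.depth : ℝ)) ≤ 4 * Real.log B.card - 1 := by
          refine max_le ?_ (max_le ?_ ?_) <;> linarith
        linarith
      · intro x hx
        have hsg := sign_prod f S x
        have hne : eval x (∏ i ∈ S, f i) ≠ 0 := by
          rw [map_prod, prod_ne_zero_iff]
          intro i hi h0
          have := (hR _ hx i).1 (hSR hi)
          apply this
          unfold sv
          rw [h0, sign_zero]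
        rcases lt_or_gt_of_ne hne with hlt | hgt
        · have hs : sv f x ∈ B.filter (fun s => ∏ i ∈ S, s i = -1) := by
            rw [mem_filter]
            refine ⟨hx, ?_⟩
            rw [← hsg, sign_eq_neg_one_iff]
            exact hlt
          rw [Tree.run, if_pos hlt]
          exact hTn2 x hs
        · have hs : sv f x ∈ B.filter (fun s => ∏ i ∈ S, s i = 1) := by
            rw [mem_filter]
            refine ⟨hx, ?_⟩
            rw [← hsg, sign_eq_one_iff]
            exact hgt
          rw [Tree.run, if_neg (not_lt.2 hgt.le), if_neg hne]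
          exact hTp2 x hs

end SG

theorem p_SG (h : S_HALF) : S_SG := by
  intro σ ι O _ _ f G R B hR
  exact SG.main h σ ι O f G R B.card B rfl hR

end Pool.DTree
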