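import Pool.Agent.Work.MP_e350e5_lc.Interface

/-! Block SPH of MP_e350e5_lc: the in-sphere identity (helper12). -/

set_option autoImplicit false

namespace Pool.DTree

theorem SPH_core (u v w z p : Fin 3 → ℝ) (h1 : nq (u - p) = nq p) (h2 : nq (v - p) = nq p)
    (h3 : nq (w - p) = nq p) :
    nq z * D3 u v w - nq w * D3 u v z + nq v * D3 u w z - nq u * D3 v w z =
      D3 u v w * (nq (z - p) - nq p) := by
  simp only [nq, D3, Pi.sub_apply] at h1 h2 h3 ⊢
  generalize u 0 = u0 at *
  generalize u 1 = u1 at *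
  generalize u 2 = u2 at *
  generalize v 0 = v0 at *
  generalize v 1 = v1 at *
  generalize v 2 = v2 at *
  generalize w 0 = w0 at *
  generalize w 1 = w1 at *
  generalize w 2 = w2 at *
  generalize z 0 = z0 at *
  generalize z 1 = z1 at *
  generalize z 2 = z2 at *
  generalize p 0 = p0 at *
  generalize p 1 = p1 at *
  generalize p 2 = p2 at *
  linear_combination
    (-(v0 * (w1 * z2 - w2 * z1) - v1 * (w0 * z2 - w2 * z0) + v2 * (w0 * z1 - w1 * z0))) * h1 +
    (u0 * (w1 * z2 - w2 * z1) - u1 * (w0 * z2 - w2 * z0) + u2 * (w0 * z1 - w1 * z0)) * h2 -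
    (u0 * (v1 * z2 - v2 * z1) - u1 * (v0 * z2 - v2 * z0) + u2 * (v0 * z1 - v1 * z0)) * h3

theorem p_SPH : S_SPH := by
  intro a b c d e o hb hc hd
  have key := SPH_core (b - a) (c - a) (d - a) (e - a) (o - a)
  have e1 : ∀ q : Fin 3 → ℝ, nq (q - a - (o - a)) = nq (q - o) := by
    intro q
    rw [sub_sub_sub_cancel_right]
  have e2 : nq (o - a) = nq (a - o) := by
    simp only [nq, Pi.sub_apply]
    ring
  rw [e1, e1, e1, e1, e2] at key
  exact key hb hc hd

end Pool.DTree
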