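import Pool.Agent.Work.MP_e350e5_lc.Interface2

/-!
# MP_e350e5_lc, block TCOV
-/

set_option autoImplicit false

open Finset MvPolynomial Filter Topology

namespace Pool.DTree

namespace BTCOV

theorem grow (h3 : S_TGR1) {n : ℕ} (x : Fin n × Fin 3 → ℝ) (ω : Fin n → ℝ)
    (hsp : affineSpan ℝ (Set.range (pt x)) = ⊤) (k : ℕ) :
    ∀ v c, Feas x ω v c → n - (tight x ω v c).ncard = k →
      ∃ v' c', Feas x ω v' c' ∧ tight x ω v c ⊆ tight x ω v' c' ∧
        affineSpan ℝ (pt x '' tight x ω v' c') = ⊤ := by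
  induction k using Nat.strong_induction_on with
  | _ k ih =>
    intro v c hf hk
    by_cases hs : affineSpan ℝ (pt x '' tight x ω v c) = ⊤
    · exact ⟨v, c, hf, subset_rfl, hs⟩
    · obtain ⟨v1, c1, hf1, hlt⟩ := h3 n x ω v c hsp hf hs
      have h4 : (tight x ω v c).ncard < (tight x ω v1 c1).ncard :=
        Set.ncard_lt_ncard hlt (Set.toFinite _)
      have h5 : (tight x ω v1 c1).ncard ≤ n := by
        have h6 := Set.ncard_le_ncard (Set.subset_univ (tight x ω v1 c1)) Set.finite_univ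
        rwa [Set.ncard_univ, Nat.card_eq_fintype_card, Fintype.card_fin] at h6
      obtain ⟨v', c', hf', hsub, hspan⟩ := ih (n - (tight x ω v1 c1).ncard) (by omega) v1 c1 hf1 rfl
      exact ⟨v', c', hf', hlt.subset.trans hsub, hspan⟩

theorem indep {n : ℕ} (x : Fin n × Fin 3 → ℝ) (U : Finset (Fin n))
    (hsp : affineSpan ℝ (pt x '' (U : Set (Fin n))) = ⊤) (hU : U.card ≤ 4) :
    U.card = 4 ∧ AffineIndependent ℝ (fun i : U => pt x i) := by
  have hr : Set.range (fun i : U => pt x i) = pt x '' (U : Set (Fin n)) := by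
    ext y
    simp only [Set.mem_range, Set.mem_image, Finset.mem_coe]
    constructor
    · rintro ⟨i, rfl⟩
      exact ⟨i, i.2, rfl⟩
    · rintro ⟨i, hi, rfl⟩
      exact ⟨⟨i, hi⟩, rfl⟩
  have hfr : Module.finrank ℝ (vectorSpan ℝ (Set.range (fun i : U => pt x i))) = 3 := by
    rw [hr, ← direction_affineSpan, hsp, AffineSubspace.direction_top, finrank_top]
    simp
  have hne : 1 ≤ U.card := by
    by_contra h
    push Not at h
    have h0 : U = ∅ := by
      rw [← Finset.card_eq_zero]; omega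
    subst h0
    have h5 : affineSpan ℝ (pt x '' ((∅ : Finset (Fin n)) : Set (Fin n))) = ⊥ := by simp
    rw [h5] at hsp
    exact AffineSubspace.bot_ne_top ℝ (EuclideanSpace ℝ (Fin 3)) (EuclideanSpace ℝ (Fin 3)) hsp
  have hcard : Fintype.card U = (U.card - 1) + 1 := by
    rw [Fintype.card_coe]; omega
  have h1 := finrank_vectorSpan_range_le ℝ (fun i : U => pt x i) hcard
  rw [hfr] at h1
  have h4 : U.card = 4 := by omega
  refine ⟨h4, ?_⟩
  have hcard' : Fintype.card U = 3 + 1 := by rw [Fintype.card_coe, h4]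
  exact (affineIndependent_iff_finrank_vectorSpan_eq ℝ (fun i : U => pt x i) hcard').2 hfr

theorem inner (h1 : S_TMAX) (h2 : S_TSEP) (h3 : S_TGR1) {n : ℕ} (x : Fin n × Fin 3 → ℝ)
    (ω : Fin n → ℝ) (hsp : affineSpan ℝ (Set.range (pt x)) = ⊤) (hG : Gen x ω)
    (q : EuclideanSpace ℝ (Fin 3)) (hq : q ∈ interior (convexHull ℝ (Set.range (pt x)))) :
    ∃ S, Low x ω S ∧ q ∈ convexHull ℝ (pt x '' (S : Set (Fin n))) := by
  classical
  obtain ⟨v, c, hf, hmax⟩ := h1 n x ω q hq
  have hqt := h2 n x ω q v c hf hmax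
  obtain ⟨v', c', hf', hsub, hspan⟩ := grow h3 x ω hsp _ v c hf rfl
  have hfin : (tight x ω v' c').Finite := Set.toFinite _
  have hU : ((hfin.toFinset : Finset (Fin n)) : Set (Fin n)) = tight x ω v' c' :=
    hfin.coe_toFinset
  have hspU : affineSpan ℝ (pt x '' ((hfin.toFinset : Finset (Fin n)) : Set (Fin n))) = ⊤ := by
    rw [hU]; exact hspan
  have hle : hfin.toFinset.card ≤ 4 := by
    apply hG v' c' hfin.toFinset _ hspU
    intro i hi
    have h4 : i ∈ tight x ω v' c' := hfin.mem_toFinset.1 hi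
    exact h4
  obtain ⟨hc, hind⟩ := indep x hfin.toFinset hspU hle
  refine ⟨hfin.toFinset, ⟨hc, hind, v', c', ?_, ?_⟩, ?_⟩
  · intro i hi
    have h4 : i ∈ tight x ω v' c' := hfin.mem_toFinset.1 hi
    exact h4
  · intro m hm
    have h4 : m ∉ tight x ω v' c' := fun h => hm (hfin.mem_toFinset.2 h)
    exact lt_of_le_of_ne (hf' m) h4
  · rw [hU]
    exact convexHull_mono (Set.image_mono hsub) hqt

end BTCOV

theorem p_TCOV (h1 : S_TMAX) (h2 : S_TSEP) (h3 : S_TGR1) : S_TCOV := by
  classical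
  intro n x ω hsp hG q hq
  have hK : IsClosed (⋃ S ∈ {S : Finset (Fin n) | Low x ω S},
      convexHull ℝ (pt x '' (S : Set (Fin n)))) := by
    apply Set.Finite.isClosed_biUnion (Set.toFinite _)
    intro S _
    exact Set.Finite.isClosed_convexHull ℝ ((Set.toFinite _).image _)
  have hint : interior (convexHull ℝ (Set.range (pt x))) ⊆
      ⋃ S ∈ {S : Finset (Fin n) | Low x ω S}, convexHull ℝ (pt x '' (S : Set (Fin n))) := by
    intro p hp
    obtain ⟨S, hS, hpS⟩ := BTCOV.inner h1 h2 h3 x ω hsp hG p hp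
    exact Set.mem_biUnion (show S ∈ {S : Finset (Fin n) | Low x ω S} from hS) hpS
  have hne : (interior (convexHull ℝ (Set.range (pt x)))).Nonempty :=
    interior_convexHull_nonempty_iff_affineSpan_eq_top.2 hsp
  have hcl : closure (interior (convexHull ℝ (Set.range (pt x)))) =
      closure (convexHull ℝ (Set.range (pt x))) :=
    (convex_convexHull ℝ _).closure_interior_eq_closure_of_nonempty_interior hne
  have hq' : q ∈ closure (interior (convexHull ℝ (Set.range (pt x)))) := by
    rw [hcl]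
    exact subset_closure hq
  have hq2 := closure_minimal hint hK hq'
  rw [Set.mem_iUnion₂] at hq2
  obtain ⟨S, hS, hqS⟩ := hq2
  exact ⟨S, hS, hqS⟩

end Pool.DTree
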