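import Pool.Agent.Work.MP_e350e5_lc.Interface

/-!
# Block GEO
-/

set_option autoImplicit false

open Finset MvPolynomial

namespace Pool.DTree

theorem GEO_dist {n : ℕ} (x : Fin n × Fin 3 → ℝ) (i : Fin n) (o : EuclideanSpace ℝ (Fin 3)) :
    dist (pt x i) o = √(nq ((fun j => x (i, j)) - (fun j => o j))) := by
  rw [EuclideanSpace.dist_eq, Fin.sum_univ_three]
  simp only [Real.dist_eq, sq_abs, nq, Pi.sub_apply, pt]

theorem GEO_nn (u : Fin 3 → ℝ) : 0 ≤ nq u := by
  unfold nq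
  positivity

theorem GEO_char (h1 : S_SPH) (h2 : S_CIR) (h3 : S_AFF) {n : ℕ} (x : Fin n × Fin 3 → ℝ)
    (a b c d : Fin n) (hab : a ≠ b) (hac : a ≠ c) (had : a ≠ d) (hbc : b ≠ c) (hbd : b ≠ d)
    (hcd : c ≠ d) : IsDel x {a, b, c, d} ↔
    ori (fun j => x (a, j)) (fun j => x (b, j)) (fun j => x (c, j)) (fun j => x (d, j)) ≠ 0 ∧
    ∀ m, 0 ≤ ori (fun j => x (a, j)) (fun j => x (b, j)) (fun j => x (c, j)) (fun j => x (d, j)) *
      isp (fun j => x (a, j)) (fun j => x (b, j)) (fun j => x (c, j)) (fun j => x (d, j))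
        (fun j => x (m, j)) := by
  have hcard : ({a, b, c, d} : Finset (Fin n)).card = 4 := by
    rw [Finset.card_insert_of_notMem (by simp [hab, hac, had]),
      Finset.card_insert_of_notMem (by simp [hbc, hbd]),
      Finset.card_insert_of_notMem (by simp [hcd]), Finset.card_singleton]
  constructor
  · rintro ⟨_, hA, o, r, hr, hm⟩
    have hne := (h3 n x a b c d hab hac had hbc hbd hcd).1 hA
    refine ⟨hne, fun m => ?_⟩
    have ha := hr a (by simp)
    have hb := hr b (by simp)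
    have hc := hr c (by simp)
    have hd := hr d (by simp)
    rw [GEO_dist] at ha hb hc hd
    have e1 := (Real.sqrt_inj (GEO_nn _) (GEO_nn _)).1 (hb.trans ha.symm)
    have e2 := (Real.sqrt_inj (GEO_nn _) (GEO_nn _)).1 (hc.trans ha.symm)
    have e3 := (Real.sqrt_inj (GEO_nn _) (GEO_nn _)).1 (hd.trans ha.symm)
    rw [h1 _ _ _ _ (fun j => x (m, j)) _ e1 e2 e3, ← mul_assoc]
    have h5 := hm m
    rw [GEO_dist, ← ha] at h5
    have h6 := (Real.sqrt_le_sqrt_iff (GEO_nn _)).1 h5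
    exact mul_nonneg (mul_self_nonneg _) (by linarith)
  · rintro ⟨hne, hm⟩
    obtain ⟨o, e1, e2, e3⟩ := h2 _ _ _ _ hne
    refine ⟨hcard, (h3 n x a b c d hab hac had hbc hbd hcd).2 hne, WithLp.toLp 2 o,
      dist (pt x a) (WithLp.toLp 2 o), ?_, ?_⟩
    · intro i hi
      simp only [Finset.mem_insert, Finset.mem_singleton] at hi
      rw [GEO_dist, GEO_dist]
      rcases hi with rfl | rfl | rfl | rfl
      · rfl
      · exact congrArg _ e1
      · exact congrArg _ e2
      · exact congrArg _ e3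
    · intro m
      rw [GEO_dist, GEO_dist]
      apply Real.sqrt_le_sqrt
      have h5 := hm m
      rw [h1 _ _ _ _ (fun j => x (m, j)) o e1 e2 e3, ← mul_assoc] at h5
      have h6 := (mul_nonneg_iff_of_pos_left (mul_self_pos.2 hne)).1 h5
      change nq ((fun j => x (a, j)) - o) ≤ nq ((fun j => x (m, j)) - o)
      linarith

theorem GEO_sub (h1 : S_SPH) (h2 : S_CIR) (h3 : S_AFF) (h4 : S_EV) {n : ℕ}
    (x y : Fin n × Fin 3 → ℝ) (h : sv F x = sv F y) (S : Finset (Fin n)) (hS : IsDel x S) :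
    IsDel y S := by
  obtain ⟨a, b, c, d, hab, hac, had, hbc, hbd, hcd, rfl⟩ := Finset.card_eq_four.1 hS.1
  rw [GEO_char h1 h2 h3 _ _ _ _ _ hab hac had hbc hbd hcd] at hS ⊢
  have s1 := congrFun h (Sum.inl (a, b, c, d))
  simp only [sv, F] at s1
  rw [(h4 n x).1, (h4 n y).1] at s1
  refine ⟨?_, fun m => ?_⟩
  · intro h0
    apply hS.1
    rw [h0, sign_zero, sign_eq_zero_iff] at s1
    exact s1
  · have s2 := congrFun h (Sum.inr (a, b, c, d, m))
    simp only [sv, F] at s2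
    rw [(h4 n x).2, (h4 n y).2] at s2
    rw [← sign_nonneg_iff, sign_mul, ← s1, ← s2, ← sign_mul, sign_nonneg_iff]
    exact hS.2 m

theorem p_GEO (h1 : S_SPH) (h2 : S_CIR) (h3 : S_AFF) (h4 : S_EV) : S_GEO := by
  intro n x y h
  ext S
  exact ⟨fun hS => GEO_sub h1 h2 h3 h4 x y h S hS, fun hS => GEO_sub h1 h2 h3 h4 y x h.symm S hS⟩

end Pool.DTree
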