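import Pool.Agent.Work.MP_e350e5_lc.Interface2
import Pool.Agent.Work.MP_e350e5_lc.B_GEO

/-!
# Block TDEL
-/

set_option autoImplicit false

open Finset MvPolynomial Filter Topology

namespace Pool.DTree

theorem TDEL_isp_a (a b c d : Fin 3 → ℝ) : isp a b c d a = 0 := by
  simp only [isp, D3, nq, Pi.sub_apply]
  ring

theorem TDEL_isp_b (a b c d : Fin 3 → ℝ) : isp a b c d b = 0 := by
  simp only [isp, D3, nq, Pi.sub_apply]
  ring

theorem TDEL_isp_c (a b c d : Fin 3 → ℝ) : isp a b c d c = 0 := by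
  simp only [isp, D3, nq, Pi.sub_apply]
  ring

theorem TDEL_isp_d (a b c d : Fin 3 → ℝ) : isp a b c d d = 0 := by
  simp only [isp, D3, nq, Pi.sub_apply]
  ring

theorem TDEL_lim (A B C D E F : ℝ) (m a b c d : ℕ) :
    Tendsto (fun ε : ℝ => F + (ε ^ (m + 1) * A - ε ^ (d + 1) * B + ε ^ (c + 1) * C
      - ε ^ (b + 1) * D + ε ^ (a + 1) * E)) (𝓝[>] (0 : ℝ)) (𝓝 F) := by
  have hc : Continuous (fun ε : ℝ => F + (ε ^ (m + 1) * A - ε ^ (d + 1) * B + ε ^ (c + 1) * C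
      - ε ^ (b + 1) * D + ε ^ (a + 1) * E)) := by
    fun_prop
  have h1 := (hc.tendsto 0).mono_left (nhdsWithin_le_nhds (s := Set.Ioi (0 : ℝ)))
  have h2 : F + ((0 : ℝ) ^ (m + 1) * A - (0 : ℝ) ^ (d + 1) * B + (0 : ℝ) ^ (c + 1) * C
      - (0 : ℝ) ^ (b + 1) * D + (0 : ℝ) ^ (a + 1) * E) = F := by
    simp
  simpa only [h2] using h1

theorem p_TDEL (h1 : S_SPH) (h2 : S_CIR) (h3 : S_AFF) (h4 : S_TID) (h5 : S_TPOL) : S_TDEL := by
  classical
  intro n x S hS
  have hS' : ∀ᶠ ε in 𝓝[>] (0 : ℝ), Low x (om x ε) S := by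
    unfold TT at hS
    exact (Finset.mem_filter.1 hS).2
  obtain ⟨ε0, hε0⟩ := hS'.exists
  obtain ⟨a, b, c, d, hab, hac, had, hbc, hbd, hcd, rfl⟩ := Finset.card_eq_four.1 hε0.1
  have hne := ((h4 n x (om x ε0) a b c d hab hac had hbc hbd hcd).1 hε0).1
  refine (GEO_char h1 h2 h3 x a b c d hab hac had hbc hbd hcd).2 ⟨hne, fun m => ?_⟩
  change 0 ≤ ori (co x a) (co x b) (co x c) (co x d) *
    isp (co x a) (co x b) (co x c) (co x d) (co x m)
  by_cases hma : m = a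
  · subst hma
    rw [TDEL_isp_a, mul_zero]
  by_cases hmb : m = b
  · subst hmb
    rw [TDEL_isp_b, mul_zero]
  by_cases hmc : m = c
  · subst hmc
    rw [TDEL_isp_c, mul_zero]
  by_cases hmd : m = d
  · subst hmd
    rw [TDEL_isp_d, mul_zero]
  have hlim := (TDEL_lim (ori (co x a) (co x b) (co x c) (co x d))
    (ori (co x a) (co x b) (co x c) (co x m)) (ori (co x a) (co x b) (co x d) (co x m))
    (ori (co x a) (co x c) (co x d) (co x m)) (ori (co x b) (co x c) (co x d) (co x m))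
    (isp (co x a) (co x b) (co x c) (co x d) (co x m)) (m : ℕ) (a : ℕ) (b : ℕ) (c : ℕ)
    (d : ℕ)).const_mul (ori (co x a) (co x b) (co x c) (co x d))
  refine ge_of_tendsto hlim ?_
  filter_upwards [hS'] with ε hε
  have h6 := ((h4 n x (om x ε) a b c d hab hac had hbc hbd hcd).1 hε).2 m hma hmb hmc hmd
  rw [h5] at h6
  exact h6.le

end Pool.DTree
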