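import Pool.Agent.Work.MP_e350e5_lc.Interface2

/-! # Block TFIN (helper45) -/

set_option autoImplicit false

open Finset MvPolynomial Filter Topology

namespace Pool.DTree

theorem p_TFIN (h1 : S_TCOV) (h2 : S_TINT) (h3 : S_TSTB) (h4 : S_TGEN) (h5 : S_TDEL)
    (h6 : S_TVER) : S_TFIN := by
  intro n x hinj hspan
  obtain ⟨ε, hε, hgen⟩ := ((h3 n x).and (h4 n x)).exists
  have hcov : ∀ q ∈ convexHull ℝ (Set.range (pt x)),
      ∃ S ∈ TT x, q ∈ convexHull ℝ (pt x '' (S : Set (Fin n))) := by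
    intro q hq
    obtain ⟨S, hS, hqS⟩ := h1 n x (om x ε) hspan hgen q hq
    exact ⟨S, (hε S).1 hS, hqS⟩
  refine ⟨fun S hS => h5 n x S hS, ?_, ?_, ?_⟩
  · apply Set.Subset.antisymm
    · refine Set.iUnion₂_subset fun S _ => ?_
      exact convexHull_mono (Set.image_subset_range _ _)
    · intro q hq
      obtain ⟨S, hS, hqS⟩ := hcov q hq
      exact Set.mem_iUnion₂.2 ⟨S, hS, hqS⟩
  · intro S hS S' hS'
    exact h2 n x (om x ε) S S' ((hε S).2 hS) ((hε S').2 hS')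
  · intro i
    obtain ⟨S, hS, hq⟩ := hcov (pt x i) (subset_convexHull ℝ _ ⟨i, rfl⟩)
    exact ⟨S, hS, h6 n x S i hinj (h5 n x S hS) hq⟩

end Pool.DTree
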