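import Pool.Agent.Work.MP_e350e5_lc.Interface2

/-!
# Block TGEN (second copy)
-/

set_option autoImplicit false

open Finset MvPolynomial Filter Topology

namespace Pool.DTree

namespace TGENX

theorem isw_affine {n : ℕ} (x : Fin n × Fin 3 → ℝ) (v : Fin 3 → ℝ) (c₀ : ℝ) (a b c d m : Fin n)
    (ω : Fin n → ℝ) (ha : ip v (co x a) + c₀ = ω a) (hb : ip v (co x b) + c₀ = ω b)
    (hc : ip v (co x c) + c₀ = ω c) (hd : ip v (co x d) + c₀ = ω d)
    (hm : ip v (co x m) + c₀ = ω m) : isw x ω a b c d m = 0 := by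
  unfold isw
  rw [← ha, ← hb, ← hc, ← hd, ← hm]
  simp only [ip, ori, D3, Pi.sub_apply]
  ring

theorem pol {n : ℕ} (x : Fin n × Fin 3 → ℝ) (h1 : S_TPOL) (h2 : S_TSGN) (a b c d m : Fin n)
    (hma : m ≠ a) (hmb : m ≠ b) (hmc : m ≠ c) (hmd : m ≠ d)
    (ho : ori (co x a) (co x b) (co x c) (co x d) ≠ 0) :
    ∀ᶠ ε in 𝓝[>] (0 : ℝ), isw x (om x ε) a b c d m ≠ 0 := by
  set p : Polynomial ℝ := Polynomial.C (isp (co x a) (co x b) (co x c) (co x d) (co x m))
    + (Polynomial.X ^ ((m : ℕ) + 1) * Polynomial.C (ori (co x a) (co x b) (co x c) (co x d))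
    - Polynomial.X ^ ((d : ℕ) + 1) * Polynomial.C (ori (co x a) (co x b) (co x c) (co x m))
    + Polynomial.X ^ ((c : ℕ) + 1) * Polynomial.C (ori (co x a) (co x b) (co x d) (co x m))
    - Polynomial.X ^ ((b : ℕ) + 1) * Polynomial.C (ori (co x a) (co x c) (co x d) (co x m))
    + Polynomial.X ^ ((a : ℕ) + 1) * Polynomial.C (ori (co x b) (co x c) (co x d) (co x m))) with hp
  have hva : (m : ℕ) ≠ a := fun h => hma (Fin.ext h)
  have hvb : (m : ℕ) ≠ b := fun h => hmb (Fin.ext h)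
  have hvc : (m : ℕ) ≠ c := fun h => hmc (Fin.ext h)
  have hvd : (m : ℕ) ≠ d := fun h => hmd (Fin.ext h)
  have hcoef : p.coeff ((m : ℕ) + 1) = ori (co x a) (co x b) (co x c) (co x d) := by
    rw [hp]
    simp only [Polynomial.coeff_add, Polynomial.coeff_sub, Polynomial.coeff_C,
      Polynomial.coeff_X_pow_mul', Polynomial.coeff_mul_C, Polynomial.coeff_X_pow]
    have e0 : ¬ ((m : ℕ) + 1 = 0) := by omega
    have ea : ¬ ((m : ℕ) + 1 = (a : ℕ) + 1) := by omega
    have eb : ¬ ((m : ℕ) + 1 = (b : ℕ) + 1) := by omega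
    have ec : ¬ ((m : ℕ) + 1 = (c : ℕ) + 1) := by omega
    have ed : ¬ ((m : ℕ) + 1 = (d : ℕ) + 1) := by omega
    simp [hva, hvb, hvc, hvd]
    try omega
  have hpne : p ≠ 0 := by
    intro h
    rw [h, Polynomial.coeff_zero] at hcoef
    exact ho hcoef.symm
  refine (h2.2.1 p hpne).mono fun ε hε => ?_
  rw [h1 n x ε a b c d m]
  intro h0
  apply hε
  rw [hp]
  simp only [Polynomial.eval_add, Polynomial.eval_sub, Polynomial.eval_mul, Polynomial.eval_pow,
    Polynomial.eval_X, Polynomial.eval_C]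
  exact h0

end TGENX

theorem p_TGENx (h1 : S_TPOL) (h2 : S_TSGN) (h3 : S_AFF) : S_TGEN := by
  intro n x
  have hev : ∀ᶠ ε in 𝓝[>] (0 : ℝ), ∀ a b c d m : Fin n, m ≠ a → m ≠ b → m ≠ c → m ≠ d →
      ori (co x a) (co x b) (co x c) (co x d) ≠ 0 → isw x (om x ε) a b c d m ≠ 0 := by
    simp only [Filter.eventually_all]
    intro a b c d m hma hmb hmc hmd ho
    exact TGENX.pol x h1 h2 a b c d m hma hmb hmc hmd ho
  refine hev.mono fun ε hε v c₀ U hU hspan => ?_
  by_contra hcard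
  push Not at hcard
  obtain ⟨t, htU, htspan, htind⟩ := exists_affineIndependent ℝ (EuclideanSpace ℝ (Fin 3))
    (pt x '' (U : Set (Fin n)))
  have htfin : t.Finite := (U.finite_toSet.image _).subset htU
  haveI : Fintype t := htfin.fintype
  have htcard : Fintype.card t = 4 := by
    have h4 := (htind.affineSpan_eq_top_iff_card_eq_finrank_add_one).1
      (by rw [Subtype.range_coe, htspan, hspan])
    rw [h4, finrank_euclideanSpace, Fintype.card_fin]
  set e : Fin 4 ≃ t := (Fintype.equivFinOfCardEq htcard).symm with he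
  have hidx : ∀ k : Fin 4, ∃ i ∈ U, pt x i = (e k : EuclideanSpace ℝ (Fin 3)) := by
    intro k
    obtain ⟨i, hi, h⟩ := htU (e k).2
    exact ⟨i, hi, h⟩
  choose idx hidxU hidxe using hidx
  have hinj : Function.Injective idx := by
    intro k l h
    apply e.injective
    apply Subtype.ext
    rw [← hidxe, ← hidxe, h]
  have hne : ∀ k l : Fin 4, k ≠ l → idx k ≠ idx l := fun k l h h' => h (hinj h')
  have hmem : ∀ i ∈ ({idx 0, idx 1, idx 2, idx 3} : Finset (Fin n)), ∃ k, i = idx k := by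
    intro i hi
    simp only [Finset.mem_insert, Finset.mem_singleton] at hi
    rcases hi with h | h | h | h
    · exact ⟨0, h⟩
    · exact ⟨1, h⟩
    · exact ⟨2, h⟩
    · exact ⟨3, h⟩
  have hpt : ∀ i : ({idx 0, idx 1, idx 2, idx 3} : Finset (Fin n)), pt x i ∈ t := by
    intro i
    obtain ⟨k, hk⟩ := hmem i i.2
    rw [hk, hidxe]
    exact (e k).2
  have hind : AffineIndependent ℝ
      (fun i : ({idx 0, idx 1, idx 2, idx 3} : Finset (Fin n)) => pt x i) := by
    have hφ : Function.Injective fun i : ({idx 0, idx 1, idx 2, idx 3} : Finset (Fin n)) =>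
        (⟨pt x i, hpt i⟩ : t) := by
      intro i j hij
      have hij' : pt x i = pt x j := congrArg Subtype.val hij
      obtain ⟨k, hk⟩ := hmem i i.2
      obtain ⟨l, hl⟩ := hmem j j.2
      apply Subtype.ext
      rw [hk, hl] at hij' ⊢
      rw [hidxe, hidxe] at hij'
      rw [e.injective (Subtype.ext hij')]
    exact htind.comp_embedding ⟨_, hφ⟩
  have hori := (h3 n x (idx 0) (idx 1) (idx 2) (idx 3) (hne 0 1 (by decide)) (hne 0 2 (by decide))
    (hne 0 3 (by decide)) (hne 1 2 (by decide)) (hne 1 3 (by decide)) (hne 2 3 (by decide))).1 hind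
  obtain ⟨m, hmU, hm⟩ : ∃ m ∈ U, m ∉ (univ.image idx : Finset (Fin n)) := by
    by_contra hno
    push Not at hno
    have h5 : U.card ≤ (univ.image idx : Finset (Fin n)).card := card_le_card fun i hi => hno i hi
    have h6 : (univ.image idx : Finset (Fin n)).card ≤ 4 := by
      refine card_image_le.trans ?_
      simp
    omega
  have hm' : ∀ k, m ≠ idx k := fun k h => hm (mem_image.2 ⟨k, mem_univ k, h.symm⟩)
  exact hε (idx 0) (idx 1) (idx 2) (idx 3) m (hm' 0) (hm' 1) (hm' 2) (hm' 3) hori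
    (TGENX.isw_affine x v c₀ _ _ _ _ _ _ (hU _ (hidxU 0)) (hU _ (hidxU 1)) (hU _ (hidxU 2))
      (hU _ (hidxU 3)) (hU _ hmU))

end Pool.DTree
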