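import Pool.Agent.Work.MP_e350e5_lc.Interface2

/-!
# TGR1: enlarging the tight set (helper64)
-/

set_option autoImplicit false

open Finset MvPolynomial Filter Topology

namespace Pool.DTree

namespace TGR1

theorem ip_eq (w : EuclideanSpace ℝ (Fin 3)) {n : ℕ} (x : Fin n × Fin 3 → ℝ) (i : Fin n) :
    ip (fun j => w j) (co x i) = inner ℝ w (pt x i) := by
  simp only [ip, co, pt, PiLp.inner_apply, Fin.sum_univ_three, RCLike.inner_apply, conj_trivial]
  ring

theorem exists_g (n : ℕ) (x : Fin n × Fin 3 → ℝ) (A : Set (Fin n))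
    (h1 : affineSpan ℝ (Set.range (pt x)) = ⊤) (h2 : affineSpan ℝ (pt x '' A) ≠ ⊤) :
    ∃ (u : Fin 3 → ℝ) (e : ℝ) (i : Fin n), (∀ j ∈ A, ip u (co x j) + e = 0) ∧
      0 < ip u (co x i) + e := by
  have hex : ∃ i, pt x i ∉ affineSpan ℝ (pt x '' A) := by
    by_contra hcon
    push Not at hcon
    apply h2
    rw [eq_top_iff, ← h1]
    apply affineSpan_le.2
    rintro _ ⟨i, rfl⟩
    exact hcon i
  obtain ⟨i, hi⟩ := hex
  rcases Set.eq_empty_or_nonempty A with hA | ⟨j0, hj0⟩
  · subst hA
    refine ⟨0, 1, i, fun j hj => absurd hj (Set.notMem_empty _), ?_⟩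
    simp [ip]
  have hp0 : pt x j0 ∈ affineSpan ℝ (pt x '' A) := subset_affineSpan ℝ _ ⟨j0, hj0, rfl⟩
  have hex2 : ∃ w ∈ (affineSpan ℝ (pt x '' A)).directionᗮ, inner ℝ w (pt x i - pt x j0) ≠ (0 : ℝ) := by
    by_contra hcon
    push Not at hcon
    have h3 : pt x i - pt x j0 ∈ ((affineSpan ℝ (pt x '' A)).directionᗮ)ᗮ := by
      rw [Submodule.mem_orthogonal]
      exact hcon
    rw [Submodule.orthogonal_orthogonal] at h3
    apply hi
    have h4 := AffineSubspace.vadd_mem_of_mem_direction h3 hp0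
    simpa using h4
  obtain ⟨w, hw, hwi⟩ := hex2
  have hz : ∀ j ∈ A, inner ℝ w (pt x j - pt x j0) = (0 : ℝ) := by
    intro j hj
    have h5 : pt x j - pt x j0 ∈ (affineSpan ℝ (pt x '' A)).direction :=
      AffineSubspace.vsub_mem_direction (subset_affineSpan ℝ _ ⟨j, hj, rfl⟩) hp0
    have h6 := (Submodule.mem_orthogonal _ w).1 hw _ h5
    rw [real_inner_comm]
    exact h6
  rcases lt_or_gt_of_ne hwi with hlt | hgt
  · refine ⟨fun j => (-w) j, inner ℝ w (pt x j0), i, ?_, ?_⟩
    · intro j hj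
      have := hz j hj
      rw [inner_sub_right] at this
      rw [ip_eq, inner_neg_left]
      linarith
    · rw [inner_sub_right] at hlt
      rw [ip_eq, inner_neg_left]
      linarith
  · refine ⟨fun j => w j, -inner ℝ w (pt x j0), i, ?_, ?_⟩
    · intro j hj
      have := hz j hj
      rw [inner_sub_right] at this
      rw [ip_eq]
      linarith
    · rw [inner_sub_right] at hgt
      rw [ip_eq]
      linarith

end TGR1

theorem p_TGR1 : S_TGR1 := by
  intro n x ω v c hspan hF hne
  classical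
  obtain ⟨u, e, i, hz, hi⟩ := TGR1.exists_g n x (tight x ω v c) hspan hne
  set P : Finset (Fin n) := univ.filter fun j => 0 < ip u (co x j) + e with hP
  have hPne : P.Nonempty := ⟨i, by rw [hP, mem_filter]; exact ⟨mem_univ _, hi⟩⟩
  obtain ⟨j0, hj0, hmin⟩ := P.exists_min_image
    (fun j => (ω j - (ip v (co x j) + c)) / (ip u (co x j) + e)) hPne
  have hg0 : 0 < ip u (co x j0) + e := (mem_filter.1 hj0).2
  set t : ℝ := (ω j0 - (ip v (co x j0) + c)) / (ip u (co x j0) + e) with ht
  have ht0 : 0 ≤ t := div_nonneg (by have := hF j0; linarith) hg0.le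
  have hip : ∀ j, ip (fun k => v k + t * u k) (co x j) + (c + t * e) =
      (ip v (co x j) + c) + t * (ip u (co x j) + e) := by
    intro j
    simp only [ip]
    ring
  refine ⟨fun k => v k + t * u k, c + t * e, ?_, ?_, ?_⟩
  · intro j
    rw [hip]
    rcases le_or_gt (ip u (co x j) + e) 0 with h | h
    · have := mul_nonpos_of_nonneg_of_nonpos ht0 h
      have := hF j
      linarith
    · have h1 := hmin j (by rw [hP, mem_filter]; exact ⟨mem_univ _, h⟩)
      rw [le_div_iff₀ h] at h1
      change t * (ip u (co x j) + e) ≤ ω j - (ip v (co x j) + c) at h1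
      linarith
  · intro j hj
    show ip (fun k => v k + t * u k) (co x j) + (c + t * e) = ω j
    rw [hip, hz j hj, mul_zero, add_zero]
    exact hj
  · intro hcon
    have h1 : j0 ∈ tight x ω (fun k => v k + t * u k) (c + t * e) := by
      show ip (fun k => v k + t * u k) (co x j0) + (c + t * e) = ω j0
      rw [hip, ht, div_mul_cancel₀ _ hg0.ne']
      ring
    have h2 := hz j0 (hcon h1)
    linarith

end Pool.DTree
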