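import Pool.Agent.Work.MP_e350e5_lc.Interface2

/-! Block TID (second copy). -/

set_option autoImplicit false

open Finset MvPolynomial Filter Topology

namespace Pool.DTree

theorem TIDx_cramer (a b c d : Fin 3 → ℝ) (α β γ δ : ℝ) (h : ori a b c d ≠ 0) :
    ∃ (v : Fin 3 → ℝ) (c0 : ℝ), ip v a + c0 = α ∧ ip v b + c0 = β ∧ ip v c + c0 = γ ∧ ip v d + c0 = δ := by
  obtain ⟨D, hD⟩ : ∃ D, D = ori a b c d := ⟨_, rfl⟩
  have hD0 : D ≠ 0 := hD ▸ h
  let v : Fin 3 → ℝ := ![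
    ((β - α) * ((c 1 - a 1) * (d 2 - a 2) - (c 2 - a 2) * (d 1 - a 1)) +
      (γ - α) * ((d 1 - a 1) * (b 2 - a 2) - (d 2 - a 2) * (b 1 - a 1)) +
      (δ - α) * ((b 1 - a 1) * (c 2 - a 2) - (b 2 - a 2) * (c 1 - a 1))) / D,
    ((β - α) * ((c 2 - a 2) * (d 0 - a 0) - (c 0 - a 0) * (d 2 - a 2)) +
      (γ - α) * ((d 2 - a 2) * (b 0 - a 0) - (d 0 - a 0) * (b 2 - a 2)) +
      (δ - α) * ((b 2 - a 2) * (c 0 - a 0) - (b 0 - a 0) * (c 2 - a 2))) / D,
    ((β - α) * ((c 0 - a 0) * (d 1 - a 1) - (c 1 - a 1) * (d 0 - a 0)) +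
      (γ - α) * ((d 0 - a 0) * (b 1 - a 1) - (d 1 - a 1) * (b 0 - a 0)) +
      (δ - α) * ((b 0 - a 0) * (c 1 - a 1) - (b 1 - a 1) * (c 0 - a 0))) / D]
  have hv0 : D * v 0 = ((β - α) * ((c 1 - a 1) * (d 2 - a 2) - (c 2 - a 2) * (d 1 - a 1)) +
      (γ - α) * ((d 1 - a 1) * (b 2 - a 2) - (d 2 - a 2) * (b 1 - a 1)) +
      (δ - α) * ((b 1 - a 1) * (c 2 - a 2) - (b 2 - a 2) * (c 1 - a 1))) :=
    mul_div_cancel₀ _ hD0
  have hv1 : D * v 1 = ((β - α) * ((c 2 - a 2) * (d 0 - a 0) - (c 0 - a 0) * (d 2 - a 2)) +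
      (γ - α) * ((d 2 - a 2) * (b 0 - a 0) - (d 0 - a 0) * (b 2 - a 2)) +
      (δ - α) * ((b 2 - a 2) * (c 0 - a 0) - (b 0 - a 0) * (c 2 - a 2))) :=
    mul_div_cancel₀ _ hD0
  have hv2 : D * v 2 = ((β - α) * ((c 0 - a 0) * (d 1 - a 1) - (c 1 - a 1) * (d 0 - a 0)) +
      (γ - α) * ((d 0 - a 0) * (b 1 - a 1) - (d 1 - a 1) * (b 0 - a 0)) +
      (δ - α) * ((b 0 - a 0) * (c 1 - a 1) - (b 1 - a 1) * (c 0 - a 0))) :=
    mul_div_cancel₀ _ hD0
  generalize v = v at hv0 hv1 hv2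
  have hD' : D = (b 0 - a 0) * ((c 1 - a 1) * (d 2 - a 2) - (c 2 - a 2) * (d 1 - a 1)) -
      (b 1 - a 1) * ((c 0 - a 0) * (d 2 - a 2) - (c 2 - a 2) * (d 0 - a 0)) +
      (b 2 - a 2) * ((c 0 - a 0) * (d 1 - a 1) - (c 1 - a 1) * (d 0 - a 0)) := by
    rw [hD]; rfl
  refine ⟨v, α - ip v a, by ring, ?_, ?_, ?_⟩
  · apply mul_left_cancel₀ hD0
    simp only [ip]
    linear_combination (b 0 - a 0) * hv0 + (b 1 - a 1) * hv1 + (b 2 - a 2) * hv2 - (β - α) * hD'
  · apply mul_left_cancel₀ hD0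
    simp only [ip]
    linear_combination (c 0 - a 0) * hv0 + (c 1 - a 1) * hv1 + (c 2 - a 2) * hv2 - (γ - α) * hD'
  · apply mul_left_cancel₀ hD0
    simp only [ip]
    linear_combination (d 0 - a 0) * hv0 + (d 1 - a 1) * hv1 + (d 2 - a 2) * hv2 - (δ - α) * hD'

theorem p_TID (h : S_AFF) : S_TID := by
  intro n x ω a b c d hab hac had hbc hbd hcd
  have hA := h n x a b c d hab hac had hbc hbd hcd
  change _ ↔ ori (co x a) (co x b) (co x c) (co x d) ≠ 0 at hA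
  have key : ∀ (v : Fin 3 → ℝ) (c0 : ℝ), ip v (co x a) + c0 = ω a → ip v (co x b) + c0 = ω b →
      ip v (co x c) + c0 = ω c → ip v (co x d) + c0 = ω d → ∀ m,
      isw x ω a b c d m = ori (co x a) (co x b) (co x c) (co x d) * (ω m - (ip v (co x m) + c0)) := by
    intro v c0 ha hb hc hd m
    unfold isw
    generalize ω m = t
    rw [← ha, ← hb, ← hc, ← hd]
    simp only [ori, D3, ip, Pi.sub_apply]
    ring
  constructor
  · rintro ⟨-, hind, v, c0, heq, hlt⟩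
    have hor := hA.1 hind
    refine ⟨hor, fun m h1 h2 h3 h4 => ?_⟩
    rw [key v c0 (heq a (by simp)) (heq b (by simp)) (heq c (by simp)) (heq d (by simp)) m]
    have h5 := hlt m (by simp [h1, h2, h3, h4])
    have h6 : 0 < ω m - (ip v (co x m) + c0) := by linarith
    have h7 := mul_self_pos.2 hor
    calc 0 < (ori (co x a) (co x b) (co x c) (co x d) * ori (co x a) (co x b) (co x c) (co x d)) *
          (ω m - (ip v (co x m) + c0)) := mul_pos h7 h6
      _ = _ := by ring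
  · rintro ⟨hor, hpos⟩
    obtain ⟨v, c0, ha, hb, hc, hd⟩ := TIDx_cramer (co x a) (co x b) (co x c) (co x d) (ω a) (ω b)
      (ω c) (ω d) hor
    refine ⟨?_, hA.2 hor, v, c0, ?_, ?_⟩
    · rw [Finset.card_insert_of_notMem, Finset.card_insert_of_notMem, Finset.card_pair hcd]
      · simp [hbc, hbd]
      · simp [hab, hac, had]
    · intro i hi
      simp only [Finset.mem_insert, Finset.mem_singleton] at hi
      rcases hi with rfl | rfl | rfl | rfl
      · exact ha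
      · exact hb
      · exact hc
      · exact hd
    · intro m hm
      simp only [Finset.mem_insert, Finset.mem_singleton, not_or] at hm
      have h1 := hpos m hm.1 hm.2.1 hm.2.2.1 hm.2.2.2
      rw [key v c0 ha hb hc hd m] at h1
      have h7 := mul_self_pos.2 hor
      have h8 : 0 < (ori (co x a) (co x b) (co x c) (co x d) * ori (co x a) (co x b) (co x c) (co x d)) *
          (ω m - (ip v (co x m) + c0)) := by
        calc 0 < _ := h1
          _ = _ := by ring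
      have h9 := (mul_pos_iff_of_pos_left h7).1 h8
      linarith

end Pool.DTree
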