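import Pool.Agent.Work.MP_e350e5_lc.Interface2

/-! # TINT: simplices of the lower hull meet face to face -/

set_option autoImplicit false

open Finset MvPolynomial Filter Topology

namespace Pool.DTree

namespace TINT

theorem hull_rep {n : ℕ} {f : Fin n → EuclideanSpace ℝ (Fin 3)} {S : Finset (Fin n)}
    {q : EuclideanSpace ℝ (Fin 3)} (hq : q ∈ convexHull ℝ (f '' (S : Set (Fin n)))) :
    ∃ w : Fin n → ℝ, (∀ i ∈ S, 0 ≤ w i) ∧ ∑ i ∈ S, w i = 1 ∧ ∑ i ∈ S, w i • f i = q := by
  classical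
  have h : convexHull ℝ (f '' (S : Set (Fin n))) ⊆
      {q | ∃ w : Fin n → ℝ, (∀ i ∈ S, 0 ≤ w i) ∧ ∑ i ∈ S, w i = 1 ∧ ∑ i ∈ S, w i • f i = q} := by
    refine convexHull_min ?_ ?_
    · rintro _ ⟨i, hi, rfl⟩
      refine ⟨fun j => if j = i then 1 else 0, ?_, ?_, ?_⟩
      · intro j _
        show (0 : ℝ) ≤ if j = i then 1 else 0
        split_ifs <;> norm_num
      · rw [Finset.sum_ite_eq' S i]
        exact if_pos hi
      · simp only [ite_smul, one_smul, zero_smul]
        rw [Finset.sum_ite_eq' S i]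
        exact if_pos hi
    · rintro p ⟨w, hw0, hw1, hwp⟩ p' ⟨w', hw0', hw1', hwp'⟩ a b ha hb hab
      refine ⟨fun i => a * w i + b * w' i, ?_, ?_, ?_⟩
      · intro i hi
        have := mul_nonneg ha (hw0 i hi)
        have := mul_nonneg hb (hw0' i hi)
        show 0 ≤ a * w i + b * w' i
        linarith
      · rw [Finset.sum_add_distrib, ← Finset.mul_sum, ← Finset.mul_sum, hw1, hw1', mul_one,
          mul_one, hab]
      · simp only [add_smul, mul_smul]
        rw [Finset.sum_add_distrib, ← Finset.smul_sum, ← Finset.smul_sum, hwp, hwp']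
  exact h hq

theorem eval_rep {n : ℕ} {x : Fin n × Fin 3 → ℝ} {S : Finset (Fin n)} {w : Fin n → ℝ}
    {q : EuclideanSpace ℝ (Fin 3)} (h1 : ∑ i ∈ S, w i = 1) (h2 : ∑ i ∈ S, w i • pt x i = q)
    (v : Fin 3 → ℝ) (c : ℝ) :
    ∑ i ∈ S, w i * (ip v (co x i) + c) = ip v (fun j => q j) + c := by
  have hj : ∀ j : Fin 3, q j = ∑ i ∈ S, w i * x (i, j) := by
    intro j
    rw [← h2, WithLp.ofLp_sum, Finset.sum_apply]
    rfl
  unfold ip
  beta_reduce
  rw [hj 0, hj 1, hj 2, Finset.mul_sum, Finset.mul_sum, Finset.mul_sum, ← Finset.sum_add_distrib,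
    ← Finset.sum_add_distrib]
  have hc : c = ∑ i ∈ S, w i * c := by rw [← Finset.sum_mul, h1, one_mul]
  conv_rhs => rw [hc]
  rw [← Finset.sum_add_distrib]
  refine Finset.sum_congr rfl fun i _ => ?_
  unfold co
  ring

end TINT

theorem p_TINT : S_TINT := by
  classical
  intro n x ω S S' hS hS'
  obtain ⟨-, -, v, c, hv, hv2⟩ := hS
  obtain ⟨-, -, v', c', hv', hv2'⟩ := hS'
  have hle : ∀ m, ip v (co x m) + c ≤ ω m := by
    intro m
    by_cases h : m ∈ S
    · exact (hv m h).le
    · exact (hv2 m h).le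
  have hle' : ∀ m, ip v' (co x m) + c' ≤ ω m := by
    intro m
    by_cases h : m ∈ S'
    · exact (hv' m h).le
    · exact (hv2' m h).le
  apply Set.Subset.antisymm
  · rintro q ⟨hq, hq'⟩
    obtain ⟨w, hw0, hw1, hwq⟩ := TINT.hull_rep hq
    obtain ⟨w', hw0', hw1', hwq'⟩ := TINT.hull_rep hq'
    have e1 := TINT.eval_rep hw1 hwq v c
    have e2 := TINT.eval_rep hw1 hwq v' c'
    have e3 := TINT.eval_rep hw1' hwq' v c
    have e4 := TINT.eval_rep hw1' hwq' v' c'
    have k1 : ∑ i ∈ S, w i * (ip v' (co x i) + c') ≤ ∑ i ∈ S, w i * (ip v (co x i) + c) := by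
      refine Finset.sum_le_sum fun i hi => mul_le_mul_of_nonneg_left ?_ (hw0 i hi)
      rw [hv i hi]
      exact hle' i
    have k2 : ∑ i ∈ S', w' i * (ip v' (co x i) + c' - (ip v (co x i) + c)) = 0 := by
      have k3 : 0 ≤ ∑ i ∈ S', w' i * (ip v' (co x i) + c' - (ip v (co x i) + c)) := by
        refine Finset.sum_nonneg fun i hi => mul_nonneg (hw0' i hi) ?_
        rw [hv' i hi]
        linarith [hle i]
      have k4 : ∑ i ∈ S', w' i * (ip v' (co x i) + c' - (ip v (co x i) + c)) =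
          ∑ i ∈ S', w' i * (ip v' (co x i) + c') - ∑ i ∈ S', w' i * (ip v (co x i) + c) := by
        rw [← Finset.sum_sub_distrib]
        refine Finset.sum_congr rfl fun i _ => ?_
        ring
      rw [k4] at k3 ⊢
      rw [e1, e2] at k1
      rw [e3, e4] at k3 ⊢
      linarith
    have k5 : ∀ i ∈ S', i ∉ S → w' i = 0 := by
      intro i hi hiS
      have k6 := (Finset.sum_eq_zero_iff_of_nonneg (fun j hj => mul_nonneg (hw0' j hj) (by
        rw [hv' j hj]
        linarith [hle j]))).1 k2 i hi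
      rcases mul_eq_zero.1 k6 with h | h
      · exact h
      · exfalso
        rw [hv' i hi] at h
        linarith [hv2 i hiS]
    have hsub : S ∩ S' ⊆ S' := Finset.inter_subset_right
    have hz : ∀ i ∈ S', i ∉ S ∩ S' → w' i = 0 := by
      intro i hi hni
      refine k5 i hi fun h => hni (Finset.mem_inter.2 ⟨h, hi⟩)
    have s1 : ∑ i ∈ S ∩ S', w' i = 1 := by
      rw [Finset.sum_subset hsub hz]
      exact hw1'
    have s2 : ∑ i ∈ S ∩ S', w' i • pt x i = q := by
      rw [Finset.sum_subset hsub (fun i hi hni => by rw [hz i hi hni, zero_smul])]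
      exact hwq'
    rw [← s2]
    refine (convex_convexHull ℝ _).sum_mem (fun i hi => hw0' i (hsub hi)) s1 fun i hi => ?_
    exact subset_convexHull ℝ _ ⟨i, hi, rfl⟩
  · refine Set.subset_inter (convexHull_mono (Set.image_mono ?_))
      (convexHull_mono (Set.image_mono ?_))
    · exact_mod_cast Finset.inter_subset_left
    · exact_mod_cast Finset.inter_subset_right

end Pool.DTree
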