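import Pool.Agent.Work.MP_e350e5_lc.Interface2

/-!
# Block TINV: the lower hull for small heights depends on the signs only
-/

set_option autoImplicit false

open Finset MvPolynomial Filter Topology

namespace Pool.DTree

namespace TINV

theorem inj6 (a b c d m : ℕ) (hab : a ≠ b) (hac : a ≠ c) (had : a ≠ d) (hbc : b ≠ c) (hbd : b ≠ d) (hcd : c ≠ d)
    (ha : m ≠ a) (hb : m ≠ b) (hc : m ≠ c) (hd : m ≠ d) :
    Function.Injective (![0, m + 1, d + 1, c + 1, b + 1, a + 1] : Fin 6 → ℕ) := by
  intro i j hij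
  fin_cases i <;> fin_cases j <;>
    first
      | rfl
      | (exfalso; simp at hij; done)
      | (exfalso; simp at hij; omega)

/-- the polynomial with the coefficients `u` at the exponents `e` -/
noncomputable def pol (e : Fin 6 → ℕ) (u : Fin 6 → ℝ) : Polynomial ℝ := ∑ k, Polynomial.monomial (e k) (u k)

theorem eval_pol (e : Fin 6 → ℕ) (u : Fin 6 → ℝ) (t : ℝ) : (pol e u).eval t = ∑ k, u k * t ^ e k := by
  unfold pol
  rw [Polynomial.eval_finset_sum]
  exact Finset.sum_congr rfl fun k _ => Polynomial.eval_monomial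

theorem coeff_pol (e : Fin 6 → ℕ) (he : Function.Injective e) (u v : Fin 6 → ℝ)
    (h : ∀ k, SignType.sign (u k) = SignType.sign (v k)) (i : ℕ) :
    SignType.sign ((pol e u).coeff i) = SignType.sign ((pol e v).coeff i) := by
  have hc : ∀ w : Fin 6 → ℝ, (pol e w).coeff i = ∑ k, if e k = i then w k else 0 := by
    intro w
    unfold pol
    rw [Polynomial.finset_sum_coeff]
    exact Finset.sum_congr rfl fun k _ => Polynomial.coeff_monomial
  rw [hc, hc]
  by_cases hk : ∃ k, e k = i
  · obtain ⟨k, hk⟩ := hk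
    have h1 : ∀ w : Fin 6 → ℝ, (∑ k, if e k = i then w k else 0) = w k := by
      intro w
      rw [Finset.sum_eq_single k]
      · rw [if_pos hk]
      · intro j _ hj
        rw [if_neg]
        intro h2
        exact hj (he (h2.trans hk.symm))
      · intro h2
        exact absurd (Finset.mem_univ k) h2
    rw [h1, h1, h k]
  · have h1 : ∀ w : Fin 6 → ℝ, (∑ k, if e k = i then w k else 0) = 0 := by
      intro w
      apply Finset.sum_eq_zero
      intro j _
      rw [if_neg]
      intro h2
      exact hk ⟨j, h2⟩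
    rw [h1, h1]

/-- the coefficients -/
noncomputable def cf {n : ℕ} (x : Fin n × Fin 3 → ℝ) (a b c d m : Fin n) : Fin 6 → ℝ :=
  ![ori (co x a) (co x b) (co x c) (co x d) * isp (co x a) (co x b) (co x c) (co x d) (co x m),
    ori (co x a) (co x b) (co x c) (co x d) * ori (co x a) (co x b) (co x c) (co x d),
    -(ori (co x a) (co x b) (co x c) (co x d) * ori (co x a) (co x b) (co x c) (co x m)),
    ori (co x a) (co x b) (co x c) (co x d) * ori (co x a) (co x b) (co x d) (co x m),
    -(ori (co x a) (co x b) (co x c) (co x d) * ori (co x a) (co x c) (co x d) (co x m)),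
    ori (co x a) (co x b) (co x c) (co x d) * ori (co x b) (co x c) (co x d) (co x m)]

theorem main (h1 : S_TID) (h2 : S_TPOL) (h3 : S_TSGN) (h4 : S_EV) {n : ℕ} (x y : Fin n × Fin 3 → ℝ)
    (h : sv F x = sv F y) (S : Finset (Fin n)) (hS : ∀ᶠ ε in 𝓝[>] (0 : ℝ), Low x (om x ε) S) :
    ∀ᶠ ε in 𝓝[>] (0 : ℝ), Low y (om y ε) S := by
  have hO : ∀ a b c d : Fin n, SignType.sign (ori (co x a) (co x b) (co x c) (co x d)) =
      SignType.sign (ori (co y a) (co y b) (co y c) (co y d)) := by
    intro a b c d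
    have h5 := congrFun h (.inl (a, b, c, d))
    unfold sv F at h5
    simp only [(h4 n x).1, (h4 n y).1] at h5
    exact h5
  have hI : ∀ a b c d m : Fin n,
      SignType.sign (isp (co x a) (co x b) (co x c) (co x d) (co x m)) =
      SignType.sign (isp (co y a) (co y b) (co y c) (co y d) (co y m)) := by
    intro a b c d m
    have h5 := congrFun h (.inr (a, b, c, d, m))
    unfold sv F at h5
    simp only [(h4 n x).2, (h4 n y).2] at h5
    exact h5
  obtain ⟨ε0, hε0⟩ := hS.exists
  obtain ⟨a, b, c, d, hab, hac, had, hbc, hbd, hcd, rfl⟩ := Finset.card_eq_four.1 hε0.1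
  have hx0 := ((h1 n x (om x ε0) a b c d hab hac had hbc hbd hcd).1 hε0).1
  have hy0 : ori (co y a) (co y b) (co y c) (co y d) ≠ 0 := by
    intro h6
    have h7 := hO a b c d
    rw [h6, sign_zero, sign_eq_zero_iff] at h7
    exact hx0 h7
  have hev : ∀ (z : Fin n × Fin 3 → ℝ) (m : Fin n) (ε : ℝ),
      ori (co z a) (co z b) (co z c) (co z d) * isw z (om z ε) a b c d m =
      (pol ![0, (m : ℕ) + 1, (d : ℕ) + 1, (c : ℕ) + 1, (b : ℕ) + 1, (a : ℕ) + 1] (cf z a b c d m)).eval ε := by
    intro z m ε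
    rw [eval_pol, h2 n z ε a b c d m, Fin.sum_univ_six]
    simp only [cf, Matrix.cons_val]
    ring
  have hall : ∀ m : Fin n, ∀ᶠ ε in 𝓝[>] (0 : ℝ), m ≠ a → m ≠ b → m ≠ c → m ≠ d →
      0 < ori (co y a) (co y b) (co y c) (co y d) * isw y (om y ε) a b c d m := by
    intro m
    by_cases hm : m ≠ a ∧ m ≠ b ∧ m ≠ c ∧ m ≠ d
    · obtain ⟨ha, hb, hc, hd⟩ := hm
      have h5 : ∀ᶠ ε in 𝓝[>] (0 : ℝ),
          0 < (pol ![0, (m : ℕ) + 1, (d : ℕ) + 1, (c : ℕ) + 1, (b : ℕ) + 1, (a : ℕ) + 1]
            (cf x a b c d m)).eval ε := by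
        filter_upwards [hS] with ε hε
        rw [← hev x m ε]
        exact ((h1 n x (om x ε) a b c d hab hac had hbc hbd hcd).1 hε).2 m ha hb hc hd
      have hv : ∀ {i j : Fin n}, i ≠ j → (i : ℕ) ≠ j := fun h h' => h (Fin.ext h')
      have hinj := inj6 (a : ℕ) b c d m (hv hab) (hv hac) (hv had) (hv hbc) (hv hbd) (hv hcd) (hv ha) (hv hb)
        (hv hc) (hv hd)
      have hsg : ∀ k, SignType.sign (cf x a b c d m k) = SignType.sign (cf y a b c d m k) := by
        intro k
        fin_cases k
        · show SignType.sign (_ * _) = SignType.sign (_ * _)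
          rw [sign_mul, sign_mul, hO, hI]
        · show SignType.sign (_ * _) = SignType.sign (_ * _)
          rw [sign_mul, sign_mul, hO]
        · show SignType.sign (-(_ * _)) = SignType.sign (-(_ * _))
          rw [Left.sign_neg, Left.sign_neg, sign_mul, sign_mul, hO, hO a b c m]
        · show SignType.sign (_ * _) = SignType.sign (_ * _)
          rw [sign_mul, sign_mul, hO, hO a b d m]
        · show SignType.sign (-(_ * _)) = SignType.sign (-(_ * _))
          rw [Left.sign_neg, Left.sign_neg, sign_mul, sign_mul, hO, hO a c d m]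
        · show SignType.sign (_ * _) = SignType.sign (_ * _)
          rw [sign_mul, sign_mul, hO, hO b c d m]
      have h6 := h3.2.2 _ _ (coeff_pol _ hinj _ _ hsg) h5
      filter_upwards [h6] with ε hε _ _ _ _
      rw [hev y m ε]
      exact hε
    · filter_upwards with ε ha hb hc hd
      exact absurd ⟨ha, hb, hc, hd⟩ hm
  rw [← Filter.eventually_all] at hall
  filter_upwards [hall] with ε hε
  exact (h1 n y (om y ε) a b c d hab hac had hbc hbd hcd).2 ⟨hy0, hε⟩

end TINV

theorem p_TINV (h1 : S_TID) (h2 : S_TPOL) (h3 : S_TSGN) (h4 : S_EV) : S_TINV := by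
  classical
  intro n x y h
  ext S
  unfold TT
  rw [Finset.mem_filter, Finset.mem_filter]
  exact ⟨fun h5 => ⟨h5.1, TINV.main h1 h2 h3 h4 x y h S h5.2⟩,
    fun h5 => ⟨h5.1, TINV.main h1 h2 h3 h4 y x h.symm S h5.2⟩⟩

end Pool.DTree
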