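import Pool.Agent.Work.MP_e350e5_lc.Interface2

/-!
Block TL1 (helper31): the Delaunay triangulations of the two-line configuration.
-/

set_option autoImplicit false

namespace Pool.DTree

namespace TL1

lemma conv_half (α β γ δ : ℝ) :
    Convex ℝ {v : EuclideanSpace ℝ (Fin 3) | α * v 0 + β * v 1 + γ * v 2 ≤ δ} := by
  intro u hu v hv a b ha hb hab
  simp only [Set.mem_ofPred_eq, PiLp.add_apply, PiLp.smul_apply, smul_eq_mul] at hu hv ⊢
  have h1 := mul_le_mul_of_nonneg_left hu ha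
  have h2 := mul_le_mul_of_nonneg_left hv hb
  have h3 : a * δ + b * δ = δ := by rw [← add_mul, hab, one_mul]
  nlinarith

lemma half_of {n : ℕ} (x : Fin n × Fin 3 → ℝ) (S : Finset (Fin n)) (α β γ δ : ℝ)
    (hS : ∀ r ∈ S, α * pt x r 0 + β * pt x r 1 + γ * pt x r 2 ≤ δ)
    (b : EuclideanSpace ℝ (Fin 3)) (hb : b ∈ convexHull ℝ (pt x '' (S : Set (Fin n)))) :
    α * b 0 + β * b 1 + γ * b 2 ≤ δ := by
  have h1 : convexHull ℝ (pt x '' (S : Set (Fin n))) ⊆
      {v : EuclideanSpace ℝ (Fin 3) | α * v 0 + β * v 1 + γ * v 2 ≤ δ} := by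
    refine convexHull_min ?_ (conv_half α β γ δ)
    rintro _ ⟨r, hr, rfl⟩
    exact hS r hr
  exact h1 hb

section
variable {m : ℕ} (s : Fin m → ℝ)

lemma pl0 (i : Fin m) : pt (cfg s) (Fin.castAdd 2 i) 0 = s i := by
  simp [pt, cfg, Fin.append_left]
lemma pl1 (i : Fin m) : pt (cfg s) (Fin.castAdd 2 i) 1 = 0 := by
  simp [pt, cfg, Fin.append_left]
lemma pl2 (i : Fin m) : pt (cfg s) (Fin.castAdd 2 i) 2 = 0 := by
  simp [pt, cfg, Fin.append_left]
lemma pp0 : pt (cfg s) (Fin.natAdd m 0) 0 = 0 := by simp [pt, cfg]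
lemma pp1 : pt (cfg s) (Fin.natAdd m 0) 1 = -1 := by simp [pt, cfg]
lemma pp2 : pt (cfg s) (Fin.natAdd m 0) 2 = 1 := by simp [pt, cfg]
lemma pq0 : pt (cfg s) (Fin.natAdd m 1) 0 = 0 := by simp [pt, cfg]
lemma pq1 : pt (cfg s) (Fin.natAdd m 1) 1 = 1 := by simp [pt, cfg]
lemma pq2 : pt (cfg s) (Fin.natAdd m 1) 2 = 1 := by simp [pt, cfg]

end

lemma cases_pt {m : ℕ} (u : Fin (m + 2)) :
    (∃ k : Fin m, u = Fin.castAdd 2 k) ∨ u = Fin.natAdd m 0 ∨ u = Fin.natAdd m 1 := by
  refine Fin.addCases (fun k => ?_) (fun k => ?_) u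
  · exact Or.inl ⟨k, rfl⟩
  · right
    fin_cases k
    · exact Or.inl rfl
    · exact Or.inr rfl

lemma ord (si sj sk sl : ℝ) (hij : si < sj) (hkl : sk ≤ sl) (hlo : sk ≤ (si + sj) / 2)
    (hhi : (si + sj) / 2 ≤ sl) (h1 : 0 ≤ (sk - si) * (sk - sj)) (h2 : 0 ≤ (sl - si) * (sl - sj))
    (h3 : 0 ≤ (si - sk) * (si - sl)) (h4 : 0 ≤ (sj - sk) * (sj - sl)) : sk = si ∧ sl = sj := by
  have a1 : sk ≤ si := by
    by_contra h
    push Not at h
    have := mul_neg_of_pos_of_neg (sub_pos.2 h) (show sk - sj < 0 by linarith)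
    linarith
  have a2 : sj ≤ sl := by
    by_contra h
    push Not at h
    have := mul_neg_of_pos_of_neg (show 0 < sl - si by linarith) (sub_neg.2 h)
    linarith
  have a3 : si ≤ sk := by
    by_contra h
    push Not at h
    have := mul_neg_of_pos_of_neg (sub_pos.2 h) (show si - sl < 0 by linarith)
    linarith
  have a4 : sl ≤ sj := by
    by_contra h
    push Not at h
    have := mul_neg_of_pos_of_neg (show 0 < sj - sk by linarith) (sub_neg.2 h)
    linarith
  exact ⟨le_antisymm a1 a3, le_antisymm a4 a2⟩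

lemma ord' (si sj sk sl : ℝ) (hij : si ≠ sj) (hlo : min sk sl ≤ (si + sj) / 2)
    (hhi : (si + sj) / 2 ≤ max sk sl) (h1 : 0 ≤ (sk - si) * (sk - sj))
    (h2 : 0 ≤ (sl - si) * (sl - sj)) (h3 : 0 ≤ (si - sk) * (si - sl))
    (h4 : 0 ≤ (sj - sk) * (sj - sl)) : (sk = si ∧ sl = sj) ∨ (sk = sj ∧ sl = si) := by
  rcases le_total sk sl with hkl | hkl
  · rw [min_eq_left hkl] at hlo
    rw [max_eq_right hkl] at hhi
    rcases lt_or_gt_of_ne hij with h | h
    · exact Or.inl (ord si sj sk sl h hkl hlo hhi h1 h2 h3 h4)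
    · exact Or.inr (ord sj si sk sl h hkl (by linarith) (by linarith) (by linarith) (by linarith)
        h4 h3)
  · rw [min_eq_right hkl] at hlo
    rw [max_eq_left hkl] at hhi
    rcases lt_or_gt_of_ne hij with h | h
    · have := ord si sj sl sk h hkl hlo hhi h2 h1 (by linarith) (by linarith)
      exact Or.inr ⟨this.2, this.1⟩
    · have := ord sj si sl sk h hkl (by linarith) (by linarith) (by linarith) (by linarith)
        (by linarith) (by linarith)
      exact Or.inl ⟨this.2, this.1⟩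

end TL1

open TL1 in
theorem p_TL1 (h : S_TWO) : S_TL1 := by
  intro m s hs T hT i j hij
  refine ⟨fun hmem => (h m s hs i j hij).1 (hT.del _ hmem), fun hk => ?_⟩
  classical
  have hmemr : ∀ r, pt (cfg s) r ∈ convexHull ℝ (Set.range (pt (cfg s))) :=
    fun r => subset_convexHull ℝ _ ⟨r, rfl⟩
  have hcv := convex_convexHull ℝ (Set.range (pt (cfg s)))
  have hh : (0 : ℝ) ≤ 1 / 2 := by norm_num
  have hh1 : (1 / 2 : ℝ) + 1 / 2 = 1 := by norm_num
  obtain ⟨b, hb⟩ : ∃ b, b = (1 / 2 : ℝ) • ((1 / 2 : ℝ) • pt (cfg s) (Fin.castAdd 2 i) +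
      (1 / 2 : ℝ) • pt (cfg s) (Fin.castAdd 2 j)) + (1 / 2 : ℝ) •
      ((1 / 2 : ℝ) • pt (cfg s) (Fin.natAdd m 0) + (1 / 2 : ℝ) • pt (cfg s) (Fin.natAdd m 1)) :=
    ⟨_, rfl⟩
  have hbm : b ∈ convexHull ℝ (Set.range (pt (cfg s))) := by
    rw [hb]
    exact hcv (hcv (hmemr _) (hmemr _) hh hh hh1) (hcv (hmemr _) (hmemr _) hh hh hh1) hh hh hh1
  have hb0 : b 0 = (s i + s j) / 4 := by
    rw [hb]
    simp only [PiLp.add_apply, PiLp.smul_apply, smul_eq_mul, pl0, pp0, pq0]
    ring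
  have hb1 : b 1 = 0 := by
    rw [hb]
    simp only [PiLp.add_apply, PiLp.smul_apply, smul_eq_mul, pl1, pp1, pq1]
    ring
  have hb2 : b 2 = 1 / 2 := by
    rw [hb]
    simp only [PiLp.add_apply, PiLp.smul_apply, smul_eq_mul, pl2, pp2, pq2]
    ring
  rw [← hT.cover, Set.mem_iUnion₂] at hbm
  obtain ⟨S, hST, hbS⟩ := hbm
  have hP : Fin.natAdd m 0 ∈ S := by
    by_contra hP
    have := half_of (cfg s) S 0 (-1) 1 0 (by
      intro r hr
      rcases cases_pt r with ⟨k, rfl⟩ | rfl | rfl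
      · rw [pl0, pl1, pl2]; norm_num
      · exact absurd hr hP
      · rw [pq0, pq1, pq2]; norm_num) b hbS
    rw [hb0, hb1, hb2] at this
    linarith
  have hQ : Fin.natAdd m 1 ∈ S := by
    by_contra hQ
    have := half_of (cfg s) S 0 1 1 0 (by
      intro r hr
      rcases cases_pt r with ⟨k, rfl⟩ | rfl | rfl
      · rw [pl0, pl1, pl2]; norm_num
      · rw [pp0, pp1, pp2]; norm_num
      · exact absurd hr hQ) b hbS
    rw [hb0, hb1, hb2] at this
    linarith
  have hdel := hT.del S hST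
  have hPQ : (Fin.natAdd m 1 : Fin (m + 2)) ≠ Fin.natAdd m 0 := by
    intro he
    have := congrArg Fin.val he
    simp at this
  have hc2 : ((S.erase (Fin.natAdd m 0)).erase (Fin.natAdd m 1)).card = 2 := by
    rw [Finset.card_erase_of_mem (Finset.mem_erase.2 ⟨hPQ, hQ⟩), Finset.card_erase_of_mem hP,
      hdel.1]
  obtain ⟨u, v, huv, huvS⟩ := Finset.card_eq_two.1 hc2
  have hu : u ∈ (S.erase (Fin.natAdd m 0)).erase (Fin.natAdd m 1) := by rw [huvS]; simp
  have hv : v ∈ (S.erase (Fin.natAdd m 0)).erase (Fin.natAdd m 1) := by rw [huvS]; simp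
  rw [Finset.mem_erase, Finset.mem_erase] at hu hv
  obtain ⟨k, rfl⟩ : ∃ k : Fin m, u = Fin.castAdd 2 k := by
    rcases cases_pt u with hk | hk | hk
    · exact hk
    · exact absurd hk hu.2.1
    · exact absurd hk hu.1
  obtain ⟨l, rfl⟩ : ∃ l : Fin m, v = Fin.castAdd 2 l := by
    rcases cases_pt v with hk | hk | hk
    · exact hk
    · exact absurd hk hv.2.1
    · exact absurd hk hv.1
  have hkl : k ≠ l := fun he => huv (by rw [he])
  have hS : S = {Fin.castAdd 2 k, Fin.castAdd 2 l, Fin.natAdd m 0, Fin.natAdd m 1} := by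
    have e1 := Finset.insert_erase hP
    have e2 := Finset.insert_erase (Finset.mem_erase.2 ⟨hPQ, hQ⟩)
    rw [huvS] at e2
    rw [← e1, ← e2]
    ext a
    simp only [Finset.mem_insert, Finset.mem_singleton]
    tauto
  rw [hS] at hdel
  have hn := (h m s hs k l hkl).1 hdel
  have hlo : min (s k) (s l) ≤ (s i + s j) / 2 := by
    have := half_of (cfg s) S (-1) 0 (-min (s k) (s l)) (-min (s k) (s l)) (by
      intro r hr
      rw [hS] at hr
      simp only [Finset.mem_insert, Finset.mem_singleton] at hr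
      rcases hr with rfl | rfl | rfl | rfl
      · rw [pl0, pl1, pl2]
        have := min_le_left (s k) (s l)
        linarith
      · rw [pl0, pl1, pl2]
        have := min_le_right (s k) (s l)
        linarith
      · rw [pp0, pp1, pp2]; linarith
      · rw [pq0, pq1, pq2]; linarith) b hbS
    rw [hb0, hb1, hb2] at this
    linarith
  have hhi : (s i + s j) / 2 ≤ max (s k) (s l) := by
    have := half_of (cfg s) S 1 0 (max (s k) (s l)) (max (s k) (s l)) (by
      intro r hr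
      rw [hS] at hr
      simp only [Finset.mem_insert, Finset.mem_singleton] at hr
      rcases hr with rfl | rfl | rfl | rfl
      · rw [pl0, pl1, pl2]
        have := le_max_left (s k) (s l)
        linarith
      · rw [pl0, pl1, pl2]
        have := le_max_right (s k) (s l)
        linarith
      · rw [pp0, pp1, pp2]; linarith
      · rw [pq0, pq1, pq2]; linarith) b hbS
    rw [hb0, hb1, hb2] at this
    linarith
  rcases ord' (s i) (s j) (s k) (s l) (fun he => hij (hs he)) hlo hhi (hk k) (hk l) (hn i) (hn j)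
    with ⟨e1, e2⟩ | ⟨e1, e2⟩
  · rw [← hs e1, ← hs e2, ← hS]
    exact hST
  · rw [← hs e1, ← hs e2]
    have : ({Fin.castAdd 2 l, Fin.castAdd 2 k, Fin.natAdd m 0, Fin.natAdd m 1} :
        Finset (Fin (m + 2))) = S := by
      rw [hS, Finset.insert_comm]
    rw [this]
    exact hST

end Pool.DTree
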