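import Pool.Agent.Work.MP_e350e5_lc.Interface2

set_option autoImplicit false

open Finset MvPolynomial Filter Topology

namespace Pool.DTree

namespace TL2

theorem cL {m : ℕ} (s : Fin m → ℝ) (i : Fin m) (l : Fin 3) :
    pt (cfg s) (Fin.castAdd 2 i) l = (![s i, 0, 0] : Fin 3 → ℝ) l := by
  change cfg s (Fin.castAdd 2 i, l) = _
  unfold cfg
  rw [Fin.append_left]

theorem cR {m : ℕ} (s : Fin m → ℝ) (t : Fin 2) (l : Fin 3) :
    pt (cfg s) (Fin.natAdd m t) l = (![![0, -1, 1], ![0, 1, 1]] : Fin 2 → Fin 3 → ℝ) t l := by
  change cfg s (Fin.natAdd m t, l) = _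
  unfold cfg
  rw [Fin.append_right]

end TL2

open TL2 in
theorem p_TL2 : S_TL2 := by
  intro m s hm hs
  constructor
  · intro a b hab
    induction a using Fin.addCases with
    | left i =>
      induction b using Fin.addCases with
      | left j =>
        have h := congrArg (fun p : EuclideanSpace ℝ (Fin 3) => p 0) hab
        beta_reduce at h
        rw [cL, cL] at h
        rw [hs (show s i = s j by simpa using h)]
      | right t =>
        exfalso
        have h := congrArg (fun p : EuclideanSpace ℝ (Fin 3) => p 2) hab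
        beta_reduce at h
        rw [cL, cR] at h
        fin_cases t <;> simp at h
    | right t =>
      induction b using Fin.addCases with
      | left j =>
        exfalso
        have h := congrArg (fun p : EuclideanSpace ℝ (Fin 3) => p 2) hab
        beta_reduce at h
        rw [cL, cR] at h
        fin_cases t <;> simp at h
      | right u =>
        have h := congrArg (fun p : EuclideanSpace ℝ (Fin 3) => p 1) hab
        beta_reduce at h
        rw [cR, cR] at h
        fin_cases t <;> fin_cases u
        · rfl
        · exfalso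
          norm_num at h
        · exfalso
          norm_num at h
        · rfl
  · obtain ⟨i0, hi0⟩ : ∃ i : Fin m, (i : ℕ) = 0 := ⟨⟨0, by omega⟩, rfl⟩
    obtain ⟨i1, hi1⟩ : ∃ i : Fin m, (i : ℕ) = 1 := ⟨⟨1, by omega⟩, rfl⟩
    have hne : s i1 - s i0 ≠ 0 := by
      intro h
      have h2 := hs (sub_eq_zero.1 h)
      rw [h2] at hi1
      omega
    have hmem : ∀ k, pt (cfg s) k ∈ affineSpan ℝ (Set.range (pt (cfg s))) := fun k =>
      subset_affineSpan ℝ _ (Set.mem_range_self k)
    rw [eq_top_iff]
    intro z _
    have hdir : (z - pt (cfg s) (Fin.castAdd 2 i0) : EuclideanSpace ℝ (Fin 3)) ∈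
        (affineSpan ℝ (Set.range (pt (cfg s)))).direction := by
      have e : (z - pt (cfg s) (Fin.castAdd 2 i0) : EuclideanSpace ℝ (Fin 3)) =
          ((z 0 - s i0 + z 2 * s i0) / (s i1 - s i0)) •
            (pt (cfg s) (Fin.castAdd 2 i1) - pt (cfg s) (Fin.castAdd 2 i0)) +
          ((z 1 + z 2) / 2) • (pt (cfg s) (Fin.natAdd m 1) - pt (cfg s) (Fin.natAdd m 0)) +
          (z 2) • (pt (cfg s) (Fin.natAdd m 0) - pt (cfg s) (Fin.castAdd 2 i0)) := by
        ext l
        simp only [PiLp.add_apply, PiLp.sub_apply, PiLp.smul_apply, smul_eq_mul, cL, cR]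
        fin_cases l
        · simp
          field_simp
          ring
        · simp
          ring
        · simp
      rw [e]
      refine Submodule.add_mem _ (Submodule.add_mem _ ?_ ?_) ?_
      · exact Submodule.smul_mem _ _ (AffineSubspace.vsub_mem_direction (hmem _) (hmem _))
      · exact Submodule.smul_mem _ _ (AffineSubspace.vsub_mem_direction (hmem _) (hmem _))
      · exact Submodule.smul_mem _ _ (AffineSubspace.vsub_mem_direction (hmem _) (hmem _))
    have h3 := AffineSubspace.vadd_mem_of_mem_direction hdir (hmem (Fin.castAdd 2 i0))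
    rw [vadd_eq_add, sub_add_cancel] at h3
    exact h3

end Pool.DTree
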