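import Pool.Agent.Work.MP_e350e5_lc.Interface

/-! # Block INJ (second copy, helper30) -/

set_option autoImplicit false

namespace Pool.DTree

namespace Injx

/-- the values -/
def S {m : ℕ} (σ : Equiv.Perm (Fin m)) : Fin (m + 1) → ℕ := Fin.cons 0 (fun i => (σ i : ℕ) + 1)

theorem S_zero {m : ℕ} (σ : Equiv.Perm (Fin m)) : S σ 0 = 0 := rfl

theorem S_succ {m : ℕ} (σ : Equiv.Perm (Fin m)) (i : Fin m) : S σ i.succ = (σ i : ℕ) + 1 := by
  unfold S
  rw [Fin.cons_succ]

theorem S_inj {m : ℕ} (σ : Equiv.Perm (Fin m)) : Function.Injective (S σ) := by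
  intro a b h
  induction a using Fin.cases with
  | zero =>
    induction b using Fin.cases with
    | zero => rfl
    | succ j => rw [S_zero, S_succ] at h; omega
  | succ i =>
    induction b using Fin.cases with
    | zero => rw [S_zero, S_succ] at h; omega
    | succ j =>
      rw [S_succ, S_succ] at h
      have h1 : (σ i : ℕ) = σ j := by omega
      rw [σ.injective (Fin.ext h1)]

theorem S_surj {m : ℕ} (σ : Equiv.Perm (Fin m)) (v : ℕ) (hv : v ≤ m) : ∃ a, S σ a = v := by
  rcases v with _ | w
  · exact ⟨0, rfl⟩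
  · refine ⟨(σ.symm ⟨w, by omega⟩).succ, ?_⟩
    rw [S_succ, Equiv.apply_symm_apply]

/-- the positions -/
noncomputable def s {m : ℕ} (σ : Equiv.Perm (Fin m)) : Fin (m + 1) → ℝ := fun a => (S σ a : ℝ)

theorem s_inj {m : ℕ} (σ : Equiv.Perm (Fin m)) : Function.Injective (s σ) := by
  intro a b h
  apply S_inj σ
  unfold s at h
  exact_mod_cast h

theorem main (h : S_TWO) {m : ℕ} (σ τ : Equiv.Perm (Fin m))
    (hd : Del (cfg (s σ)) = Del (cfg (s τ))) : ∀ v : ℕ, ∀ a, S σ a = v → S τ a = v := by
  intro v
  induction v using Nat.strong_induction_on with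
  | _ v ih =>
    intro a ha
    rcases v with _ | v
    · have : a = 0 := S_inj σ (by rw [ha, S_zero])
      rw [this, S_zero]
    · have ham : S σ a ≤ m := by
        induction a using Fin.cases with
        | zero => rw [S_zero]; omega
        | succ i => rw [S_succ]; exact (σ i).2
      obtain ⟨i, hi⟩ := S_surj σ v (by omega)
      have hti : S τ i = v := ih v (by omega) i hi
      have hne : i ≠ a := by
        rintro rfl
        omega
      have h1 := h (m + 1) (s σ) (s_inj σ) i a hne
      have h2 := h (m + 1) (s τ) (s_inj τ) i a hne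
      have h3 : ∀ k, 0 ≤ (s σ k - s σ i) * (s σ k - s σ a) := by
        intro k
        unfold s
        rw [hi, ha]
        rcases Nat.lt_or_ge v (S σ k) with hk | hk
        · have hk' : ((v : ℝ) + 1) ≤ (S σ k : ℝ) := by exact_mod_cast hk
          push_cast
          apply mul_nonneg <;> linarith
        · have hk' : (S σ k : ℝ) ≤ (v : ℝ) := by exact_mod_cast hk
          push_cast
          apply mul_nonneg_of_nonpos_of_nonpos <;> linarith
      have h4 : IsDel (cfg (s τ)) {Fin.castAdd 2 i, Fin.castAdd 2 a, Fin.natAdd (m + 1) 0,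
          Fin.natAdd (m + 1) 1} := by
        have h5 := h1.mpr h3
        have h6 : ({Fin.castAdd 2 i, Fin.castAdd 2 a, Fin.natAdd (m + 1) 0,
          Fin.natAdd (m + 1) 1} : Finset (Fin (m + 1 + 2))) ∈ Del (cfg (s σ)) := h5
        rw [hd] at h6
        exact h6
      have h7 := h2.mp h4
      rcases lt_trichotomy (S τ a) (v + 1) with hlt | heq | hgt
      · exfalso
        have hne2 : S τ a ≠ v := by
          intro h8
          exact hne (S_inj τ (by rw [hti, h8]))
        obtain ⟨b, hb⟩ := S_surj σ (S τ a) (by omega)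
        have hb2 := ih (S τ a) (by omega) b hb
        have hba : b = a := S_inj τ hb2
        rw [hba] at hb
        omega
      · exact heq
      · exfalso
        obtain ⟨k, hk⟩ := S_surj τ (v + 1) (by omega)
        have h8 := h7 k
        unfold s at h8
        rw [hk, hti] at h8
        have h9 : ((v : ℝ) + 1) < (S τ a : ℝ) := by exact_mod_cast hgt
        push_cast at h8
        have h10 : (v : ℝ) + 1 - v = 1 := by ring
        rw [h10, one_mul] at h8
        linarith

end Injx

theorem p_INJ (h : S_TWO) : S_INJ := by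
  intro m
  classical
  refine ⟨Finset.univ.image (fun σ : Equiv.Perm (Fin m) => Del (cfg (Injx.s σ))), ?_, ?_⟩
  · rw [Finset.card_image_of_injective, Finset.card_univ, Fintype.card_perm, Fintype.card_fin]
    intro σ τ hd
    have h1 := Injx.main h σ τ hd
    ext i
    have h2 := h1 _ i.succ rfl
    rw [Injx.S_succ, Injx.S_succ] at h2
    omega
  · intro o ho
    rw [Finset.mem_image] at ho
    obtain ⟨σ, _, rfl⟩ := ho
    exact ⟨_, rfl⟩

end Pool.DTree
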