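import Pool.Agent.Work.MP_e350e5_lc.Interface

/-!
# MP_e350e5_lc, block LOW
-/

set_option autoImplicit false

open Finset MvPolynomial

namespace Pool.DTree

namespace Low

theorem fact_log (m : ℕ) (hm : 2 ≤ m) :
    ((m : ℝ) + 3) * Real.log ((m : ℝ) + 3) ≤ 12 * Real.log (m.factorial : ℝ) := by
  induction m, hm using Nat.le_induction with
  | base =>
    have e1 : ((2 : ℕ) : ℝ) + 3 = 5 := by norm_num
    have e2 : (((2 : ℕ).factorial : ℕ) : ℝ) = 2 := by norm_num [Nat.factorial]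
    rw [e1, e2]
    have h1 : (5 : ℝ) * Real.log 5 = Real.log ((5 : ℝ) ^ 5) := by
      rw [Real.log_pow]; norm_num
    have h2 : (12 : ℝ) * Real.log 2 = Real.log ((2 : ℝ) ^ 12) := by
      rw [Real.log_pow]; norm_num
    rw [h1, h2]
    exact Real.log_le_log (by norm_num) (by norm_num)
  | succ m hm ih =>
    have hm0 : (2 : ℝ) ≤ m := by exact_mod_cast hm
    have e2 : (((m + 1).factorial : ℕ) : ℝ) = ((m : ℝ) + 1) * (m.factorial : ℝ) := by
      rw [Nat.factorial_succ]; push_cast; ring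
    have hf : (0 : ℝ) < (m.factorial : ℝ) := by exact_mod_cast m.factorial_pos
    rw [e2, Real.log_mul (by linarith) hf.ne']
    have e3 : ((m + 1 : ℕ) : ℝ) + 3 = (m : ℝ) + 4 := by push_cast; ring
    rw [e3]
    have h1 : Real.log ((m : ℝ) + 4) - Real.log ((m : ℝ) + 3) ≤ 1 / ((m : ℝ) + 3) := by
      rw [← Real.log_div (by linarith) (by linarith)]
      have h := Real.log_le_sub_one_of_pos (x := ((m : ℝ) + 4) / ((m : ℝ) + 3)) (by positivity)
      have e : ((m : ℝ) + 4) / ((m : ℝ) + 3) - 1 = 1 / ((m : ℝ) + 3) := by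
        field_simp; ring
      rw [e] at h
      exact h
    have h2 : ((m : ℝ) + 3) * (Real.log ((m : ℝ) + 4) - Real.log ((m : ℝ) + 3)) ≤ 1 := by
      calc ((m : ℝ) + 3) * (Real.log ((m : ℝ) + 4) - Real.log ((m : ℝ) + 3)) ≤
            ((m : ℝ) + 3) * (1 / ((m : ℝ) + 3)) :=
              mul_le_mul_of_nonneg_left h1 (by linarith)
        _ = 1 := by field_simp
    have h3 : Real.log ((m : ℝ) + 4) ≤ 2 * Real.log ((m : ℝ) + 1) := by
      have : 2 * Real.log ((m : ℝ) + 1) = Real.log (((m : ℝ) + 1) ^ 2) := by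
        rw [Real.log_pow]; norm_num
      rw [this]
      exact Real.log_le_log (by linarith) (by nlinarith)
    have h4 : 1 ≤ Real.log ((m : ℝ) + 1) := by
      rw [Real.le_log_iff_exp_le (by linarith)]
      have := Real.exp_one_lt_d9
      linarith
    nlinarith

end Low

theorem p_LOW (h1 : S_LV) (h2 : S_INJ) : S_LOW := by
  refine ⟨1 / 24, by norm_num, ?_⟩
  intro n hn T hT
  obtain ⟨m, rfl⟩ : ∃ m, n = m + 1 + 2 := ⟨n - 3, by omega⟩
  have hm : 2 ≤ m := by omega
  obtain ⟨B, hB, hBx⟩ := h2 m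
  have hle := h1 (Fin (m + 1 + 2) × Fin 3) (Set (Finset (Fin (m + 1 + 2)))) T B (by
    intro o ho
    obtain ⟨x, hx⟩ := hBx o ho
    exact ⟨x, (hT x).trans hx⟩)
  have h3 : m.factorial ≤ 3 ^ T.depth := hB.trans hle
  have h4 : (m.factorial : ℝ) ≤ (3 : ℝ) ^ T.depth := by exact_mod_cast h3
  have hf : (0 : ℝ) < (m.factorial : ℝ) := by exact_mod_cast m.factorial_pos
  have h5 : Real.log (m.factorial : ℝ) ≤ T.depth * Real.log 3 := by
    rw [← Real.log_pow]
    exact Real.log_le_log hf h4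
  have h6 : Real.log 3 ≤ 2 := by
    have := Real.log_le_sub_one_of_pos (x := (3 : ℝ)) (by norm_num)
    linarith
  have h7 := Low.fact_log m hm
  have h8 : ((m + 1 + 2 : ℕ) : ℝ) = (m : ℝ) + 3 := by push_cast; ring
  rw [h8]
  have h9 : (0 : ℝ) ≤ (T.depth : ℝ) := by positivity
  have h10 : (T.depth : ℝ) * Real.log 3 ≤ T.depth * 2 := mul_le_mul_of_nonneg_left h6 h9
  rw [mul_assoc]
  linarith

end Pool.DTree
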