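import Pool.Agent.Work.MP_e350e5_lc.Interface2
import Pool.Agent.Work.MP_e350e5_lc.B_INJx
import Pool.Agent.Work.MP_e350e5_lc.B_LOW

/-! # Block TL3: the lower bound for triangulations -/

set_option autoImplicit false

open Finset MvPolynomial

namespace Pool.DTree

namespace TL3

open Injx

theorem main {m : ℕ} (σ τ : Equiv.Perm (Fin m))
    (h : ∀ i j : Fin (m + 1), i ≠ j → ((∀ k, 0 ≤ (s σ k - s σ i) * (s σ k - s σ j)) ↔
      ∀ k, 0 ≤ (s τ k - s τ i) * (s τ k - s τ j))) : ∀ v : ℕ, ∀ a, S σ a = v → S τ a = v := by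
  intro v
  induction v using Nat.strong_induction_on with
  | _ v ih =>
    intro a ha
    rcases v with _ | v
    · have : a = 0 := S_inj σ (by rw [ha, S_zero])
      rw [this, S_zero]
    · have ham : S σ a ≤ m := by
        induction a using Fin.cases with
        | zero => rw [S_zero]; omega
        | succ i => rw [S_succ]; exact (σ i).2
      obtain ⟨i, hi⟩ := S_surj σ v (by omega)
      have hti : S τ i = v := ih v (by omega) i hi
      have hne : i ≠ a := by
        rintro rfl
        omega
      have h3 : ∀ k, 0 ≤ (s σ k - s σ i) * (s σ k - s σ a) := by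
        intro k
        unfold s
        rw [hi, ha]
        rcases Nat.lt_or_ge v (S σ k) with hk | hk
        · have hk' : ((v : ℝ) + 1) ≤ (S σ k : ℝ) := by exact_mod_cast hk
          push_cast
          apply mul_nonneg <;> linarith
        · have hk' : (S σ k : ℝ) ≤ (v : ℝ) := by exact_mod_cast hk
          push_cast
          apply mul_nonneg_of_nonpos_of_nonpos <;> linarith
      have h7 := (h i a hne).mp h3
      rcases lt_trichotomy (S τ a) (v + 1) with hlt | heq | hgt
      · exfalso
        have hne2 : S τ a ≠ v := by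
          intro h8
          exact hne (S_inj τ (by rw [hti, h8]))
        obtain ⟨b, hb⟩ := S_surj σ (S τ a) (by omega)
        have hb2 := ih (S τ a) (by omega) b hb
        have hba : b = a := S_inj τ hb2
        rw [hba] at hb
        omega
      · exact heq
      · exfalso
        obtain ⟨k, hk⟩ := S_surj τ (v + 1) (by omega)
        have h8 := h7 k
        unfold s at h8
        rw [hk, hti] at h8
        have h9 : ((v : ℝ) + 1) < (S τ a : ℝ) := by exact_mod_cast hgt
        push_cast at h8
        have h10 : (v : ℝ) + 1 - v = 1 := by ring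
        rw [h10, one_mul] at h8
        linarith

end TL3

theorem p_TL3 (h1 : S_LV) (h2 : S_TL1) (h3 : S_TL2) : S_TL3 := by
  refine ⟨1 / 24, by norm_num, ?_⟩
  intro n hn T hT
  obtain ⟨m, rfl⟩ : ∃ m, n = m + 1 + 2 := ⟨n - 3, by omega⟩
  have hm : 2 ≤ m := by omega
  have hDT : ∀ σ : Equiv.Perm (Fin m), IsDT (cfg (Injx.s σ)) (T.run (cfg (Injx.s σ))) := by
    intro σ
    have h4 := h3 (m + 1) (Injx.s σ) (by omega) (Injx.s_inj σ)
    exact hT _ h4.1 h4.2
  have hinj : Function.Injective (fun σ : Equiv.Perm (Fin m) => T.run (cfg (Injx.s σ))) := by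
    intro σ τ hd
    have hd' : T.run (cfg (Injx.s σ)) = T.run (cfg (Injx.s τ)) := hd
    have h4 := TL3.main σ τ (fun i j hij => by
      have e1 := h2 (m + 1) (Injx.s σ) (Injx.s_inj σ) _ (hDT σ) i j hij
      have e2 := h2 (m + 1) (Injx.s τ) (Injx.s_inj τ) _ (hDT τ) i j hij
      rw [hd'] at e1
      exact e1.symm.trans e2)
    ext i
    have h5 := h4 _ i.succ rfl
    rw [Injx.S_succ, Injx.S_succ] at h5
    omega
  have hle := h1 (Fin (m + 1 + 2) × Fin 3) (Finset (Finset (Fin (m + 1 + 2)))) T
    (Finset.univ.image (fun σ : Equiv.Perm (Fin m) => T.run (cfg (Injx.s σ)))) (by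
    intro o ho
    rw [Finset.mem_image] at ho
    obtain ⟨σ, _, rfl⟩ := ho
    exact ⟨_, rfl⟩)
  rw [Finset.card_image_of_injective _ hinj, Finset.card_univ, Fintype.card_perm, Fintype.card_fin] at hle
  have h4 : (m.factorial : ℝ) ≤ (3 : ℝ) ^ T.depth := by exact_mod_cast hle
  have hf : (0 : ℝ) < (m.factorial : ℝ) := by exact_mod_cast m.factorial_pos
  have h5 : Real.log (m.factorial : ℝ) ≤ T.depth * Real.log 3 := by
    rw [← Real.log_pow]
    exact Real.log_le_log hf h4
  have h6 : Real.log 3 ≤ 2 := by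
    have := Real.log_le_sub_one_of_pos (x := (3 : ℝ)) (by norm_num)
    linarith
  have h7 := Low.fact_log m hm
  have h8 : ((m + 1 + 2 : ℕ) : ℝ) = (m : ℝ) + 3 := by push_cast; ring
  rw [h8]
  have h9 : (0 : ℝ) ≤ (T.depth : ℝ) := by positivity
  have h10 : (T.depth : ℝ) * Real.log 3 ≤ T.depth * 2 := mul_le_mul_of_nonneg_left h6 h9
  rw [mul_assoc]
  linarith

end Pool.DTree
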