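import Pool.Agent.Work.MP_e350e5_lc.Interface2

/-! Block TMAX (helper43): a maximal affine minorant exists. -/

set_option autoImplicit false

open Finset MvPolynomial Filter Topology

namespace Pool.DTree

namespace TMAX

abbrev E3 := EuclideanSpace ℝ (Fin 3)

def lf (v : Fin 3 → ℝ) (z : E3) : ℝ := ip v (fun j => z j)

theorem lf_lin (v : Fin 3 → ℝ) : IsLinearMap ℝ (lf v) := by
  constructor
  · intro a b
    simp only [lf, ip, PiLp.add_apply]
    ring
  · intro c a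
    simp only [lf, ip, PiLp.smul_apply, smul_eq_mul]
    ring

theorem lf_step (v : Fin 3 → ℝ) (q : E3) (t : ℝ) (j : Fin 3) :
    lf v (q + t • EuclideanSpace.single j (1 : ℝ)) = lf v q + t * v j := by
  rw [(lf_lin v).map_add, (lf_lin v).map_smul]
  have h : lf v (EuclideanSpace.single j (1 : ℝ)) = v j := by
    unfold lf ip
    fin_cases j <;> simp [EuclideanSpace.single_apply]
  rw [h, smul_eq_mul]

theorem hull_le {n : ℕ} (x : Fin n × Fin 3 → ℝ) (ω : Fin n → ℝ) (Mw : ℝ) (hM : ∀ i, ω i ≤ Mw) (v : Fin 3 → ℝ) (c : ℝ)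
    (h : Feas x ω v c) (z : E3) (hz : z ∈ convexHull ℝ (Set.range (pt x))) : lf v z + c ≤ Mw := by
  have h1 : convexHull ℝ (Set.range (pt x)) ⊆ {w | lf v w ≤ Mw - c} := by
    apply convexHull_min
    · rintro _ ⟨i, rfl⟩
      have h2 := h i
      have h3 := hM i
      have h4 : lf v (pt x i) = ip v (co x i) := rfl
      show lf v (pt x i) ≤ Mw - c
      rw [h4]
      linarith
    · exact convex_halfSpace_le (lf_lin v) _
  have h5 : lf v z ≤ Mw - c := h1 hz
  linarith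

end TMAX

open TMAX in
theorem p_TMAX : S_TMAX := by
  intro n x ω q hq
  obtain ⟨ρ, hρ, hball⟩ := Metric.mem_nhds_iff.1 (mem_interior_iff_mem_nhds.1 hq)
  set Mw : ℝ := ∑ i, |ω i| with hMw
  have hM : ∀ i, ω i ≤ Mw := fun i =>
    (le_abs_self _).trans (single_le_sum (f := fun i => |ω i|) (fun i _ => abs_nonneg _) (mem_univ i))
  have hm : ∀ i, -Mw ≤ ω i := fun i => by
    have h1 : |ω i| ≤ Mw := single_le_sum (f := fun i => |ω i|) (fun i _ => abs_nonneg _) (mem_univ i)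
    have h2 := neg_abs_le (ω i)
    linarith
  have hM0 : 0 ≤ Mw := sum_nonneg fun i _ => abs_nonneg _
  set K : ℝ := 4 * Mw / ρ with hK
  have hK0 : 0 ≤ K := by positivity
  have hin : ∀ (t : ℝ) (j : Fin 3), |t| < ρ →
      q + t • EuclideanSpace.single j (1 : ℝ) ∈ convexHull ℝ (Set.range (pt x)) := by
    intro t j ht
    apply hball
    rw [Metric.mem_ball, dist_eq_norm, add_sub_cancel_left, norm_smul, EuclideanSpace.norm_single]
    simpa using ht
  have hv : ∀ (v : Fin 3 → ℝ) (c : ℝ), Feas x ω v c → -Mw ≤ lf v q + c → ∀ j, |v j| ≤ K := by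
    intro v c hf hge j
    have h1 := hull_le x ω Mw hM v c hf _ (hin (ρ / 2) j (by rw [abs_of_pos (by positivity)]; linarith))
    have h2 := hull_le x ω Mw hM v c hf _ (hin (-(ρ / 2)) j (by
      rw [abs_neg, abs_of_pos (by positivity)]; linarith))
    rw [lf_step] at h1 h2
    have h3 : ρ / 2 * v j ≤ 2 * Mw := by linarith
    have h4 : -(ρ / 2 * v j) ≤ 2 * Mw := by linarith
    have h5 : |ρ / 2 * v j| ≤ 2 * Mw := abs_le.2 ⟨by linarith, h3⟩
    rw [abs_mul, abs_of_pos (by positivity : (0 : ℝ) < ρ / 2)] at h5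
    rw [hK, le_div_iff₀ hρ]
    nlinarith
  have hlf : ∀ (v : Fin 3 → ℝ), (∀ j, |v j| ≤ K) → |lf v q| ≤ K * (|q 0| + |q 1| + |q 2|) := by
    intro v hv
    have e : lf v q = v 0 * q 0 + v 1 * q 1 + v 2 * q 2 := rfl
    rw [e]
    have h0 : |v 0 * q 0| ≤ K * |q 0| := by rw [abs_mul]; exact mul_le_mul_of_nonneg_right (hv 0) (abs_nonneg _)
    have h1 : |v 1 * q 1| ≤ K * |q 1| := by rw [abs_mul]; exact mul_le_mul_of_nonneg_right (hv 1) (abs_nonneg _)
    have h2 : |v 2 * q 2| ≤ K * |q 2| := by rw [abs_mul]; exact mul_le_mul_of_nonneg_right (hv 2) (abs_nonneg _)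
    have h3 := abs_add_three (v 0 * q 0) (v 1 * q 1) (v 2 * q 2)
    nlinarith
  set Q : ℝ := K * (|q 0| + |q 1| + |q 2|) with hQ
  set S : Set ((Fin 3 → ℝ) × ℝ) := {p | Feas x ω p.1 p.2 ∧ -Mw ≤ lf p.1 q + p.2} with hS
  have hcont : ∀ (z : Fin 3 → ℝ), Continuous (fun p : (Fin 3 → ℝ) × ℝ => ip p.1 z + p.2) := by
    intro z
    unfold ip
    fun_prop
  have hcl : IsClosed S := by
    have h1 : S = (⋂ i, {p : (Fin 3 → ℝ) × ℝ | ip p.1 (co x i) + p.2 ≤ ω i}) ∩
        {p : (Fin 3 → ℝ) × ℝ | -Mw ≤ ip p.1 (fun j => q j) + p.2} := by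
      ext p
      simp only [hS, Set.mem_setOf_eq, Set.mem_inter_iff, Set.mem_iInter]
      rfl
    rw [h1]
    apply IsClosed.inter
    · exact isClosed_iInter fun i => isClosed_le (hcont _) continuous_const
    · exact isClosed_le continuous_const (hcont _)
  have hcomp : IsCompact S := by
    have h1 : IsCompact ((Set.univ.pi (fun _ : Fin 3 => Set.Icc (-K) K)) ×ˢ Set.Icc (-(Mw + Q)) (Mw + Q)) :=
      (isCompact_univ_pi fun _ => isCompact_Icc).prod isCompact_Icc
    apply h1.of_isClosed_subset hcl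
    rintro ⟨v, c⟩ ⟨hf, hge⟩
    have hvj := hv v c hf hge
    have hl := abs_le.1 (hlf v hvj)
    have hq2 : q ∈ convexHull ℝ (Set.range (pt x)) := interior_subset hq
    have hle := hull_le x ω Mw hM v c hf q hq2
    refine ⟨fun j _ => abs_le.1 (hvj j), ?_, ?_⟩
    · show -(Mw + Q) ≤ c
      have : -Mw ≤ lf v q + c := hge
      linarith [hl.2]
    · show c ≤ Mw + Q
      linarith [hl.1]
  have hne : ((0 : Fin 3 → ℝ), -Mw) ∈ S := by
    refine ⟨fun i => ?_, ?_⟩
    · have e : ip (0 : Fin 3 → ℝ) (co x i) = 0 := by simp [ip]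
      show ip (0 : Fin 3 → ℝ) (co x i) + -Mw ≤ ω i
      rw [e, zero_add]
      exact hm i
    · have e : lf (0 : Fin 3 → ℝ) q = 0 := by simp [lf, ip]
      show -Mw ≤ lf (0 : Fin 3 → ℝ) q + -Mw
      rw [e, zero_add]
  obtain ⟨⟨v, c⟩, hvc, hmax⟩ := hcomp.exists_isMaxOn ⟨_, hne⟩ (hcont (fun j => q j)).continuousOn
  refine ⟨v, c, hvc.1, fun v' c' hf' => ?_⟩
  by_cases h : -Mw ≤ lf v' q + c'
  · exact hmax (show ((v', c') : (Fin 3 → ℝ) × ℝ) ∈ S from ⟨hf', h⟩)
  · push Not at h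
    have h1 : -Mw ≤ lf v q + c := hvc.2
    have h2 : lf v' q + c' ≤ lf v q + c := by linarith
    exact h2

end Pool.DTree
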