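import Pool.Agent.Work.MP_e350e5_lc.Interface2

/-!
# Block TPOL: the in-sphere determinant for the perturbed heights
-/

set_option autoImplicit false

namespace Pool.DTree

theorem TPOL.base (a b c d m : Fin 3 → ℝ) :
    nq m * ori a b c d - nq d * ori a b c m + nq c * ori a b d m - nq b * ori a c d m
      + nq a * ori b c d m = isp a b c d m := by
  simp only [isp, ori, D3, nq, Pi.sub_apply]
  ring

theorem p_TPOL : S_TPOL := by
  intro n x ε a b c d m
  rw [← TPOL.base]
  simp only [isw, om]
  ring

end Pool.DTree
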