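import Pool.Agent.Work.MP_e350e5_lc.Interface

/-! # Block TR (second copy, helper30) -/

set_option autoImplicit false

open Finset MvPolynomial

namespace Pool.DTree

theorem p_TR (hS : S_SG) (hZ : S_ZS) : S_TR := by
  classical
  intro σ ι O _ _ f g M hg hM
  -- the sign vectors
  set V : Finset (ι → SignType) := univ.filter (fun v => ∃ x, sv f x = v) with hV
  have hmemV : ∀ x, sv f x ∈ V := fun x => by
    rw [hV, mem_filter]
    exact ⟨mem_univ _, x, rfl⟩
  have hex : ∀ v : V, ∃ x, sv f x = v := fun v => (mem_filter.mp v.2).2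
  choose pt' hpt using hex
  have hVM : V.card ≤ M := by
    have h1 := hM (V.attach.image pt') (by
      intro x hx y hy hxy
      rw [mem_image] at hx hy
      obtain ⟨v, _, rfl⟩ := hx
      obtain ⟨w, _, rfl⟩ := hy
      rw [hpt, hpt] at hxy
      rw [Subtype.ext hxy])
    rw [card_image_of_injective, card_attach] at h1
    · exact h1
    · intro v w h
      apply Subtype.ext
      rw [← hpt v, ← hpt w, h]
  have hV1 : 1 ≤ V.card := card_pos.mpr ⟨_, hmemV (fun _ => 0)⟩
  have hM1 : (1 : ℝ) ≤ M := by exact_mod_cast hV1.trans hVM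
  have hlogM : 0 ≤ Real.log M := Real.log_nonneg hM1
  have hlog : ∀ k : ℕ, k ≤ M → Real.log k ≤ Real.log M := by
    intro k hk
    rcases Nat.eq_zero_or_pos k with h0 | h0
    · rw [h0]
      simpa using hlogM
    · exact Real.log_le_log (by exact_mod_cast h0) (by exact_mod_cast hk)
  -- the outputs
  let G : (ι → SignType) → O := fun v => if h : v ∈ V then g (pt' ⟨v, h⟩) else g (fun _ => 0)
  have hG : ∀ x, G (sv f x) = g x := by
    intro x
    show (if h : sv f x ∈ V then g (pt' ⟨sv f x, h⟩) else g (fun _ => 0)) = g x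
    rw [dif_pos (hmemV x)]
    exact hg _ _ (hpt ⟨sv f x, hmemV x⟩)
  have hzs : ∀ x, zs f x = univ.filter (fun i => sv f x i = 0) := by
    intro x
    unfold zs sv
    ext i
    simp only [mem_filter, mem_univ, true_and, sign_eq_zero_iff]
  set A : Finset (Finset ι) := V.image (fun v => univ.filter (fun i => v i = 0)) with hA
  have hAM : A.card ≤ M := card_image_le.trans hVM
  have hmemA : ∀ x, zs f x ∈ A := by
    intro x
    rw [hA, mem_image]
    exact ⟨sv f x, hmemV x, (hzs x).symm⟩
  obtain ⟨T, hT1, hT2⟩ := hZ σ ι O f g (4 * Real.log M) A (by positivity) (by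
    intro Z _
    obtain ⟨T, hT1, hT2⟩ := hS σ ι O f G (univ \ Z)
      (V.filter (fun v => univ.filter (fun i => v i = 0) = Z)) (by
        intro s hs i
        have h := (mem_filter.mp hs).2
        rw [← h]
        simp)
    refine ⟨T, hT1.trans ?_, fun x hx => ?_⟩
    · have := hlog (V.filter (fun v => univ.filter (fun i => v i = 0) = Z)).card
        ((card_filter_le V _).trans hVM)
      exact mul_le_mul_of_nonneg_left this (by norm_num)
    · rw [hT2 x, hG]
      rw [mem_filter]
      exact ⟨hmemV x, by rw [← hzs, hx]⟩)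
  refine ⟨T, ?_, fun x => hT2 x (hmemA x)⟩
  have := hlog _ hAM
  linarith

end Pool.DTree
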