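import Pool.Agent.Work.MP_e350e5_lc.Interface2

/-! # TSEP: at a maximal affine minorant the point lies in the hull of the tight points -/

set_option autoImplicit false

open Finset MvPolynomial Filter Topology

namespace Pool.DTree

theorem TSEP.coord (f : StrongDual ℝ (EuclideanSpace ℝ (Fin 3))) :
    ∃ a : Fin 3 → ℝ, ∀ p : EuclideanSpace ℝ (Fin 3), f p = a 0 * p 0 + a 1 * p 1 + a 2 * p 2 := by
  refine ⟨fun j => f (EuclideanSpace.basisFun (Fin 3) ℝ j), fun p => ?_⟩
  conv_lhs => rw [← (EuclideanSpace.basisFun (Fin 3) ℝ).sum_repr p]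
  rw [map_sum, Fin.sum_univ_three, map_smul, map_smul, map_smul]
  simp only [EuclideanSpace.basisFun_repr, smul_eq_mul]
  ring

theorem p_TSEP : S_TSEP := by
  intro n x ω q v c hfeas hmax
  by_contra hq
  have hfin : (pt x '' tight x ω v c).Finite := Set.toFinite _
  obtain ⟨f, u, hfu, hub⟩ := geometric_hahn_banach_point_closed (convex_convexHull ℝ _)
    (hfin.isCompact_convexHull ℝ).isClosed hq
  obtain ⟨a, ha⟩ := TSEP.coord f
  have hev : ∀ᶠ t in 𝓝[>] (0 : ℝ), ∀ i : Fin n,
      ip v (co x i) + c + t * (u - f (pt x i)) ≤ ω i := by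
    rw [Filter.eventually_all]
    intro i
    by_cases hi : i ∈ tight x ω v c
    · have h1 : u < f (pt x i) := hub _ (subset_convexHull ℝ _ ⟨i, hi, rfl⟩)
      have h2 : ip v (co x i) + c = ω i := hi
      filter_upwards [self_mem_nhdsWithin] with t ht
      have ht' : (0 : ℝ) < t := ht
      rw [h2]
      have h3 : t * (u - f (pt x i)) ≤ 0 :=
        mul_nonpos_of_nonneg_of_nonpos ht'.le (by linarith)
      linarith
    · have h2 : ip v (co x i) + c < ω i := lt_of_le_of_ne (hfeas i) hi
      have h3 : Tendsto (fun t : ℝ => ip v (co x i) + c + t * (u - f (pt x i))) (𝓝[>] (0 : ℝ))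
          (𝓝 (ip v (co x i) + c + 0 * (u - f (pt x i)))) := by
        refine Tendsto.mono_left ?_ nhdsWithin_le_nhds
        exact (Continuous.tendsto (by fun_prop) 0)
      rw [zero_mul, add_zero] at h3
      exact (h3.eventually (gt_mem_nhds h2)).mono fun t ht => le_of_lt ht
  obtain ⟨t, ht1, ht0⟩ := (hev.and self_mem_nhdsWithin).exists
  have ht : (0 : ℝ) < t := ht0
  have h4 : ∀ p : EuclideanSpace ℝ (Fin 3), ip (fun j => v j - t * a j) (fun j => p j) + (c + t * u)
      = ip v (fun j => p j) + c + t * (u - f p) := by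
    intro p
    rw [ha p]
    unfold ip
    ring
  have h5 : Feas x ω (fun j => v j - t * a j) (c + t * u) := by
    intro i
    have h6 := h4 (pt x i)
    have h7 : (fun j => pt x i j) = co x i := rfl
    rw [h7] at h6
    rw [h6]
    exact ht1 i
  have h8 := hmax _ _ h5
  rw [h4 q] at h8
  have h9 : 0 < t * (u - f q) := mul_pos ht (by linarith)
  linarith

end Pool.DTree
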