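import Pool.Agent.Work.MP_e350e5_lc.Interface2
set_option autoImplicit false

open Finset MvPolynomial Filter Topology

namespace Pool.DTree

namespace TSTB

theorem pol (h2 : S_TPOL) {n : ℕ} (x : Fin n × Fin 3 → ℝ) (a b c d m : Fin n) :
    ∃ p : Polynomial ℝ, ∀ ε : ℝ, p.eval ε =
      ori (co x a) (co x b) (co x c) (co x d) * isw x (om x ε) a b c d m := by
  refine ⟨Polynomial.C (ori (co x a) (co x b) (co x c) (co x d)) *
    (Polynomial.C (isp (co x a) (co x b) (co x c) (co x d) (co x m)) +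
      (Polynomial.X ^ ((m : ℕ) + 1) * Polynomial.C (ori (co x a) (co x b) (co x c) (co x d))
      - Polynomial.X ^ ((d : ℕ) + 1) * Polynomial.C (ori (co x a) (co x b) (co x c) (co x m))
      + Polynomial.X ^ ((c : ℕ) + 1) * Polynomial.C (ori (co x a) (co x b) (co x d) (co x m))
      - Polynomial.X ^ ((b : ℕ) + 1) * Polynomial.C (ori (co x a) (co x c) (co x d) (co x m))
      + Polynomial.X ^ ((a : ℕ) + 1) * Polynomial.C (ori (co x b) (co x c) (co x d) (co x m)))),
    fun ε => ?_⟩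
  rw [h2]
  simp only [Polynomial.eval_mul, Polynomial.eval_add, Polynomial.eval_sub, Polynomial.eval_pow,
    Polynomial.eval_X, Polynomial.eval_C]

theorem four {α : Type} [DecidableEq α] {S : Finset α} (h : S.card = 4) :
    ∃ a b c d, a ≠ b ∧ a ≠ c ∧ a ≠ d ∧ b ≠ c ∧ b ≠ d ∧ c ≠ d ∧ S = {a, b, c, d} := by
  obtain ⟨a, t, hat, rfl, ht⟩ := Finset.card_eq_succ.1 h
  obtain ⟨b, c, d, h1, h2, h3, rfl⟩ := Finset.card_eq_three.1 ht
  simp only [Finset.mem_insert, Finset.mem_singleton, not_or] at hat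
  exact ⟨a, b, c, d, hat.1, hat.2.1, hat.2.2, h1, h2, h3, rfl⟩

theorem dich (h1 : S_TID) (h2 : S_TPOL) (h3 : S_TSGN) {n : ℕ} (x : Fin n × Fin 3 → ℝ)
    (S : Finset (Fin n)) :
    (∀ᶠ ε in 𝓝[>] (0 : ℝ), Low x (om x ε) S) ∨ ∀ᶠ ε in 𝓝[>] (0 : ℝ), ¬ Low x (om x ε) S := by
  by_cases hS : S.card = 4
  · obtain ⟨a, b, c, d, n1, n2, n3, n4, n5, n6, rfl⟩ := four hS
    have hL : ∀ ε : ℝ, Low x (om x ε) {a, b, c, d} ↔
        ori (co x a) (co x b) (co x c) (co x d) ≠ 0 ∧ ∀ m, m ≠ a → m ≠ b → m ≠ c → m ≠ d →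
          0 < ori (co x a) (co x b) (co x c) (co x d) * isw x (om x ε) a b c d m :=
      fun ε => h1 n x (om x ε) a b c d n1 n2 n3 n4 n5 n6
    by_cases h0 : ori (co x a) (co x b) (co x c) (co x d) ≠ 0
    · by_cases hall : ∀ m, m ≠ a → m ≠ b → m ≠ c → m ≠ d → ∀ᶠ ε in 𝓝[>] (0 : ℝ),
          0 < ori (co x a) (co x b) (co x c) (co x d) * isw x (om x ε) a b c d m
      · left
        have h4 : ∀ m, ∀ᶠ ε in 𝓝[>] (0 : ℝ), m ≠ a → m ≠ b → m ≠ c → m ≠ d →
            0 < ori (co x a) (co x b) (co x c) (co x d) * isw x (om x ε) a b c d m := by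
          intro m
          by_cases hm : m ≠ a ∧ m ≠ b ∧ m ≠ c ∧ m ≠ d
          · exact (hall m hm.1 hm.2.1 hm.2.2.1 hm.2.2.2).mono fun ε h _ _ _ _ => h
          · exact Eventually.of_forall fun ε ha hb hc hd => absurd ⟨ha, hb, hc, hd⟩ hm
        filter_upwards [eventually_all.2 h4] with ε hε
        exact (hL ε).2 ⟨h0, hε⟩
      · right
        push Not at hall
        obtain ⟨m, ma, mb, mc, md, hm⟩ := hall
        obtain ⟨p, hp⟩ := pol h2 x a b c d m
        have h5 : ∀ᶠ ε in 𝓝[>] (0 : ℝ), ¬ 0 < p.eval ε := by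
          rcases h3.1 p with h | h
          · exfalso
            refine hm (h.mono fun ε hε => ?_)
            show ¬ (ori (co x a) (co x b) (co x c) (co x d) * isw x (om x ε) a b c d m ≤ 0)
            rw [← hp ε]
            exact not_le.2 hε
          · exact h
        filter_upwards [h5] with ε hε hlow
        refine hε ?_
        rw [hp ε]
        exact ((hL ε).1 hlow).2 m ma mb mc md
    · right
      exact Eventually.of_forall fun ε h => h0 ((hL ε).1 h).1
  · right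
    exact Eventually.of_forall fun ε h => hS h.1

end TSTB

theorem p_TSTB (h1 : S_TID) (h2 : S_TPOL) (h3 : S_TSGN) : S_TSTB := by
  classical
  intro n x
  rw [eventually_all]
  intro S
  have hTT : S ∈ TT x ↔ ∀ᶠ ε in 𝓝[>] (0 : ℝ), Low x (om x ε) S := by
    rw [TT, Finset.mem_filter]
    exact ⟨fun h => h.2, fun h => ⟨Finset.mem_univ _, h⟩⟩
  rcases TSTB.dich h1 h2 h3 x S with h | h
  · exact h.mono fun ε hε => ⟨fun _ => hTT.2 h, fun _ => hε⟩
  · refine h.mono fun ε hε => ⟨fun h4 => absurd h4 hε, fun h4 => ?_⟩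
    exfalso
    have h5 := (hTT.1 h4).and h
    obtain ⟨δ, h6, h7⟩ := h5.exists
    exact h7 h6

end Pool.DTree
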