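import Pool.Agent.Work.MP_e350e5_lc.Interface2

/-! Block TVER of MP_e350e5_lc: a point in a Delaunay tetrahedron is a vertex of it (helper12). -/

set_option autoImplicit false

namespace Pool.DTree

theorem p_TVER : S_TVER := by
  intro n x S i hinj hS hi
  obtain ⟨hcard, -, o, r, hr, hm⟩ := hS
  have hne : S.Nonempty := by
    rw [← Finset.card_pos, hcard]
    norm_num
  obtain ⟨j, hj⟩ := hne
  have hr0 : 0 ≤ r := by
    rw [← hr j hj]
    exact dist_nonneg
  rcases hr0.eq_or_lt with h0 | h0
  · have hsub : convexHull ℝ (pt x '' (S : Set (Fin n))) ⊆ {o} := by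
      refine convexHull_min ?_ (convex_singleton o)
      rintro _ ⟨k, hk, rfl⟩
      have := hr k hk
      rw [← h0, dist_eq_zero] at this
      exact this
    have h1 : pt x i = o := hsub hi
    have h2 : pt x j = o := by
      have := hr j hj
      rwa [← h0, dist_eq_zero] at this
    have h3 : i = j := hinj (h1.trans h2.symm)
    rw [h3]
    exact hj
  · have hC : Convex ℝ (Metric.ball o r ∪ pt x '' (S : Set (Fin n))) := by
      have hsub : Metric.ball o r ∪ pt x '' (S : Set (Fin n)) ⊆ Metric.closedBall o r := by
        rintro z (hz | ⟨k, hk, rfl⟩)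
        · exact Metric.ball_subset_closedBall hz
        · rw [Metric.mem_closedBall, hr k hk]
      intro a ha b hb s t hs ht hst
      by_cases hab : a = b
      · subst hab
        rw [← add_smul, hst, one_smul]
        exact ha
      · rcases hs.eq_or_lt with hs0 | hs0
        · have ht1 : t = 1 := by linarith
          rw [← hs0, ht1, zero_smul, one_smul, zero_add]
          exact hb
        · rcases ht.eq_or_lt with ht0 | ht0
          · have hs1 : s = 1 := by linarith
            rw [← ht0, hs1, zero_smul, one_smul, add_zero]
            exact ha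
          · left
            rw [← interior_closedBall o h0.ne']
            exact strictConvex_closedBall ℝ o r (hsub ha) (hsub hb) hab hs0 ht0 hst
    have hq : pt x i ∈ Metric.ball o r ∪ pt x '' (S : Set (Fin n)) :=
      convexHull_min Set.subset_union_right hC hi
    rcases hq with hq | ⟨k, hk, hki⟩
    · exact absurd (Metric.mem_ball.1 hq) (not_lt.2 (hm i))
    · rw [← hinj hki]
      exact hk

end Pool.DTree
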