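import Pool.Agent.Work.MP_e350e5_lc.Interface

/-!
# Block TWO
-/

set_option autoImplicit false

namespace Pool.DTree

namespace Two

theorem cfgL {m : ℕ} (s : Fin m → ℝ) (i : Fin m) (l : Fin 3) :
    cfg s (Fin.castAdd 2 i, l) = (![s i, 0, 0] : Fin 3 → ℝ) l := by
  unfold cfg
  rw [Fin.append_left]

theorem cfgR {m : ℕ} (s : Fin m → ℝ) (t : Fin 2) (l : Fin 3) :
    cfg s (Fin.natAdd m t, l) = (![![0, -1, 1], ![0, 1, 1]] : Fin 2 → Fin 3 → ℝ) t l := by
  unfold cfg
  rw [Fin.append_right]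

theorem dist_sq {n : ℕ} (x : Fin n × Fin 3 → ℝ) (i : Fin n) (o : EuclideanSpace ℝ (Fin 3)) :
    dist (pt x i) o = Real.sqrt ((x (i, 0) - o 0) ^ 2 + (x (i, 1) - o 1) ^ 2 + (x (i, 2) - o 2) ^ 2) := by
  rw [EuclideanSpace.dist_eq, Fin.sum_univ_three]
  simp only [pt, Real.dist_eq, sq_abs]

theorem dL {m : ℕ} (s : Fin m → ℝ) (i : Fin m) (o : EuclideanSpace ℝ (Fin 3)) :
    dist (pt (cfg s) (Fin.castAdd 2 i)) o =
      Real.sqrt ((s i - o 0) ^ 2 + (0 - o 1) ^ 2 + (0 - o 2) ^ 2) := by
  rw [dist_sq, cfgL, cfgL, cfgL]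
  simp

theorem dR0 {m : ℕ} (s : Fin m → ℝ) (o : EuclideanSpace ℝ (Fin 3)) :
    dist (pt (cfg s) (Fin.natAdd m 0)) o =
      Real.sqrt ((0 - o 0) ^ 2 + (-1 - o 1) ^ 2 + (1 - o 2) ^ 2) := by
  rw [dist_sq, cfgR, cfgR, cfgR]
  simp

theorem dR1 {m : ℕ} (s : Fin m → ℝ) (o : EuclideanSpace ℝ (Fin 3)) :
    dist (pt (cfg s) (Fin.natAdd m 1)) o =
      Real.sqrt ((0 - o 0) ^ 2 + (1 - o 1) ^ 2 + (1 - o 2) ^ 2) := by
  rw [dist_sq, cfgR, cfgR, cfgR]
  simp

theorem aff {n : ℕ} (x : Fin n × Fin 3 → ℝ) (S : Finset (Fin n))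
    (h : ∀ w : Fin n → ℝ, ∑ i ∈ S, w i = 0 → (∀ l, ∑ i ∈ S, w i * x (i, l) = 0) →
      ∀ i ∈ S, w i = 0) : AffineIndependent ℝ (fun i : S => pt x i) := by
  classical
  rw [affineIndependent_iff_of_fintype]
  intro w hw hv
  rw [Finset.weightedVSub_eq_linear_combination _ hw] at hv
  let w' : Fin n → ℝ := fun t => if ht : t ∈ S then w ⟨t, ht⟩ else 0
  have hw' : ∀ i : S, w i = w' i := by
    intro i
    simp only [w']
    rw [dif_pos i.2]
  have h1 : ∑ i ∈ S, w' i = 0 := by
    rw [← Finset.sum_coe_sort S w', ← hw]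
    exact Finset.sum_congr rfl fun i _ => (hw' i).symm
  have h2 : ∀ l, ∑ i ∈ S, w' i * x (i, l) = 0 := by
    intro l
    rw [← Finset.sum_coe_sort S (fun i => w' i * x (i, l))]
    have h3 := congrArg (fun v : EuclideanSpace ℝ (Fin 3) => v l) hv
    simp only [PiLp.zero_apply] at h3
    rw [← h3]
    have h4 : (∑ i : S, w i • pt x i) l = ∑ i : S, (w i • pt x i) l := by
      simp
    rw [h4]
    apply Finset.sum_congr rfl
    intro i _
    rw [hw' i]
    simp [pt]
  intro i
  rw [hw' i]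
  exact h w' h1 h2 i i.2

end Two

/-- TWO. -/
theorem p_TWO : S_TWO := by
  classical
  intro m s hs i j hij
  have hsij : s i ≠ s j := fun h => hij (hs h)
  have nab : (Fin.castAdd 2 i : Fin (m + 2)) ≠ Fin.castAdd 2 j := fun h =>
    hij (Fin.castAdd_injective m 2 h)
  have nac : ∀ (k : Fin m) (t : Fin 2), (Fin.castAdd 2 k : Fin (m + 2)) ≠ Fin.natAdd m t := by
    intro k t h
    have h1 := congrArg Fin.val h
    simp only [Fin.val_castAdd, Fin.val_natAdd] at h1
    have := k.2
    omega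
  have ncd : (Fin.natAdd m 0 : Fin (m + 2)) ≠ Fin.natAdd m 1 := by
    intro h
    have h1 := congrArg Fin.val h
    simp only [Fin.val_natAdd] at h1
    simp at h1
  constructor
  · rintro ⟨_, _, o, r, h1, h2⟩ k
    have ha := h1 (Fin.castAdd 2 i) (by simp)
    have hb := h1 (Fin.castAdd 2 j) (by simp)
    have hk := h2 (Fin.castAdd 2 k)
    rw [Two.dL] at ha hb hk
    have e1 : (s i - o 0) ^ 2 + (0 - o 1) ^ 2 + (0 - o 2) ^ 2 =
        (s j - o 0) ^ 2 + (0 - o 1) ^ 2 + (0 - o 2) ^ 2 := by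
      have := ha.trans hb.symm
      exact (Real.sqrt_inj (by positivity) (by positivity)).1 this
    have e2 : (s i - o 0) ^ 2 + (0 - o 1) ^ 2 + (0 - o 2) ^ 2 ≤
        (s k - o 0) ^ 2 + (0 - o 1) ^ 2 + (0 - o 2) ^ 2 := by
      rw [← ha] at hk
      exact (Real.sqrt_le_sqrt_iff (by positivity)).1 hk
    have e3 : (s i - s j) * (s i + s j - 2 * o 0) = 0 := by linear_combination e1
    have e4 : s i + s j - 2 * o 0 = 0 :=
      (mul_eq_zero.1 e3).resolve_left (sub_ne_zero.2 hsij)
    have e5 : (s k - s i) * (s k - s j) =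
        ((s k - o 0) ^ 2) - (s i - o 0) ^ 2 + (s i - s k) * (s i + s j - 2 * o 0) := by ring
    rw [e5, e4, mul_zero, add_zero]
    linarith
  · intro hk
    refine ⟨?_, ?_, ?_⟩
    · rw [Finset.card_insert_of_notMem, Finset.card_insert_of_notMem, Finset.card_insert_of_notMem,
        Finset.card_singleton]
      · simpa using ncd
      · simp only [Finset.mem_insert, Finset.mem_singleton, not_or]
        exact ⟨nac j 0, nac j 1⟩
      · simp only [Finset.mem_insert, Finset.mem_singleton, not_or]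
        exact ⟨nab, nac i 0, nac i 1⟩
    · apply Two.aff
      intro w hw hx
      have hsum : ∀ f : Fin (m + 2) → ℝ, ∑ t ∈ ({Fin.castAdd 2 i, Fin.castAdd 2 j,
          Fin.natAdd m 0, Fin.natAdd m 1} : Finset (Fin (m + 2))), f t =
          f (Fin.castAdd 2 i) + (f (Fin.castAdd 2 j) + (f (Fin.natAdd m 0) + f (Fin.natAdd m 1))) := by
        intro f
        rw [Finset.sum_insert, Finset.sum_insert, Finset.sum_insert, Finset.sum_singleton]
        · simpa using ncd
        · simp only [Finset.mem_insert, Finset.mem_singleton, not_or]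
          exact ⟨nac j 0, nac j 1⟩
        · simp only [Finset.mem_insert, Finset.mem_singleton, not_or]
          exact ⟨nab, nac i 0, nac i 1⟩
      have x0 := hx 0
      have x1 := hx 1
      have x2 := hx 2
      rw [hsum] at hw x0 x1 x2
      rw [Two.cfgL, Two.cfgL, Two.cfgR, Two.cfgR] at x0 x1 x2
      simp at x0 x1 x2
      have wc : w (Fin.natAdd m 0) = 0 := by linarith
      have wd : w (Fin.natAdd m 1) = 0 := by linarith
      have wa : w (Fin.castAdd 2 i) * (s i - s j) = 0 := by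
        have h1 : w (Fin.castAdd 2 j) = - w (Fin.castAdd 2 i) := by linarith
        rw [h1] at x0
        linear_combination x0
      have wa' : w (Fin.castAdd 2 i) = 0 :=
        (mul_eq_zero.1 wa).resolve_right (sub_ne_zero.2 hsij)
      have wb' : w (Fin.castAdd 2 j) = 0 := by linarith
      intro t ht
      simp only [Finset.mem_insert, Finset.mem_singleton] at ht
      rcases ht with h | h | h | h <;> rw [h] <;> assumption
    · let z : ℝ := (((s i + s j) / 2) ^ 2 + 2 - ((s i - s j) / 2) ^ 2) / 2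
      let o : EuclideanSpace ℝ (Fin 3) := WithLp.toLp 2 ![(s i + s j) / 2, 0, z]
      have o0 : o 0 = (s i + s j) / 2 := rfl
      have o1 : o 1 = 0 := rfl
      have o2 : o 2 = z := rfl
      have hz : 2 * z = ((s i + s j) / 2) ^ 2 + 2 - ((s i - s j) / 2) ^ 2 := by
        simp only [z]; ring
      have da : dist (pt (cfg s) (Fin.castAdd 2 i)) o = Real.sqrt (((s i - s j) / 2) ^ 2 + z ^ 2) := by
        rw [Two.dL, o0, o1, o2]
        congr 1
        ring
      have db : dist (pt (cfg s) (Fin.castAdd 2 j)) o = Real.sqrt (((s i - s j) / 2) ^ 2 + z ^ 2) := by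
        rw [Two.dL, o0, o1, o2]
        congr 1
        ring
      have dc : dist (pt (cfg s) (Fin.natAdd m 0)) o = Real.sqrt (((s i - s j) / 2) ^ 2 + z ^ 2) := by
        rw [Two.dR0, o0, o1, o2]
        congr 1
        linear_combination (-1 : ℝ) * hz
      have dd : dist (pt (cfg s) (Fin.natAdd m 1)) o = Real.sqrt (((s i - s j) / 2) ^ 2 + z ^ 2) := by
        rw [Two.dR1, o0, o1, o2]
        congr 1
        linear_combination (-1 : ℝ) * hz
      refine ⟨o, Real.sqrt (((s i - s j) / 2) ^ 2 + z ^ 2), ?_, ?_⟩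
      · intro t ht
        simp only [Finset.mem_insert, Finset.mem_singleton] at ht
        rcases ht with h | h | h | h <;> rw [h] <;> assumption
      · intro t
        refine Fin.addCases (fun k => ?_) (fun u => ?_) t
        · rw [Two.dL, o0, o1, o2]
          apply Real.sqrt_le_sqrt
          have := hk k
          nlinarith [this]
        · fin_cases u
          · exact dc.ge
          · exact dd.ge

end Pool.DTree
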