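import Pool.Agent.Work.MP_e350e5_lc.Interface

set_option autoImplicit false

open Finset MvPolynomial

namespace Pool.DTree

namespace UP

theorem aux (ι : Type) [DecidableEq ι] (A : Finset (Finset ι)) (t : ℕ) (ht : t ≤ A.card) :
    ∃ U ⊆ A, U.card = t ∧ ∀ Z ∈ U, ∀ Z' ∈ A \ U, Z'.card ≤ Z.card := by
  induction t with
  | zero => exact ⟨∅, Finset.empty_subset _, rfl, by simp⟩
  | succ t ih =>
    obtain ⟨U, hU, hc, hord⟩ := ih (by omega)
    have hne : (A \ U).Nonempty := by
      rw [← Finset.card_pos, Finset.card_sdiff_of_subset hU]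
      omega
    obtain ⟨Z0, hZ0, hmax⟩ := Finset.exists_max_image (A \ U) Finset.card hne
    have hZA : Z0 ∈ A := (Finset.mem_sdiff.mp hZ0).1
    have hZU : Z0 ∉ U := (Finset.mem_sdiff.mp hZ0).2
    refine ⟨insert Z0 U, ?_, ?_, ?_⟩
    · intro Z hZ
      rcases Finset.mem_insert.mp hZ with rfl | h
      · exact hZA
      · exact hU h
    · rw [Finset.card_insert_of_notMem hZU, hc]
    · intro Z hZ Z' hZ'
      rw [Finset.mem_sdiff, Finset.mem_insert, not_or] at hZ'
      have hZ'' : Z' ∈ A \ U := Finset.mem_sdiff.mpr ⟨hZ'.1, hZ'.2.2⟩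
      rcases Finset.mem_insert.mp hZ with rfl | h
      · exact hmax Z' hZ''
      · exact hord Z h Z' hZ''

end UP

theorem p_UP : S_UP := by
  intro ι _ A hA
  obtain ⟨U, hU, hc, hord⟩ := UP.aux ι A (A.card / 2) (by omega)
  refine ⟨U, hU, ?_, ?_, hord⟩
  · omega
  · rw [Finset.card_sdiff_of_subset hU]
    omega

end Pool.DTree
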