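import Pool.Agent.Work.MP_e350e5_lc.Interface

/-!
# MP_e350e5_lc, block ZS: search for the zero set (typed by helper98)
-/

set_option autoImplicit false

open Finset MvPolynomial

namespace Pool.DTree

namespace ZS

theorem mem_zs {σ ι : Type} [Fintype ι] (f : ι → MvPolynomial σ ℝ) (x : σ → ℝ) (i : ι) :
    i ∈ zs f x ↔ eval x (f i) = 0 := by
  classical
  unfold zs
  simp

theorem log_le {u a : ℕ} (ha : 2 ≤ a) (hu : 3 * u ≤ 2 * a) :
    3 * Real.log u + 1 ≤ 3 * Real.log a := by
  have h13 : (1 : ℝ) / 3 ≤ Real.log (3 / 2) := by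
    have h := Real.one_sub_inv_le_log_of_pos (show (0 : ℝ) < 3 / 2 by norm_num)
    have h' : (1 : ℝ) - (3 / 2)⁻¹ = 1 / 3 := by norm_num
    rw [h'] at h
    exact h
  rcases Nat.eq_zero_or_pos u with h | h
  · rw [h]
    have h2 : Real.log 2 ≤ Real.log a := Real.log_le_log (by norm_num) (by exact_mod_cast ha)
    have h3 : Real.log (3 / 2) ≤ Real.log 2 := Real.log_le_log (by norm_num) (by norm_num)
    rw [Nat.cast_zero, Real.log_zero]
    linarith
  · have hu0 : (0 : ℝ) < u := by exact_mod_cast h
    have h4 : (u : ℝ) * (3 / 2) ≤ a := by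
      have : (3 : ℝ) * u ≤ 2 * a := by exact_mod_cast hu
      linarith
    have h5 := Real.log_le_log (by positivity) h4
    rw [Real.log_mul hu0.ne' (by norm_num)] at h5
    linarith

/-- the test -/
noncomputable def tst {σ ι : Type} (f : ι → MvPolynomial σ ℝ) (U : Finset (Finset ι)) :
    MvPolynomial σ ℝ := ∏ Z ∈ U, ∑ i ∈ Z, f i ^ 2

theorem eval_tst {σ ι : Type} [Fintype ι] [DecidableEq ι] (f : ι → MvPolynomial σ ℝ)
    (U : Finset (Finset ι)) (x : σ → ℝ) : eval x (tst f U) = 0 ↔ ∃ Z ∈ U, Z ⊆ zs f x := by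
  unfold tst
  rw [map_prod, Finset.prod_eq_zero_iff]
  constructor
  · rintro ⟨Z, hZ, h⟩
    refine ⟨Z, hZ, fun i hi => ?_⟩
    rw [map_sum] at h
    have h1 := (Finset.sum_eq_zero_iff_of_nonneg (fun i _ => by
      rw [map_pow]
      exact sq_nonneg _)).1 h i hi
    rw [map_pow] at h1
    rw [mem_zs]
    exact pow_eq_zero_iff (two_ne_zero) |>.1 h1
  · rintro ⟨Z, hZ, h⟩
    refine ⟨Z, hZ, ?_⟩
    rw [map_sum]
    apply Finset.sum_eq_zero
    intro i hi
    have h1 := (mem_zs f x i).1 (h hi)
    rw [map_pow, h1]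
    norm_num

theorem main (hUP : S_UP) {σ ι O : Type} [Fintype ι] [DecidableEq ι] (f : ι → MvPolynomial σ ℝ)
    (g : (σ → ℝ) → O) (d : ℝ) (hd : 0 ≤ d) (n : ℕ) : ∀ A : Finset (Finset ι), A.card = n →
    (∀ Z ∈ A, ∃ T : Tree σ O, (T.depth : ℝ) ≤ d ∧ ∀ x, zs f x = Z → T.run x = g x) →
    ∃ T : Tree σ O, (T.depth : ℝ) ≤ d + 3 * Real.log A.card ∧
      ∀ x, zs f x ∈ A → T.run x = g x := by
  induction n using Nat.strong_induction_on with
  | _ n ih =>
    intro A hA hT
    rcases Nat.lt_or_ge n 2 with hn | hn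
    · rcases Nat.eq_zero_or_pos n with h0 | h0
      · have hA0 : A = ∅ := Finset.card_eq_zero.1 (hA.trans h0)
        refine ⟨Tree.leaf (g 0), ?_, ?_⟩
        · rw [hA0, Finset.card_empty, Nat.cast_zero, Real.log_zero, mul_zero, add_zero]
          simpa [Tree.depth] using hd
        · intro x hx
          rw [hA0] at hx
          exact absurd hx (Finset.notMem_empty _)
      · have h1 : A.card = 1 := by omega
        obtain ⟨Z, hZ⟩ := Finset.card_eq_one.1 h1
        obtain ⟨T, hT1, hT2⟩ := hT Z (by rw [hZ]; exact Finset.mem_singleton_self Z)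
        refine ⟨T, ?_, ?_⟩
        · rw [h1, Nat.cast_one, Real.log_one, mul_zero, add_zero]
          exact hT1
        · intro x hx
          rw [hZ, Finset.mem_singleton] at hx
          exact hT2 x hx
    · obtain ⟨U, hUA, hU1, hU2, hU3⟩ := hUP ι A (by omega)
      have hUlt : U.card < n := by omega
      have hVlt : (A \ U).card < n := by omega
      obtain ⟨TU, hTU1, hTU2⟩ := ih _ hUlt U rfl (fun Z hZ => hT Z (hUA hZ))
      obtain ⟨TV, hTV1, hTV2⟩ := ih _ hVlt (A \ U) rfl
        (fun Z hZ => hT Z (Finset.mem_sdiff.1 hZ).1)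
      have hlU := log_le (u := U.card) (a := A.card) (by omega) hU1
      have hlV := log_le (u := (A \ U).card) (a := A.card) (by omega) hU2
      refine ⟨Tree.node (tst f U) TV TU TV, ?_, ?_⟩
      · have h1 : ((Tree.node (tst f U) TV TU TV).depth : ℝ) =
            max (TV.depth : ℝ) (max (TU.depth : ℝ) (TV.depth : ℝ)) + 1 := by
          simp only [Tree.depth]
          push_cast
          rfl
        rw [h1]
        have h2 : max (TV.depth : ℝ) (max (TU.depth : ℝ) (TV.depth : ℝ)) ≤
            d + 3 * Real.log A.card - 1 := by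
          refine max_le ?_ (max_le ?_ ?_) <;> linarith
        linarith
      · intro x hx
        have key : eval x (tst f U) = 0 ↔ zs f x ∈ U := by
          rw [eval_tst]
          constructor
          · rintro ⟨Z, hZ, hsub⟩
            by_contra hcon
            have h1 := hU3 Z hZ (zs f x) (Finset.mem_sdiff.2 ⟨hx, hcon⟩)
            have h2 := Finset.eq_of_subset_of_card_le hsub h1
            exact hcon (h2 ▸ hZ)
          · intro h
            exact ⟨zs f x, h, Finset.Subset.refl _⟩
        by_cases hz : eval x (tst f U) = 0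
        · have h1 : (Tree.node (tst f U) TV TU TV).run x = TU.run x := by
            simp only [Tree.run]
            rw [hz, if_neg (lt_irrefl _), if_pos rfl]
          rw [h1]
          exact hTU2 x (key.1 hz)
        · have h1 : (Tree.node (tst f U) TV TU TV).run x = TV.run x := by
            simp only [Tree.run]
            rw [if_neg hz, ite_self]
          rw [h1]
          exact hTV2 x (Finset.mem_sdiff.2 ⟨hx, fun h => hz (key.2 h)⟩)

end ZS

theorem p_ZS (h : S_UP) : S_ZS := by
  intro σ ι O _ _ f g d A hd hT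
  exact ZS.main h f g d hd A.card A rfl hT

end Pool.DTree
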