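import Pool.Agent.Work.MP_e350e5_lc.Interface2

/-!
# MP_e350e5_lc: the definitions of the hand-in, in short terms
-/

set_option autoImplicit false

namespace Pool.DTree

/-- the convex hull of the points with numbers in `S` -/
def hull {n : ℕ} (x : Fin n × Fin 3 → ℝ) (S : Set (Fin n)) : Set (EuclideanSpace ℝ (Fin 3)) :=
  convexHull ℝ (pt x '' S)

/-- the points are different and not all in a plane: four of them are affinely independent -/
def Ok {n : ℕ} (x : Fin n × Fin 3 → ℝ) : Prop :=
  Function.Injective (pt x) ∧ ∃ S : Finset (Fin n), S.card = 4 ∧ AffineIndependent ℝ (fun i : S => pt x i)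

/-- `T` is a Delaunay triangulation of the points of `x`: tetrahedra with empty open circumscribed balls, whose
union is the convex hull, which meet face to face, and whose vertices are all the given points -/
structure IsTri {n : ℕ} (x : Fin n × Fin 3 → ℝ) (T : Finset (Finset (Fin n))) : Prop where
  del : ∀ S ∈ T, IsDel x S
  cover : ∀ q, (∃ S ∈ T, q ∈ hull x S) ↔ q ∈ hull x Set.univ
  inter : ∀ S ∈ T, ∀ S' ∈ T, hull x S ∩ hull x S' = hull x (S ∩ S')
  vert : ∀ i, ∃ S ∈ T, i ∈ S

theorem isTri_iff {n : ℕ} (x : Fin n × Fin 3 → ℝ) (T : Finset (Finset (Fin n))) : IsTri x T ↔ IsDT x T := by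
  constructor
  · intro h
    refine ⟨h.del, ?_, ?_, h.vert⟩
    · ext q
      have h1 := h.cover q
      rw [hull, Set.image_univ] at h1
      rw [← h1, Set.mem_iUnion₂]
      simp only [hull, exists_prop]
    · intro S hS S' hS'
      rw [Finset.coe_inter]
      exact h.inter S hS S' hS'
  · intro h
    refine ⟨h.del, ?_, ?_, h.vert⟩
    · intro q
      rw [hull, Set.image_univ, ← h.cover, Set.mem_iUnion₂]
      simp only [hull, exists_prop]
    · intro S hS S' hS'
      have := h.inter S hS S' hS'
      rw [Finset.coe_inter] at this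
      exact this

theorem span_of_indep {n : ℕ} (x : Fin n × Fin 3 → ℝ) (S : Finset (Fin n)) (hS : S.card = 4)
    (hi : AffineIndependent ℝ (fun i : S => pt x i)) : affineSpan ℝ (Set.range (pt x)) = ⊤ := by
  have h1 : affineSpan ℝ (Set.range (fun i : S => pt x i)) = ⊤ := by
    refine hi.affineSpan_eq_top_iff_card_eq_finrank_add_one.2 ?_
    rw [Fintype.card_coe, hS, finrank_euclideanSpace, Fintype.card_fin]
  rw [eq_top_iff, ← h1]
  refine affineSpan_mono ℝ ?_
  rintro _ ⟨i, rfl⟩
  exact ⟨i, rfl⟩

theorem indep_of_span {n : ℕ} (x : Fin n × Fin 3 → ℝ) (h : affineSpan ℝ (Set.range (pt x)) = ⊤) :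
    ∃ S : Finset (Fin n), S.card = 4 ∧ AffineIndependent ℝ (fun i : S => pt x i) := by
  classical
  obtain ⟨t, htU, htspan, htind⟩ := exists_affineIndependent ℝ (EuclideanSpace ℝ (Fin 3))
    (Set.range (pt x))
  have htfin : t.Finite := (Set.finite_range (pt x)).subset htU
  have : Fintype t := htfin.fintype
  have htcard : Fintype.card t = 4 := by
    have h4 := (htind.affineSpan_eq_top_iff_card_eq_finrank_add_one).1
      (by rw [Subtype.range_coe, htspan, h])
    rw [h4, finrank_euclideanSpace, Fintype.card_fin]
  obtain ⟨f, hf⟩ : ∃ f : t → Fin n, ∀ y, pt x (f y) = y := by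
    exact ⟨fun y => (htU y.2).choose, fun y => (htU y.2).choose_spec⟩
  clear htU htspan h
  have hinj : Function.Injective f := by
    intro y z hyz
    apply Subtype.ext
    rw [← hf y, ← hf z, hyz]
  refine ⟨Finset.univ.image f, ?_, ?_⟩
  · rw [Finset.card_image_of_injective _ hinj, Finset.card_univ, htcard]
  · have key : ∀ i : (Finset.univ.image f : Finset (Fin n)), ∃ y : t, f y = i := by
      rintro ⟨i, hi⟩
      obtain ⟨y, -, h1⟩ := Finset.mem_image.1 hi
      exact ⟨y, h1⟩
    choose g hg using key
    have hginj : Function.Injective g := by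
      intro i j hij
      apply Subtype.ext
      rw [← hg i, ← hg j, hij]
    have h5 := htind.comp_embedding ⟨g, hginj⟩
    have h6 : (fun i : (Finset.univ.image f : Finset (Fin n)) => pt x i) =
        (fun i => ((g i : t) : EuclideanSpace ℝ (Fin 3))) := by
      funext i
      rw [← hf (g i), hg i]
    rw [h6]
    exact h5
end Pool.DTree
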