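import Pool.Agent.Work.MP_e350e5_lc.Interface

/-!
# MP_e350e5_lc: block EV (evaluation of the test polynomials)
-/

set_option autoImplicit false

open Finset MvPolynomial

namespace Pool.DTree

/-- Block EV. -/
theorem p_EV : S_EV := by
  intro n x
  constructor
  · intro a b c d
    simp [ori, D3, xp]
  · intro a b c d e
    simp [isp, D3, nq, xp]

end Pool.DTree
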