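import Pool.Agent.Work.MP_e350e5_lc.Interface

/-!
# MP_e350e5_lc, block INJ (second version)
-/

set_option autoImplicit false

open Finset MvPolynomial

namespace Pool.DTree

namespace INJ85

/-- the positions of a permutation -/
noncomputable def pos {m : ℕ} (π : Equiv.Perm (Fin (m + 1))) : Fin (m + 1) → ℝ :=
  fun i => ((π i : ℕ) : ℝ)

theorem pos_inj {m : ℕ} (π : Equiv.Perm (Fin (m + 1))) : Function.Injective (pos π) := by
  intro i j hij
  unfold pos at hij
  have h1 : (π i : ℕ) = (π j : ℕ) := by exact_mod_cast hij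
  exact π.injective (Fin.ext h1)

theorem key {m : ℕ} (h : S_TWO) (π π' : Equiv.Perm (Fin (m + 1))) (h0 : π 0 = 0) (h0' : π' 0 = 0)
    (hD : Del (cfg (pos π)) = Del (cfg (pos π'))) (t : ℕ) :
    ∀ i, (π i : ℕ) = t → (π' i : ℕ) = t := by
  induction t using Nat.strong_induction_on with
  | _ t ih =>
    intro i hi
    rcases Nat.eq_zero_or_pos t with ht | ht
    · subst ht
      have h1 : π i = 0 := Fin.ext hi
      have h2 : i = 0 := π.injective (by rw [h1, h0])
      rw [h2, h0']
      rfl
    · have htm : t < m + 1 := by rw [← hi]; exact (π i).isLt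
      obtain ⟨j, hj⟩ := π.surjective ⟨t - 1, by omega⟩
      have hj1 : (π j : ℕ) = t - 1 := by rw [hj]
      have hj2 : (π' j : ℕ) = t - 1 := ih (t - 1) (by omega) j hj1
      have hne : j ≠ i := by
        intro h3
        rw [h3] at hj1
        omega
      have hdel : IsDel (cfg (pos π))
          {Fin.castAdd 2 j, Fin.castAdd 2 i, Fin.natAdd (m + 1) 0, Fin.natAdd (m + 1) 1} := by
        rw [h (m + 1) (pos π) (pos_inj π) j i hne]
        intro k
        unfold pos
        rw [hj1, hi]
        rcases Nat.lt_or_ge (π k : ℕ) t with h4 | h4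
        · have h5 : ((π k : ℕ) : ℝ) ≤ ((t - 1 : ℕ) : ℝ) := by exact_mod_cast (by omega)
          have h6 : ((π k : ℕ) : ℝ) ≤ (t : ℝ) := by exact_mod_cast h4.le
          exact mul_nonneg_of_nonpos_of_nonpos (by linarith) (by linarith)
        · have h5 : ((t - 1 : ℕ) : ℝ) ≤ ((π k : ℕ) : ℝ) := by exact_mod_cast (by omega)
          have h6 : (t : ℝ) ≤ ((π k : ℕ) : ℝ) := by exact_mod_cast h4
          exact mul_nonneg (by linarith) (by linarith)
      have hdel' : IsDel (cfg (pos π'))
          {Fin.castAdd 2 j, Fin.castAdd 2 i, Fin.natAdd (m + 1) 0, Fin.natAdd (m + 1) 1} := by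
        have h7 : ({Fin.castAdd 2 j, Fin.castAdd 2 i, Fin.natAdd (m + 1) 0,
            Fin.natAdd (m + 1) 1} : Finset (Fin (m + 1 + 2))) ∈ Del (cfg (pos π)) := hdel
        rw [hD] at h7
        exact h7
      rw [h (m + 1) (pos π') (pos_inj π') j i hne] at hdel'
      rcases Nat.lt_trichotomy (π' i : ℕ) t with h8 | h8 | h8
      · -- smaller values are taken
        exfalso
        obtain ⟨i', hi'⟩ := π.surjective ⟨(π' i : ℕ), by omega⟩
        have h9 : (π i' : ℕ) = (π' i : ℕ) := by rw [hi']
        have h10 := ih (π' i : ℕ) h8 i' h9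
        have h11 : i' = i := π'.injective (Fin.ext h10)
        rw [h11, hi] at h9
        omega
      · exact h8
      · exfalso
        obtain ⟨k, hk⟩ := π'.surjective ⟨t, htm⟩
        have hk1 : (π' k : ℕ) = t := by rw [hk]
        have h9 := hdel' k
        unfold pos at h9
        rw [hk1, hj2] at h9
        have h10 : ((t - 1 : ℕ) : ℝ) < (t : ℝ) := by exact_mod_cast (by omega)
        have h11 : (t : ℝ) < ((π' i : ℕ) : ℝ) := by exact_mod_cast h8
        have h12 : ((t : ℝ) - ((t - 1 : ℕ) : ℝ)) * ((t : ℝ) - ((π' i : ℕ) : ℝ)) < 0 :=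
          mul_neg_of_pos_of_neg (by linarith) (by linarith)
        linarith

end INJ85

theorem q_INJ (h : S_TWO) : S_INJ := by
  classical
  intro m
  let e : Equiv.Perm (Fin m) → Equiv.Perm (Fin (m + 1)) := fun σ =>
    Equiv.Perm.decomposeFin.symm (0, σ)
  have he0 : ∀ σ, e σ 0 = 0 := fun σ => Equiv.Perm.decomposeFin_symm_apply_zero 0 σ
  have hei : Function.Injective e := by
    intro σ τ hστ
    have h1 := Equiv.Perm.decomposeFin.symm.injective hστ
    exact (Prod.ext_iff.1 h1).2
  refine ⟨(univ : Finset (Equiv.Perm (Fin m))).image fun σ => Del (cfg (INJ85.pos (e σ))), ?_, ?_⟩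
  · rw [card_image_of_injective, card_univ, Fintype.card_perm, Fintype.card_fin]
    intro σ τ hστ
    apply hei
    ext i
    have h1 := INJ85.key h (e σ) (e τ) (he0 σ) (he0 τ) hστ (e σ i : ℕ) i rfl
    exact h1.symm
  · intro o ho
    rw [mem_image] at ho
    obtain ⟨σ, _, rfl⟩ := ho
    exact ⟨_, rfl⟩

end Pool.DTree
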