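import Pool.Agent.Work.MP_e350e5_lc.Interface
import Pool.Agent.Work.MP_461429_co.SignPatterns

/-! Block MAIN (helper57). -/

set_option autoImplicit false

open Finset MvPolynomial

namespace Pool.DTree

theorem p_MAIN (h1 : S_TR) (h2 : S_GEO) (h3 : S_DEG) (h4 : S_NUM) : S_MAIN := by
  classical
  intro n
  obtain ⟨T, hT1, hT2⟩ := h1 (Fin n × Fin 3) (Ix n) (Set (Finset (Fin n))) F Del
    ((1 + (2 * 5 * Fintype.card (Ix n) + 1) * Fintype.card (Fin n × Fin 3)) ^
      Fintype.card (Fin n × Fin 3))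
    (fun x y hxy => h2 n x y hxy)
    (fun X hX => Pool.Agent.Work.MP_461429_co.card_signPatterns_le F 5 (h3 n) X
      (fun x hx y hy hs => hX x hx y hy (funext hs)))
  exact ⟨T, hT1.trans (h4 n), hT2⟩

end Pool.DTree
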