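import Pool.Agent.Work.MP_e350e5_lc.Interface2

set_option autoImplicit false

open Finset MvPolynomial Filter Topology

namespace Pool.DTree

namespace TID38

theorem isw_eq {n : ℕ} (x : Fin n × Fin 3 → ℝ) (ω : Fin n → ℝ) (a b c d m : Fin n)
    (v : Fin 3 → ℝ) (k : ℝ) (ha : ip v (co x a) + k = ω a) (hb : ip v (co x b) + k = ω b)
    (hc : ip v (co x c) + k = ω c) (hd : ip v (co x d) + k = ω d) :
    isw x ω a b c d m = ori (co x a) (co x b) (co x c) (co x d) * (ω m - (ip v (co x m) + k)) := by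
  unfold isw
  rw [← ha, ← hb, ← hc, ← hd]
  simp only [ori, D3, ip, Pi.sub_apply]
  ring

theorem solve (a b c d : Fin 3 → ℝ) (wa wb wc wd : ℝ) (h : ori a b c d ≠ 0) :
    ∃ (v : Fin 3 → ℝ) (k : ℝ), ip v a + k = wa ∧ ip v b + k = wb ∧ ip v c + k = wc ∧
      ip v d + k = wd := by
  set D := ori a b c d with hD
  have hD' : D = D3 (b - a) (c - a) (d - a) := rfl
  let p : Fin 3 → ℝ := b - a
  let q : Fin 3 → ℝ := c - a
  let r : Fin 3 → ℝ := d - a
  let P := wb - wa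
  let Q := wc - wa
  let R := wd - wa
  let v0 := (P * (q 1 * r 2 - q 2 * r 1) - Q * (p 1 * r 2 - p 2 * r 1) + R * (p 1 * q 2 - p 2 * q 1)) / D
  let v1 := (-P * (q 0 * r 2 - q 2 * r 0) + Q * (p 0 * r 2 - p 2 * r 0) - R * (p 0 * q 2 - p 2 * q 0)) / D
  let v2 := (P * (q 0 * r 1 - q 1 * r 0) - Q * (p 0 * r 1 - p 1 * r 0) + R * (p 0 * q 1 - p 1 * q 0)) / D
  have e0 : D * v0 = P * (q 1 * r 2 - q 2 * r 1) - Q * (p 1 * r 2 - p 2 * r 1) +
      R * (p 1 * q 2 - p 2 * q 1) := mul_div_cancel₀ _ h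
  have e1 : D * v1 = -P * (q 0 * r 2 - q 2 * r 0) + Q * (p 0 * r 2 - p 2 * r 0) -
      R * (p 0 * q 2 - p 2 * q 0) := mul_div_cancel₀ _ h
  have e2 : D * v2 = P * (q 0 * r 1 - q 1 * r 0) - Q * (p 0 * r 1 - p 1 * r 0) +
      R * (p 0 * q 1 - p 1 * q 0) := mul_div_cancel₀ _ h
  have hDe : D = p 0 * (q 1 * r 2 - q 2 * r 1) - p 1 * (q 0 * r 2 - q 2 * r 0) +
      p 2 * (q 0 * r 1 - q 1 * r 0) := rfl
  have hP : v0 * p 0 + v1 * p 1 + v2 * p 2 = P := by
    apply mul_left_cancel₀ h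
    calc D * (v0 * p 0 + v1 * p 1 + v2 * p 2) = (D * v0) * p 0 + (D * v1) * p 1 + (D * v2) * p 2 := by ring
      _ = D * P := by rw [e0, e1, e2, hDe]; ring
  have hQ : v0 * q 0 + v1 * q 1 + v2 * q 2 = Q := by
    apply mul_left_cancel₀ h
    calc D * (v0 * q 0 + v1 * q 1 + v2 * q 2) = (D * v0) * q 0 + (D * v1) * q 1 + (D * v2) * q 2 := by ring
      _ = D * Q := by rw [e0, e1, e2, hDe]; ring
  have hR : v0 * r 0 + v1 * r 1 + v2 * r 2 = R := by
    apply mul_left_cancel₀ h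
    calc D * (v0 * r 0 + v1 * r 1 + v2 * r 2) = (D * v0) * r 0 + (D * v1) * r 1 + (D * v2) * r 2 := by ring
      _ = D * R := by rw [e0, e1, e2, hDe]; ring
  refine ⟨![v0, v1, v2], wa - (v0 * a 0 + v1 * a 1 + v2 * a 2), ?_, ?_, ?_, ?_⟩
  · show v0 * a 0 + v1 * a 1 + v2 * a 2 + (wa - (v0 * a 0 + v1 * a 1 + v2 * a 2)) = wa
    ring
  · show v0 * b 0 + v1 * b 1 + v2 * b 2 + (wa - (v0 * a 0 + v1 * a 1 + v2 * a 2)) = wb
    have : v0 * (b 0 - a 0) + v1 * (b 1 - a 1) + v2 * (b 2 - a 2) = wb - wa := hP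
    linarith
  · show v0 * c 0 + v1 * c 1 + v2 * c 2 + (wa - (v0 * a 0 + v1 * a 1 + v2 * a 2)) = wc
    have : v0 * (c 0 - a 0) + v1 * (c 1 - a 1) + v2 * (c 2 - a 2) = wc - wa := hQ
    linarith
  · show v0 * d 0 + v1 * d 1 + v2 * d 2 + (wa - (v0 * a 0 + v1 * a 1 + v2 * a 2)) = wd
    have : v0 * (d 0 - a 0) + v1 * (d 1 - a 1) + v2 * (d 2 - a 2) = wd - wa := hR
    linarith

end TID38

open TID38 in
theorem p_TID (h : S_AFF) : S_TID := by
  intro n x ω a b c d hab hac had hbc hbd hcd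
  have hA := h n x a b c d hab hac had hbc hbd hcd
  have hcard : ({a, b, c, d} : Finset (Fin n)).card = 4 := by
    rw [Finset.card_insert_of_notMem, Finset.card_insert_of_notMem, Finset.card_insert_of_notMem,
      Finset.card_singleton]
    · simpa using hcd
    · simp [hbc, hbd]
    · simp [hab, hac, had]
  constructor
  · rintro ⟨_, hind, v, k, heq, hlt⟩
    have hne : ori (co x a) (co x b) (co x c) (co x d) ≠ 0 := hA.1 hind
    refine ⟨hne, fun m hma hmb hmc hmd => ?_⟩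
    rw [isw_eq x ω a b c d m v k (heq a (by simp)) (heq b (by simp)) (heq c (by simp))
      (heq d (by simp))]
    have hm := hlt m (by simp [hma, hmb, hmc, hmd])
    have h1 : 0 < ω m - (ip v (co x m) + k) := by linarith
    have h2 : 0 < ori (co x a) (co x b) (co x c) (co x d) * ori (co x a) (co x b) (co x c) (co x d) :=
      mul_self_pos.2 hne
    rw [← mul_assoc]
    exact mul_pos h2 h1
  · rintro ⟨hne, hpos⟩
    refine ⟨hcard, hA.2 hne, ?_⟩
    obtain ⟨v, k, ha, hb, hc, hd⟩ := solve (co x a) (co x b) (co x c) (co x d) (ω a) (ω b) (ω c)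
      (ω d) hne
    refine ⟨v, k, ?_, ?_⟩
    · intro i hi
      simp only [mem_insert, mem_singleton] at hi
      rcases hi with rfl | rfl | rfl | rfl
      · exact ha
      · exact hb
      · exact hc
      · exact hd
    · intro m hm
      simp only [mem_insert, mem_singleton, not_or] at hm
      have h1 := hpos m hm.1 hm.2.1 hm.2.2.1 hm.2.2.2
      rw [isw_eq x ω a b c d m v k ha hb hc hd, ← mul_assoc] at h1
      have h2 : 0 < ori (co x a) (co x b) (co x c) (co x d) * ori (co x a) (co x b) (co x c) (co x d) :=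
        mul_self_pos.2 hne
      have h3 := (mul_pos_iff_of_pos_left h2).1 h1
      linarith

end Pool.DTree
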