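import Pool.Agent.Work.MP_e350e5_lc.Interface

/-!
# MP_e350e5_lc, block TR
-/

set_option autoImplicit false

open Finset MvPolynomial

namespace Pool.DTree

namespace BTR

theorem mem_zs {σ ι : Type} [Fintype ι] (f : ι → MvPolynomial σ ℝ) (x : σ → ℝ) (i : ι) :
    i ∈ zs f x ↔ sv f x i = 0 := by
  unfold zs sv
  rw [mem_filter, sign_eq_zero_iff]
  simp

end BTR

theorem p_TR (hS : S_SG) (hZ : S_ZS) : S_TR := by
  classical
  intro σ ι O _ _ f g M hg hM
  -- representatives
  let rep : (ι → SignType) → (σ → ℝ) := fun s => if h : ∃ x, sv f x = s then h.choose else 0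
  have hrep : ∀ x, sv f (rep (sv f x)) = sv f x := by
    intro x
    have h : ∃ y, sv f y = sv f x := ⟨x, rfl⟩
    simp only [rep, dif_pos h]
    exact h.choose_spec
  let V : Finset (ι → SignType) := (Set.toFinite (Set.range (sv f))).toFinset
  have hV : ∀ s, s ∈ V ↔ ∃ x, sv f x = s := by
    intro s
    simp only [V, Set.Finite.mem_toFinset, Set.mem_range]
  have hrepV : ∀ s ∈ V, sv f (rep s) = s := by
    intro s hs
    obtain ⟨x, rfl⟩ := (hV s).1 hs
    exact hrep x
  have hVM : V.card ≤ M := by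
    have h1 : (V.image rep).card = V.card := by
      apply card_image_of_injOn
      intro s hs t ht hst
      have h2 := hrepV s hs
      have h3 := hrepV t ht
      have hst' : rep s = rep t := hst
      rw [← h2, ← h3, hst']
    rw [← h1]
    apply hM
    intro x hx y hy hxy
    rw [mem_image] at hx hy
    obtain ⟨s, hs, rfl⟩ := hx
    obtain ⟨t, ht, rfl⟩ := hy
    rw [hrepV s hs, hrepV t ht] at hxy
    rw [hxy]
  have hV0 : 1 ≤ V.card := by
    rw [Nat.one_le_iff_ne_zero, Finset.card_ne_zero]
    exact ⟨sv f 0, (hV _).2 ⟨0, rfl⟩⟩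
  have hM1 : 1 ≤ M := le_trans hV0 hVM
  have hlogM : 0 ≤ Real.log M := Real.log_natCast_nonneg M
  have hlog : ∀ a : ℕ, a ≤ M → Real.log a ≤ Real.log M := by
    intro a ha
    rcases Nat.eq_zero_or_pos a with h | h
    · rw [h]; simpa using hlogM
    · exact Real.log_le_log (by exact_mod_cast h) (by exact_mod_cast ha)
  let Zf : (ι → SignType) → Finset ι := fun s => univ.filter fun i => s i = 0
  have hZf : ∀ x, zs f x = Zf (sv f x) := by
    intro x
    ext i
    rw [BTR.mem_zs]
    simp [Zf]
  let A : Finset (Finset ι) := V.image Zf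
  have hA : A.card ≤ M := le_trans card_image_le hVM
  obtain ⟨T, hT, hrun⟩ := hZ σ ι O f g (4 * Real.log M) A (by positivity) (by
    intro Z hZA
    let B : Finset (ι → SignType) := V.filter fun s => ∀ i, i ∈ Z ↔ s i = 0
    obtain ⟨T, hT, hrun⟩ := hS σ ι O f (fun s => g (rep s)) Zᶜ B (by
      intro s hs i
      rw [mem_filter] at hs
      rw [mem_compl, hs.2 i])
    refine ⟨T, ?_, ?_⟩
    · refine le_trans hT ?_
      have h1 : B.card ≤ M := le_trans (card_filter_le _ _) hVM
      have h2 := hlog B.card h1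
      linarith
    · intro x hx
      have h1 : sv f x ∈ B := by
        rw [mem_filter]
        refine ⟨(hV _).2 ⟨x, rfl⟩, fun i => ?_⟩
        rw [← hx, BTR.mem_zs]
      rw [hrun x h1]
      exact hg _ _ (hrep x))
  refine ⟨T, ?_, ?_⟩
  · have h2 := hlog A.card hA
    linarith
  · intro x
    apply hrun
    rw [hZf]
    exact mem_image_of_mem _ ((hV _).2 ⟨x, rfl⟩)

end Pool.DTree
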