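import Pool.Agent.Work.MP_e350e5_lc.Interface2

/-! Block TSGN. -/

set_option autoImplicit false

open Finset MvPolynomial Filter Topology

namespace Pool.DTree

theorem TSGN_key (p : Polynomial ℝ) (k : ℕ) (h0 : ∀ d < k, p.coeff d = 0) (hk : p.coeff k ≠ 0) :
    ∀ᶠ ε in 𝓝[>] (0 : ℝ), 0 < p.coeff k * p.eval ε := by
  obtain ⟨r, hr⟩ := Polynomial.X_pow_dvd_iff.2 h0
  have h1 : r.eval 0 = p.coeff k := by
    rw [← Polynomial.coeff_zero_eq_eval_zero]
    have h2 := Polynomial.coeff_X_pow_mul r k 0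
    rw [zero_add, ← hr] at h2
    exact h2.symm
  have h3 : Tendsto (fun ε => p.coeff k * r.eval ε) (𝓝 (0 : ℝ)) (𝓝 (p.coeff k * r.eval 0)) :=
    (r.continuous.tendsto 0).const_mul _
  rw [h1] at h3
  have h4 : 0 < p.coeff k * p.coeff k := mul_self_pos.2 hk
  have h5 : ∀ᶠ ε in 𝓝[>] (0 : ℝ), 0 < p.coeff k * r.eval ε :=
    (h3.eventually (lt_mem_nhds h4)).filter_mono nhdsWithin_le_nhds
  filter_upwards [h5, self_mem_nhdsWithin] with ε h6 h7
  have h8 : p.eval ε = ε ^ k * r.eval ε := by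
    conv_lhs => rw [hr]
    simp
  have h9 : (0 : ℝ) < ε ^ k := pow_pos h7 k
  rw [h8]
  have h10 : p.coeff k * (ε ^ k * r.eval ε) = ε ^ k * (p.coeff k * r.eval ε) := by ring
  rw [h10]
  exact mul_pos h9 h6

theorem TSGN_ex (p : Polynomial ℝ) (hp : p ≠ 0) :
    ∃ k, (∀ d < k, p.coeff d = 0) ∧ p.coeff k ≠ 0 := by
  refine ⟨p.natTrailingDegree, fun d hd => Polynomial.coeff_eq_zero_of_lt_natTrailingDegree hd, ?_⟩
  exact Polynomial.trailingCoeff_nonzero_iff_nonzero.2 hp

theorem p_TSGN : S_TSGN := by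
  refine ⟨fun p => ?_, fun p hp => ?_, fun p q hs hpos => ?_⟩
  · by_cases hp : p = 0
    · right
      subst hp
      simp
    · obtain ⟨k, h0, hk⟩ := TSGN_ex p hp
      have h1 := TSGN_key p k h0 hk
      rcases lt_or_gt_of_ne hk with h2 | h2
      · right
        filter_upwards [h1] with ε h3 h4
        exact absurd h3 (not_lt.2 (mul_nonpos_of_nonpos_of_nonneg h2.le h4.le))
      · left
        filter_upwards [h1] with ε h3
        exact (mul_pos_iff_of_pos_left h2).1 h3
  · obtain ⟨k, h0, hk⟩ := TSGN_ex p hp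
    filter_upwards [TSGN_key p k h0 hk] with ε h3 h4
    rw [h4, mul_zero] at h3
    exact lt_irrefl _ h3
  · have hp : p ≠ 0 := by
      rintro rfl
      have h1 := hpos.exists
      obtain ⟨ε, h2⟩ := h1
      simp at h2
    obtain ⟨k, h0, hk⟩ := TSGN_ex p hp
    have h1 := TSGN_key p k h0 hk
    obtain ⟨ε, h2, h3⟩ := (h1.and hpos).exists
    have hpk : 0 < p.coeff k := (mul_pos_iff_of_pos_right h3).1 h2
    have hqk : 0 < q.coeff k := by
      have h4 := hs k
      rw [sign_pos hpk] at h4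
      exact sign_eq_one_iff.1 h4.symm
    have hq0 : ∀ d < k, q.coeff d = 0 := by
      intro d hd
      have h4 := hs d
      rw [h0 d hd, sign_zero] at h4
      exact sign_eq_zero_iff.1 h4.symm
    filter_upwards [TSGN_key q k hq0 hqk.ne'] with ε h5
    exact (mul_pos_iff_of_pos_left hqk).1 h5

end Pool.DTree
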