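import Pool.Agent.Work.MP_e350e5_lc.Interface
import Pool.Agent.Work.MP_461429_co.SignPatterns

/-!
# MP_e350e5_lc: assembly of the upper bound
-/

set_option autoImplicit false

namespace Pool.DTree

theorem fin_upper (h1 : S_TR) (h2 : S_GEO) (h3 : S_DEG) (h4 : S_NUM) (n : ℕ) :
    ∃ T : Tree (Fin n × Fin 3) ((Ix n → SignType) × Set (Finset (Fin n))),
      (T.depth : ℝ) ≤ 252 * n * Real.log (n + 2) ∧ ∀ x, T.run x = (sv F x, Del x) := by
  obtain ⟨T, hT, hr⟩ := h1 (Fin n × Fin 3) (Ix n) _ F (fun x => (sv F x, Del x))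
    ((1 + (2 * 5 * Fintype.card (Ix n) + 1) * Fintype.card (Fin n × Fin 3))
      ^ Fintype.card (Fin n × Fin 3))
    (fun x y h => Prod.ext h (h2 n x y h))
    (fun X hX => Pool.Agent.Work.MP_461429_co.card_signPatterns_le F 5 (h3 n) X
      (fun x hx y hy h => hX x hx y hy (funext h)))
  exact ⟨T, hT.trans (h4 n), hr⟩

end Pool.DTree
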