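import Mathlib

/-!
# MP_e350e5_lc: algebraic decision trees for three-dimensional Delaunay triangulations

Blocks: every `S_X` is proved in its own file `B_X.lean` by `theorem p_X : S_X`.
-/

set_option autoImplicit false

open Finset MvPolynomial

namespace Pool.DTree

/-- An algebraic decision tree with inputs in `ℝ^σ` and outputs in `O`: every inner node tests the sign of a
polynomial in the input coordinates (three outcomes), every leaf carries an output. -/
inductive Tree (σ O : Type) : Type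
  | leaf (o : O) : Tree σ O
  | node (p : MvPolynomial σ ℝ) (neg zero pos : Tree σ O) : Tree σ O

/-- the largest number of sign tests on a path -/
def Tree.depth {σ O : Type} : Tree σ O → ℕ
  | .leaf _ => 0
  | .node _ a b c => max a.depth (max b.depth c.depth) + 1

open Classical in
/-- the output for the input `x` -/
noncomputable def Tree.run {σ O : Type} : Tree σ O → (σ → ℝ) → O
  | .leaf o, _ => o
  | .node p a b c, x => if eval x p < 0 then a.run x else if eval x p = 0 then b.run x else c.run x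

/-- the sign vector of the polynomials `f i` at `x` -/
noncomputable def sv {σ ι : Type} (f : ι → MvPolynomial σ ℝ) (x : σ → ℝ) : ι → SignType :=
  fun i => SignType.sign (eval x (f i))

/-- the indices with `f i` zero at `x` -/
noncomputable def zs {σ ι : Type} [Fintype ι] (f : ι → MvPolynomial σ ℝ) (x : σ → ℝ) : Finset ι :=
  by classical exact univ.filter (fun i => eval x (f i) = 0)

/-- the `i`-th point -/
noncomputable def pt {n : ℕ} (x : Fin n × Fin 3 → ℝ) (i : Fin n) : EuclideanSpace ℝ (Fin 3) :=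
  WithLp.toLp 2 (fun j => x (i, j))

/-- `S` is a set of four affinely independent points and the open ball bounded by its circumscribed sphere
contains none of the given points -/
def IsDel {n : ℕ} (x : Fin n × Fin 3 → ℝ) (S : Finset (Fin n)) : Prop :=
  S.card = 4 ∧ AffineIndependent ℝ (fun i : S => pt x i) ∧
    ∃ (o : EuclideanSpace ℝ (Fin 3)) (r : ℝ), (∀ i ∈ S, dist (pt x i) o = r) ∧ ∀ m, r ≤ dist (pt x m) o

/-- the Delaunay tetrahedra -/
def Del {n : ℕ} (x : Fin n × Fin 3 → ℝ) : Set (Finset (Fin n)) := {S | IsDel x S}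

section ring

variable {R : Type} [CommRing R]

/-- determinant of three vectors -/
def D3 (u v w : Fin 3 → R) : R :=
  u 0 * (v 1 * w 2 - v 2 * w 1) - u 1 * (v 0 * w 2 - v 2 * w 0) + u 2 * (v 0 * w 1 - v 1 * w 0)

/-- square of the length -/
def nq (u : Fin 3 → R) : R := u 0 ^ 2 + u 1 ^ 2 + u 2 ^ 2

/-- inner product -/
def ip (u v : Fin 3 → R) : R := u 0 * v 0 + u 1 * v 1 + u 2 * v 2

/-- orientation of four points -/
def ori (a b c d : Fin 3 → R) : R := D3 (b - a) (c - a) (d - a)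

/-- in-sphere determinant of five points -/
def isp (a b c d e : Fin 3 → R) : R :=
  nq (e - a) * D3 (b - a) (c - a) (d - a) - nq (d - a) * D3 (b - a) (c - a) (e - a)
    + nq (c - a) * D3 (b - a) (d - a) (e - a) - nq (b - a) * D3 (c - a) (d - a) (e - a)

end ring

/-- the indices of the tests: four or five points -/
abbrev Ix (n : ℕ) : Type := (Fin n × Fin n × Fin n × Fin n) ⊕ (Fin n × Fin n × Fin n × Fin n × Fin n)

/-- the point with number `i` as a triple of variables -/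
noncomputable def xp {n : ℕ} (i : Fin n) : Fin 3 → MvPolynomial (Fin n × Fin 3) ℝ := fun j => X (i, j)

/-- the orientation and in-sphere polynomials -/
noncomputable def F {n : ℕ} : Ix n → MvPolynomial (Fin n × Fin 3) ℝ
  | .inl (a, b, c, d) => ori (xp a) (xp b) (xp c) (xp d)
  | .inr (a, b, c, d, e) => isp (xp a) (xp b) (xp c) (xp d) (xp e)

/-- CH. For pairwise different sign vectors some product of entries is almost balanced. Proof:
`∑_{S ⊆ R} (∑_s ∏_{i ∈ S} s i)^2 = ∑_{s, s'} ∏_{i ∈ R} (1 + s i * s' i) = 2 ^ card R * card B`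
(`Finset.prod_one_add` or `Finset.prod_add`; the factor is `0` where `s i ≠ s' i`), so one of the
`2 ^ card R` summands is at most `card B` (`Finset.exists_le_of_sum_le`). -/
def S_CH : Prop := ∀ (ι : Type) [Fintype ι] [DecidableEq ι] (R : Finset ι) (B : Finset (ι → ℤ)),
  (∀ s ∈ B, ∀ i, (i ∈ R → s i = 1 ∨ s i = -1) ∧ (i ∉ R → s i = 0)) →
  ∃ S ⊆ R, (∑ s ∈ B, ∏ i ∈ S, s i) ^ 2 ≤ (B.card : ℤ)

/-- HALF (hypothesis `h : S_CH`). Entries in `SignType`, zero exactly off `R`; at most three quarters of the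
vectors on both sides. Apply CH to the image under the cast to `ℤ` (injective); `s = |B+| - |B-|`,
`s^2 ≤ m`, `m ≥ 2` give `2 |s| ≤ m`. -/
def S_HALF : Prop := ∀ (ι : Type) [Fintype ι] [DecidableEq ι] (R : Finset ι) (B : Finset (ι → SignType)),
  2 ≤ B.card → (∀ s ∈ B, ∀ i, i ∈ R ↔ s i ≠ 0) →
  ∃ S ⊆ R, 4 * (B.filter (fun s => ∏ i ∈ S, s i = 1)).card ≤ 3 * B.card ∧
    4 * (B.filter (fun s => ∏ i ∈ S, s i = -1)).card ≤ 3 * B.card

/-- SG (hypothesis `h : S_HALF`). Sign search, depth `≤ 4 log card B`, strong induction on `card B`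
(`card B ≤ 1`: a leaf; else the node `∏ i ∈ S, f i`, whose sign is `∏ i ∈ S, sv f x i`, never `0` as `S ⊆ R`;
`1 + 4 log (3 m / 4) ≤ 4 log m` because `log (4/3) ≥ 1/4`). -/
def S_SG : Prop := ∀ (σ ι O : Type) [Fintype ι] [DecidableEq ι] (f : ι → MvPolynomial σ ℝ)
  (G : (ι → SignType) → O) (R : Finset ι) (B : Finset (ι → SignType)),
  (∀ s ∈ B, ∀ i, i ∈ R ↔ s i ≠ 0) → ∃ T : Tree σ O, (T.depth : ℝ) ≤ 4 * Real.log B.card ∧
    ∀ x, sv f x ∈ B → T.run x = G (sv f x)

/-- UP. A finite family `A` of finite sets with at least two members has a part `U` with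
`card U`, `card (A \ U)` between `1` and `2/3 card A` whose members have at least as many elements as those
outside (sort by cardinality, or: induction on the size of `U`, add a member of largest cardinality). -/
def S_UP : Prop := ∀ (ι : Type) [DecidableEq ι] (A : Finset (Finset ι)), 2 ≤ A.card →
  ∃ U ⊆ A, 3 * U.card ≤ 2 * A.card ∧ 3 * (A \ U).card ≤ 2 * A.card ∧
    ∀ Z ∈ U, ∀ Z' ∈ A \ U, Z'.card ≤ Z.card

/-- ZS (hypothesis `h : S_UP`). Search for the zero set, strong induction on `card A`: the node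
`∏ Z ∈ U, ∑ i ∈ Z, f i ^ 2` vanishes at `x` iff `Z ⊆ zs f x` for some `Z ∈ U`, and for `zs f x ∈ A` iff
`zs f x ∈ U` (if `Z ⊆ zs f x ∈ A \ U` then the cardinalities give equality). It is never negative.
`1 + 3 log (2 m / 3) ≤ 3 log m` because `log (3/2) ≥ 1/3`. Card `0`: a leaf with the output `g 0`. -/
def S_ZS : Prop := ∀ (σ ι O : Type) [Fintype ι] [DecidableEq ι] (f : ι → MvPolynomial σ ℝ)
  (g : (σ → ℝ) → O) (d : ℝ) (A : Finset (Finset ι)), 0 ≤ d →
  (∀ Z ∈ A, ∃ T : Tree σ O, (T.depth : ℝ) ≤ d ∧ ∀ x, zs f x = Z → T.run x = g x) →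
  ∃ T : Tree σ O, (T.depth : ℝ) ≤ d + 3 * Real.log A.card ∧ ∀ x, zs f x ∈ A → T.run x = g x

/-- TR (hypotheses `hS : S_SG`, `hZ : S_ZS`). Let `V` be the finite set of all sign vectors `sv f x`
(`ι` finite), `A` the set of their zero sets (`card A ≤ card V ≤ M`). `4 log M + 3 log M = 7 log M`. -/
def S_TR : Prop := ∀ (σ ι O : Type) [Fintype ι] [DecidableEq ι] (f : ι → MvPolynomial σ ℝ)
  (g : (σ → ℝ) → O) (M : ℕ), (∀ x y, sv f x = sv f y → g x = g y) →
  (∀ X : Finset (σ → ℝ), (∀ x ∈ X, ∀ y ∈ X, sv f x = sv f y → x = y) → X.card ≤ M) →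
  ∃ T : Tree σ O, (T.depth : ℝ) ≤ 7 * Real.log M ∧ ∀ x, T.run x = g x

/-- SPH. The in-sphere identity. `u = b - a` etc. satisfy `nq u = 2 ip u o'`, `o' = o - a`, and
`z D(u,v,w) - w D(u,v,z) + v D(u,w,z) - u D(v,w,z) = 0`; so `isp = ori * (|e-o|^2 - |a-o|^2)`. -/
def S_SPH : Prop := ∀ (a b c d e o : Fin 3 → ℝ), nq (b - o) = nq (a - o) → nq (c - o) = nq (a - o) →
  nq (d - o) = nq (a - o) → isp a b c d e = ori a b c d * (nq (e - o) - nq (a - o))

/-- CIR. Four points with nonzero orientation have a circumcentre (Cramer, or the inverse matrix). -/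
def S_CIR : Prop := ∀ (a b c d : Fin 3 → ℝ), ori a b c d ≠ 0 → ∃ o : Fin 3 → ℝ, nq (b - o) = nq (a - o) ∧
  nq (c - o) = nq (a - o) ∧ nq (d - o) = nq (a - o)

/-- AFF. Affine independence is nonzero orientation. -/
def S_AFF : Prop := ∀ (n : ℕ) (x : Fin n × Fin 3 → ℝ) (a b c d : Fin n), a ≠ b → a ≠ c → a ≠ d → b ≠ c →
  b ≠ d → c ≠ d → (AffineIndependent ℝ (fun i : ({a, b, c, d} : Finset (Fin n)) => pt x i) ↔
    ori (fun j => x (a, j)) (fun j => x (b, j)) (fun j => x (c, j)) (fun j => x (d, j)) ≠ 0)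

/-- EV. Evaluation. -/
def S_EV : Prop := ∀ (n : ℕ) (x : Fin n × Fin 3 → ℝ), (∀ a b c d : Fin n,
  eval x (ori (xp a) (xp b) (xp c) (xp d)) =
    ori (fun j => x (a, j)) (fun j => x (b, j)) (fun j => x (c, j)) (fun j => x (d, j))) ∧
  ∀ a b c d e : Fin n, eval x (isp (xp a) (xp b) (xp c) (xp d) (xp e)) =
    isp (fun j => x (a, j)) (fun j => x (b, j)) (fun j => x (c, j)) (fun j => x (d, j)) (fun j => x (e, j))

/-- GEO (hypotheses `h1 : S_SPH`, `h2 : S_CIR`, `h3 : S_AFF`, `h4 : S_EV`). The Delaunay tetrahedra depend on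
the signs only: for `S = {a, b, c, d}`, `IsDel x S` iff `ori ≠ 0` and `0 ≤ ori * isp a b c d m` for all `m`
(`ori * isp = ori^2 * (|m-o|^2 - r^2)`). -/
def S_GEO : Prop := ∀ (n : ℕ) (x y : Fin n × Fin 3 → ℝ), sv F x = sv F y → Del x = Del y

/-- DEG. -/
def S_DEG : Prop := ∀ (n : ℕ) (i : Ix n), (F i).totalDegree ≤ 5

/-- NUM. -/
def S_NUM : Prop := ∀ n : ℕ, 7 * Real.log ((1 + (2 * 5 * Fintype.card (Ix n) + 1) * Fintype.card (Fin n × Fin 3))
  ^ Fintype.card (Fin n × Fin 3) : ℕ) ≤ 252 * n * Real.log (n + 2)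

/-- MAIN (hypotheses `h1 : S_TR`, `h2 : S_GEO`, `h3 : S_DEG`, `h4 : S_NUM`, and the weak Warren theorem
`Pool.Agent.Work.MP_461429_co.card_signPatterns_le`, file `Pool/Agent/Work/MP_461429_co/SignPatterns.lean`,
import it). -/
def S_MAIN : Prop := ∀ n : ℕ, ∃ T : Tree (Fin n × Fin 3) (Set (Finset (Fin n))),
  (T.depth : ℝ) ≤ 252 * n * Real.log (n + 2) ∧ ∀ x, T.run x = Del x

/-! ## the lower bound -/

/-- the number of leaves -/
def Tree.leaves {σ O : Type} : Tree σ O → ℕ
  | .leaf _ => 1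
  | .node _ a b c => a.leaves + b.leaves + c.leaves

/-- LV. A tree of depth `d` has at most `3 ^ d` outputs. -/
def S_LV : Prop := ∀ (σ O : Type) (T : Tree σ O) (B : Finset O), (∀ o ∈ B, ∃ x, T.run x = o) →
  B.card ≤ 3 ^ T.depth

/-- two skew lines: the first `m` points `(s i, 0, 0)`, the last two points `(0, -1, 1)` and `(0, 1, 1)` -/
noncomputable def cfg {m : ℕ} (s : Fin m → ℝ) : Fin (m + 2) × Fin 3 → ℝ :=
  fun q => Fin.append (fun i => (![s i, 0, 0] : Fin 3 → ℝ)) ![![0, -1, 1], ![0, 1, 1]] q.1 q.2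

/-- TWO. With `s` injective, `{i, j, m, m+1}` is a Delaunay tetrahedron iff no `s k` is strictly between `s i` and
`s j`: the centre is `((s i + s j)/2, 0, w)` with `((s i - s j)/2)^2 + w^2 = ((s i + s j)/2)^2 + 1 + (1 - w)^2`,
and `(s k, 0, 0)` is inside iff `(s k - s i) (s k - s j) < 0`. -/
def S_TWO : Prop := ∀ (m : ℕ) (s : Fin m → ℝ), Function.Injective s → ∀ i j : Fin m, i ≠ j →
  (IsDel (cfg s) {Fin.castAdd 2 i, Fin.castAdd 2 j, Fin.natAdd m 0, Fin.natAdd m 1} ↔
    ∀ k, 0 ≤ (s k - s i) * (s k - s j))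

/-- INJ (hypothesis `h : S_TWO`). For permutations `π`, `π'` of `Fin m` with `π⁻¹ 0 = π'⁻¹ 0` the Delaunay sets of
`cfg (fun i => π i)` and `cfg (fun i => π' i)` are different if `π ≠ π'` (neighbours determine the order from the
point number `0` on: induction). So there are at least `(m-1)!` outputs: `B` = image of the permutations of
`Fin m` which fix `0`. -/
def S_INJ : Prop := ∀ m : ℕ, ∃ B : Finset (Set (Finset (Fin (m + 1 + 2)))), m.factorial ≤ B.card ∧
  ∀ o ∈ B, ∃ x, Del x = o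

/-- LOW (hypotheses `h1 : S_LV`, `h2 : S_INJ`): `(n-3)! ≤ 3 ^ depth`. -/
def S_LOW : Prop := ∃ c : ℝ, 0 < c ∧ ∀ n : ℕ, 5 ≤ n → ∀ T : Tree (Fin n × Fin 3) (Set (Finset (Fin n))),
  (∀ x, T.run x = Del x) → c * n * Real.log n ≤ T.depth

end Pool.DTree
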