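import Pool.Agent.Work.MP_e350e5_lc.Interface

/-!
# MP_e350e5_lc: Delaunay triangulations from the signs (statements of the blocks `T..`)
-/

set_option autoImplicit false

open Finset MvPolynomial Filter Topology

namespace Pool.DTree

/-- `T` is a Delaunay triangulation of the points of `x`: tetrahedra with empty open circumscribed balls, whose
union is the convex hull, which meet face to face, and whose vertices are all the given points -/
structure IsDT {n : ℕ} (x : Fin n × Fin 3 → ℝ) (T : Finset (Finset (Fin n))) : Prop where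
  del : ∀ S ∈ T, IsDel x S
  cover : (⋃ S ∈ T, convexHull ℝ (pt x '' (S : Set (Fin n)))) = convexHull ℝ (Set.range (pt x))
  inter : ∀ S ∈ T, ∀ S' ∈ T, convexHull ℝ (pt x '' (S : Set (Fin n))) ∩ convexHull ℝ (pt x '' (S' : Set (Fin n)))
    = convexHull ℝ (pt x '' ((S ∩ S' : Finset (Fin n)) : Set (Fin n)))
  vert : ∀ i, ∃ S ∈ T, i ∈ S

/-- the coordinates of the `i`-th point -/
def co {n : ℕ} (x : Fin n × Fin 3 → ℝ) (i : Fin n) : Fin 3 → ℝ := fun j => x (i, j)

/-- the affine function with slope `v` and constant `c` is below the heights `ω` -/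
def Feas {n : ℕ} (x : Fin n × Fin 3 → ℝ) (ω : Fin n → ℝ) (v : Fin 3 → ℝ) (c : ℝ) : Prop :=
  ∀ i, ip v (co x i) + c ≤ ω i

/-- the points where the affine function is equal to the height -/
def tight {n : ℕ} (x : Fin n × Fin 3 → ℝ) (ω : Fin n → ℝ) (v : Fin 3 → ℝ) (c : ℝ) : Set (Fin n) :=
  {i | ip v (co x i) + c = ω i}

/-- `S` is a simplex of the lower convex hull of the points with heights `ω` -/
def Low {n : ℕ} (x : Fin n × Fin 3 → ℝ) (ω : Fin n → ℝ) (S : Finset (Fin n)) : Prop :=
  S.card = 4 ∧ AffineIndependent ℝ (fun i : S => pt x i) ∧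
    ∃ (v : Fin 3 → ℝ) (c : ℝ), (∀ i ∈ S, ip v (co x i) + c = ω i) ∧ ∀ m ∉ S, ip v (co x m) + c < ω m

/-- the heights `|p_i|^2 + ε^(i+1)` -/
def om {n : ℕ} (x : Fin n × Fin 3 → ℝ) (ε : ℝ) (i : Fin n) : ℝ := nq (co x i) + ε ^ ((i : ℕ) + 1)

/-- no affine function is equal to the height at five points which affinely span the space -/
def Gen {n : ℕ} (x : Fin n × Fin 3 → ℝ) (ω : Fin n → ℝ) : Prop :=
  ∀ (v : Fin 3 → ℝ) (c : ℝ) (U : Finset (Fin n)), (∀ i ∈ U, ip v (co x i) + c = ω i) →
    affineSpan ℝ (pt x '' (U : Set (Fin n))) = ⊤ → U.card ≤ 4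

/-- in-sphere determinant for the heights `ω` -/
def isw {n : ℕ} (x : Fin n × Fin 3 → ℝ) (ω : Fin n → ℝ) (a b c d m : Fin n) : ℝ :=
  ω m * ori (co x a) (co x b) (co x c) (co x d) - ω d * ori (co x a) (co x b) (co x c) (co x m)
    + ω c * ori (co x a) (co x b) (co x d) (co x m) - ω b * ori (co x a) (co x c) (co x d) (co x m)
    + ω a * ori (co x b) (co x c) (co x d) (co x m)

open Classical in
/-- the simplices of the lower convex hull for all small `ε > 0` -/
noncomputable def TT {n : ℕ} (x : Fin n × Fin 3 → ℝ) : Finset (Finset (Fin n)) :=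
  univ.filter (fun S => ∀ᶠ ε in 𝓝[>] (0 : ℝ), Low x (om x ε) S)

/-- TMAX. A maximal affine minorant at an interior point exists. The set of feasible `(v, c)` with
`ip v q + c ≥ ip v0 q + c0` is closed (finitely many continuous inequalities) and bounded: a ball
`B(q, ρ)` lies in the hull, on which a feasible function is `≤ max ω` (convex combinations), so
`ρ |v| ≤ max ω - (ip v0 q + c0)` and then `c` is bounded; a feasible `(0, min ω)` exists. -/
def S_TMAX : Prop := ∀ (n : ℕ) (x : Fin n × Fin 3 → ℝ) (ω : Fin n → ℝ) (q : EuclideanSpace ℝ (Fin 3)),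
  q ∈ interior (convexHull ℝ (Set.range (pt x))) → ∃ v c, Feas x ω v c ∧
    ∀ v' c', Feas x ω v' c' → ip v' (fun j => q j) + c' ≤ ip v (fun j => q j) + c

/-- TSEP. At a maximal affine minorant, `q` lies in the hull of the tight points: otherwise (finite set, its
hull is compact, or empty) there is an affine function `g` with `g q > 0` and `g < 0` on the tight points
(`geometric_hahn_banach_point_compact` or `_point_closed`), and `h + t g` is feasible for small `t > 0`. -/
def S_TSEP : Prop := ∀ (n : ℕ) (x : Fin n × Fin 3 → ℝ) (ω : Fin n → ℝ) (q : EuclideanSpace ℝ (Fin 3))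
  (v : Fin 3 → ℝ) (c : ℝ), Feas x ω v c →
  (∀ v' c', Feas x ω v' c' → ip v' (fun j => q j) + c' ≤ ip v (fun j => q j) + c) →
  q ∈ convexHull ℝ (pt x '' tight x ω v c)

/-- TGR1. One step: if the tight points do not span there is a feasible affine function with more tight points
(including the old ones). There is a nonzero affine function `g` zero on the tight points (`tight` spans a
proper affine subspace), `g (p i) ≠ 0` for some `i`; replace `g` by `-g` if needed so that `g (p i) > 0`;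
`t = min (ω i - h (p i)) / g (p i)` over the `i` with `g (p i) > 0`; take `h + t g`. If nothing is tight, `g = 1`. -/
def S_TGR1 : Prop := ∀ (n : ℕ) (x : Fin n × Fin 3 → ℝ) (ω : Fin n → ℝ) (v : Fin 3 → ℝ) (c : ℝ),
  affineSpan ℝ (Set.range (pt x)) = ⊤ → Feas x ω v c → affineSpan ℝ (pt x '' tight x ω v c) ≠ ⊤ →
  ∃ v' c', Feas x ω v' c' ∧ tight x ω v c ⊂ tight x ω v' c'

/-- TCOV (hypotheses `h1 : S_TMAX`, `h2 : S_TSEP`, `h3 : S_TGR1`). For generic heights the lower hull covers:
interior points by TMAX, TSEP, then TGR1 until the tight set spans (it grows), then it has at most 4 points by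
`Gen`, hence exactly 4, affinely independent, and it is `Low`; the union of the finitely many compact simplices
is closed and the interior is dense (`Convex.closure_interior_eq_closure_of_nonempty_interior`,
`interior_convexHull_nonempty_iff_affineSpan_eq_top`). -/
def S_TCOV : Prop := ∀ (n : ℕ) (x : Fin n × Fin 3 → ℝ) (ω : Fin n → ℝ),
  affineSpan ℝ (Set.range (pt x)) = ⊤ → Gen x ω →
  ∀ q ∈ convexHull ℝ (Set.range (pt x)), ∃ S, Low x ω S ∧ q ∈ convexHull ℝ (pt x '' (S : Set (Fin n)))

/-- TINT. Two simplices of the lower hull meet face to face. If `q = ∑ λ_i p_i` (support in `S`)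
`= ∑ λ'_i p_i` (support in `S'`), `h`, `h'` the affine functions, then `h q = ∑ λ_i ω_i ≥ h' q` and
`h' q = ∑ λ'_i ω_i ≥ h q`, so equality; `∑ λ'_i (ω_i - h p_i) = 0` with terms `≥ 0`, so `λ'_i > 0` implies
`i ∈ S`. (`Finset.mem_convexHull'` or `convexHull_range_eq_exists_affineCombination`,
`Finset.centerMass`.) -/
def S_TINT : Prop := ∀ (n : ℕ) (x : Fin n × Fin 3 → ℝ) (ω : Fin n → ℝ) (S S' : Finset (Fin n)),
  Low x ω S → Low x ω S' → convexHull ℝ (pt x '' (S : Set (Fin n))) ∩ convexHull ℝ (pt x '' (S' : Set (Fin n)))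
    = convexHull ℝ (pt x '' ((S ∩ S' : Finset (Fin n)) : Set (Fin n)))

/-- TID (hypothesis `h : S_AFF`). Characterisation by determinants: if `ori ≠ 0` there are unique `v`, `c` with
`ip v p + c = ω` at `a, b, c, d` (Cramer; compare `S_CIR`), and then
`isw ω a b c d m = ori a b c d * (ω m - (ip v p_m + c))` (for all affine functions `isw` is zero). -/
def S_TID : Prop := ∀ (n : ℕ) (x : Fin n × Fin 3 → ℝ) (ω : Fin n → ℝ) (a b c d : Fin n), a ≠ b → a ≠ c →
  a ≠ d → b ≠ c → b ≠ d → c ≠ d → (Low x ω {a, b, c, d} ↔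
    ori (co x a) (co x b) (co x c) (co x d) ≠ 0 ∧ ∀ m, m ≠ a → m ≠ b → m ≠ c → m ≠ d →
      0 < ori (co x a) (co x b) (co x c) (co x d) * isw x ω a b c d m)

/-- TPOL. `isw` with the heights `om x ε` is a polynomial in `ε` with the stated coefficients: constant term
`isp a b c d m`. -/
def S_TPOL : Prop := ∀ (n : ℕ) (x : Fin n × Fin 3 → ℝ) (ε : ℝ) (a b c d m : Fin n),
  isw x (om x ε) a b c d m = isp (co x a) (co x b) (co x c) (co x d) (co x m)
    + (ε ^ ((m : ℕ) + 1) * ori (co x a) (co x b) (co x c) (co x d)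
    - ε ^ ((d : ℕ) + 1) * ori (co x a) (co x b) (co x c) (co x m)
    + ε ^ ((c : ℕ) + 1) * ori (co x a) (co x b) (co x d) (co x m)
    - ε ^ ((b : ℕ) + 1) * ori (co x a) (co x c) (co x d) (co x m)
    + ε ^ ((a : ℕ) + 1) * ori (co x b) (co x c) (co x d) (co x m))

/-- TSGN. The sign of a polynomial near `0+` depends on the signs of its coefficients only, and is eventually
constant (lowest nonzero coefficient; `p = X^k * r`, `r.eval 0 ≠ 0`, continuity). -/
def S_TSGN : Prop := (∀ p : Polynomial ℝ, (∀ᶠ ε in 𝓝[>] (0 : ℝ), 0 < p.eval ε) ∨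
    ∀ᶠ ε in 𝓝[>] (0 : ℝ), ¬ 0 < p.eval ε) ∧
  (∀ p : Polynomial ℝ, p ≠ 0 → ∀ᶠ ε in 𝓝[>] (0 : ℝ), p.eval ε ≠ 0) ∧
  ∀ p q : Polynomial ℝ, (∀ i, SignType.sign (p.coeff i) = SignType.sign (q.coeff i)) →
    (∀ᶠ ε in 𝓝[>] (0 : ℝ), 0 < p.eval ε) → ∀ᶠ ε in 𝓝[>] (0 : ℝ), 0 < q.eval ε

/-- TSTB (hypotheses `h1 : S_TID`, `h2 : S_TPOL`, `h3 : S_TSGN`). For small `ε` the lower hull is `TT x`: for every
`S` of four elements either eventually `Low` or eventually not (finitely many polynomial signs), and there are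
finitely many `S`. -/
def S_TSTB : Prop := ∀ (n : ℕ) (x : Fin n × Fin 3 → ℝ),
  ∀ᶠ ε in 𝓝[>] (0 : ℝ), ∀ S, Low x (om x ε) S ↔ S ∈ TT x

/-- TINV (hypotheses `h1 : S_TID`, `h2 : S_TPOL`, `h3 : S_TSGN`, `h4 : S_EV`). `TT` depends on the signs only: the
coefficients of `ori * isw (om x ε)` are products of two values of the polynomials `F` (up to sign), at
different exponents `0, a+1, b+1, c+1, d+1, m+1`. -/
def S_TINV : Prop := ∀ (n : ℕ) (x y : Fin n × Fin 3 → ℝ), sv F x = sv F y → TT x = TT y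

/-- TGEN (hypotheses `h1 : S_TPOL`, `h2 : S_TSGN`, `h3 : S_AFF`). Generic heights: a spanning `U` with at least five
points contains four affinely independent points `a, b, c, d` and a fifth one `m`; the affine function gives
`isw (om x ε) a b c d m = 0`, but this is a nonzero polynomial in `ε` (coefficient `ori a b c d` at `m + 1`);
finitely many `(a, b, c, d, m)`. -/
def S_TGEN : Prop := ∀ (n : ℕ) (x : Fin n × Fin 3 → ℝ), ∀ᶠ ε in 𝓝[>] (0 : ℝ), Gen x (om x ε)

/-- TDEL (hypotheses `h1 : S_SPH`, `h2 : S_CIR`, `h3 : S_AFF`, `h4 : S_TID`, `h5 : S_TPOL`; use `GEO_char` of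
`B_GEO.lean`). The members of `TT x` are Delaunay tetrahedra: `0 < ori * isw (om x ε)` for small `ε`, limit `ε → 0`:
`0 ≤ ori * isp`; for `m ∈ S` `isp = 0` (by `S_SPH`, or ring). -/
def S_TDEL : Prop := ∀ (n : ℕ) (x : Fin n × Fin 3 → ℝ), ∀ S ∈ TT x, IsDel x S

/-- TVER. A point which is not a vertex of a Delaunay tetrahedron is not in it (a proper convex combination of
points of a sphere is strictly inside): `∑ λ_j |p_j - o|^2 = |q - o|^2 + ∑ λ_j |p_j - q|^2`. -/
def S_TVER : Prop := ∀ (n : ℕ) (x : Fin n × Fin 3 → ℝ) (S : Finset (Fin n)) (i : Fin n),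
  Function.Injective (pt x) → IsDel x S → pt x i ∈ convexHull ℝ (pt x '' (S : Set (Fin n))) → i ∈ S

/-- TFIN (hypotheses `h1 : S_TCOV`, `h2 : S_TINT`, `h3 : S_TSTB`, `h4 : S_TGEN`, `h5 : S_TDEL`, `h6 : S_TVER`). -/
def S_TFIN : Prop := ∀ (n : ℕ) (x : Fin n × Fin 3 → ℝ), Function.Injective (pt x) →
  affineSpan ℝ (Set.range (pt x)) = ⊤ → IsDT x (TT x)

/-! ## the lower bound for triangulations -/

/-- TL1 (hypothesis `h : S_TWO`). A Delaunay triangulation of the two-line configuration contains exactly the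
tetrahedra over neighbours: from the left by `del` and TWO; from the right: `b = (p_i + p_j)/4 + (0,0,1/2)` lies in
the hull, so in some `S' ∈ T`; `S'` is a Delaunay tetrahedron, affinely independent, so it has two points
`k, l` of the line and the last two points (three points of a line are dependent), and
`(s i + s j)/2 ∈ [s k, s l]` (first and third coordinate), `k, l` are neighbours by TWO, so `{k, l} = {i, j}`. -/
def S_TL1 : Prop := ∀ (m : ℕ) (s : Fin m → ℝ), Function.Injective s → ∀ T, IsDT (cfg s) T →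
  ∀ i j : Fin m, i ≠ j →
  (({Fin.castAdd 2 i, Fin.castAdd 2 j, Fin.natAdd m 0, Fin.natAdd m 1} : Finset (Fin (m + 2))) ∈ T ↔
    ∀ k, 0 ≤ (s k - s i) * (s k - s j))

/-- TL2. The configuration consists of different points not all in a plane. -/
def S_TL2 : Prop := ∀ (m : ℕ) (s : Fin m → ℝ), 2 ≤ m → Function.Injective s →
  Function.Injective (pt (cfg s)) ∧ affineSpan ℝ (Set.range (pt (cfg s))) = ⊤

/-- TL3 (hypotheses `h1 : S_LV`, `h2 : S_TL1`, `h3 : S_TL2`; adapt `B_INJx.lean` and `B_LOW.lean`). -/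
def S_TL3 : Prop := ∃ c : ℝ, 0 < c ∧ ∀ n : ℕ, 5 ≤ n → ∀ T : Tree (Fin n × Fin 3) (Finset (Finset (Fin n))),
  (∀ x, Function.Injective (pt x) → affineSpan ℝ (Set.range (pt x)) = ⊤ → IsDT x (T.run x)) →
  c * n * Real.log n ≤ T.depth

end Pool.DTree
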